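import Mathlib.Data.ZMod.Basic
import Mathlib.Topology.Sheaves.Presheaf
import Mathlib.Tactic.Monotonicity.Lemmas
import Mathlib.Data.Int.Star
import Mathlib.Algebra.Order.Ring.Star
import Mathlib.Data.Nat.Prime.Int
import Mathlib.Analysis.SpecialFunctions.Log.Basic
import Mathlib.Algebra.Order.Star.Real
import Mathlib.Algebra.Ring.IsFormallyReal
import Mathlib.Combinatorics.SimpleGraph.Basic
import Mathlib.Analysis.SpecialFunctions.Trigonometric.Series
import Mathlib.Order.Interval.Finset.Box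
import Mathlib.Combinatorics.SetFamily.Shatter
import Mathlib.Data.Nat.Prime.Factorial
import Mathlib.Tactic.Algebra.Basic

-- ======== part 0: formerly Pool.Agent.MP_a31471_co.sx.Count
section MrgPart0

/-!
Counting the patterns of a monotone function along two-parameter families of progressions,
and the adaptive mesh.
-/

set_option autoImplicit false

namespace Pool.Agent.MP_a31471_co.sx

open Finset

theorem card_patterns_le (k T : ℕ) (K : ℤ → ℤ) (hK : Monotone K) (c lo : Fin k → ℤ)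
    {β : Type*} (g : ℤ → β) (R : Finset (Fin k → β))
    (hR : ∀ ρ ∈ R, ∃ u v : ℤ, (∀ i, lo i ≤ K (u + c i * v) ∧ K (u + c i * v) < lo i + T) ∧
      ∀ i, ρ i = g (K (u + c i * v))) :
    R.card ≤ (k * T + 1) ^ 2 := by
  classical
  choose! u v huv hρ using hR
  let E : (Fin k → β) → Finset (Fin k × Fin T) := fun ρ =>
    univ.filter (fun z => lo z.1 + (z.2 : ℕ) < K (u ρ + c z.1 * v ρ))
  have hinj : Set.InjOn E R := by
    intro ρ h1 ρ' h2 hE
    have hle : ∀ ρ ∈ R, ∀ ρ' ∈ R, E ρ = E ρ' → ∀ i,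
        K (u ρ + c i * v ρ) ≤ K (u ρ' + c i * v ρ') := by
      intro ρ h1 ρ' h2 hE i
      by_contra hlt
      push Not at hlt
      have a1 := huv ρ h1 i
      have a2 := huv ρ' h2 i
      obtain ⟨t, ht⟩ := Int.eq_ofNat_of_zero_le (sub_nonneg.2 a2.1)
      have htT : t < T := by omega
      have m1 : (i, (⟨t, htT⟩ : Fin T)) ∈ E ρ := by
        simp only [E, Finset.mem_filter, Finset.mem_univ, true_and]
        omega
      rw [hE] at m1
      simp only [E, Finset.mem_filter, Finset.mem_univ, true_and] at m1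
      omega
    funext i
    rw [hρ ρ h1 i, hρ ρ' h2 i,
      le_antisymm (hle ρ h1 ρ' h2 hE i) (hle ρ' h2 ρ h1 hE.symm i)]
  have hcard : R.card = (R.image E).card := (Finset.card_image_of_injOn hinj).symm
  have three : ∀ z1 z2 z3 : Fin k × Fin T, z1 ≠ z2 → z2 ≠ z3 → c z1.1 ≤ c z2.1 → c z2.1 ≤ c z3.1 →
      ∀ s : Finset (Fin k × Fin T), z1 ∈ s → z2 ∈ s → z3 ∈ s → ¬ (R.image E).Shatters s := by
    intro z1 z2 z3 h12 h23 c12 c23 s m1 m2 m3 hs
    obtain ⟨A, hA, eA⟩ := hs (t := {z1, z3}) (by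
      intro z hz
      rcases Finset.mem_insert.1 hz with rfl | hz
      · exact m1
      · rw [Finset.mem_singleton.1 hz]; exact m3)
    obtain ⟨B, hB, eB⟩ := hs (t := {z2}) (by simpa using m2)
    obtain ⟨ρ, -, rfl⟩ := Finset.mem_image.1 hA
    obtain ⟨ρ', -, rfl⟩ := Finset.mem_image.1 hB
    have a1 : z1 ∈ E ρ := (Finset.mem_inter.1 (eA ▸ (by simp : z1 ∈ ({z1, z3} : Finset _)))).2
    have a3 : z3 ∈ E ρ := (Finset.mem_inter.1 (eA ▸ (by simp : z3 ∈ ({z1, z3} : Finset _)))).2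
    have a2 : z2 ∉ E ρ := by
      intro h
      have : z2 ∈ ({z1, z3} : Finset _) := eA ▸ Finset.mem_inter.2 ⟨m2, h⟩
      rcases Finset.mem_insert.1 this with h | h
      · exact h12 h.symm
      · exact h23 (Finset.mem_singleton.1 h)
    have b2 : z2 ∈ E ρ' := (Finset.mem_inter.1 (eB ▸ (by simp : z2 ∈ ({z2} : Finset _)))).2
    have b1 : z1 ∉ E ρ' := by
      intro h
      have : z1 ∈ ({z2} : Finset _) := eB ▸ Finset.mem_inter.2 ⟨m1, h⟩
      exact h12 (Finset.mem_singleton.1 this)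
    have b3 : z3 ∉ E ρ' := by
      intro h
      have : z3 ∈ ({z2} : Finset _) := eB ▸ Finset.mem_inter.2 ⟨m3, h⟩
      exact h23 (Finset.mem_singleton.1 this).symm
    simp only [E, Finset.mem_filter, Finset.mem_univ, true_and, not_lt] at a1 a2 a3 b1 b2 b3
    have d1 : u ρ' + c z1.1 * v ρ' < u ρ + c z1.1 * v ρ := hK.reflect_lt (lt_of_le_of_lt b1 a1)
    have d3 : u ρ' + c z3.1 * v ρ' < u ρ + c z3.1 * v ρ := hK.reflect_lt (lt_of_le_of_lt b3 a3)
    have d2 : u ρ + c z2.1 * v ρ < u ρ' + c z2.1 * v ρ' := hK.reflect_lt (lt_of_le_of_lt a2 b2)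
    rcases le_total (v ρ) (v ρ') with hv | hv
    · nlinarith [mul_nonneg (sub_nonneg.2 c23) (sub_nonneg.2 hv)]
    · nlinarith [mul_nonneg (sub_nonneg.2 c12) (sub_nonneg.2 hv)]
  have hvc : (R.image E).vcDim ≤ 2 := by
    refine Finset.sup_le (fun s hs => ?_)
    rw [Finset.mem_shatterer] at hs
    by_contra hlt
    push Not at hlt
    obtain ⟨x, y, z, hx, hy, hz, hxy, hxz, hyz⟩ := Finset.two_lt_card_iff.1 hlt
    rcases le_total (c x.1) (c y.1) with h1 | h1 <;> rcases le_total (c y.1) (c z.1) with h2 | h2 <;>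
      rcases le_total (c x.1) (c z.1) with h3 | h3
    · exact three x y z hxy hyz h1 h2 s hx hy hz hs
    · exact three x y z hxy hyz h1 h2 s hx hy hz hs
    · exact three x z y hxz hyz.symm h3 h2 s hx hz hy hs
    · exact three z x y hxz.symm hxy h3 h1 s hz hx hy hs
    · exact three y x z hxy.symm hxz h1 h3 s hy hx hz hs
    · exact three y z x hyz hxz.symm h2 h3 s hy hz hx hs
    · exact three z y x hyz.symm hxy.symm h2 h1 s hz hy hx hs
    · exact three z y x hyz.symm hxy.symm h2 h1 s hz hy hx hs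
  have h1 := (Finset.card_le_card_shatterer (R.image E)).trans
    (Finset.card_shatterer_le_sum_vcDim (𝒜 := R.image E))
  rw [hcard]
  refine h1.trans ?_
  refine le_trans (Finset.sum_le_sum_of_subset (Finset.Iic_subset_Iic.2 hvc)) ?_
  have h2 : (Finset.Iic 2 : Finset ℕ) = {0, 1, 2} := by decide
  rw [h2]
  simp only [Fintype.card_prod, Fintype.card_fin]
  generalize k * T = n
  have h3 : n.choose 2 ≤ n ^ 2 := Nat.choose_le_pow n 2
  simp
  nlinarith

/-- A mesh on the integers: monotone, `Λ` cells in each period `q`, and cells that are short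
compared with their distance to the ends of the period. -/
structure Mesh (q W Λ : ℤ) (K : ℤ → ℤ) : Prop where
  mono : Monotone K
  shift : ∀ Z m : ℤ, K (Z + m * q) = K Z + m * Λ
  lower : ∀ Z : ℤ, Z / q * Λ ≤ K Z
  upper : ∀ Z : ℤ, K Z < (Z / q + 1) * Λ
  close : ∀ Z Z' : ℤ, K Z = K Z' →
    Z / q = Z' / q ∧ W * |Z - Z'| < 2 * (Z % q + 1) ∧ W * |Z - Z'| < 2 * (q - Z % q)

theorem log_close (W : ℝ) (hW : 1 ≤ W) (x y : ℝ) (hx : 0 < x) (hxy : x ≤ y)
    (h : W * (Real.log y - Real.log x) < 1) : W * (y - x) < 2 * x := by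
  have hW0 : 0 < W := by linarith
  have hy : 0 < y := by linarith
  have h1 : Real.log y - Real.log x < 1 / W := by
    rw [lt_div_iff₀ hW0]; linarith
  have h2 : y < x * Real.exp (1 / W) := by
    have : Real.log y < Real.log x + 1 / W := by linarith
    calc y = Real.exp (Real.log y) := (Real.exp_log hy).symm
      _ < Real.exp (Real.log x + 1 / W) := Real.exp_lt_exp.2 this
      _ = x * Real.exp (1 / W) := by rw [Real.exp_add, Real.exp_log hx]
  have h3 : (1 : ℝ) / W ≤ 1 := by rw [div_le_one hW0]; exact hW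
  have h4 : (0 : ℝ) ≤ 1 / W := by positivity
  have h5 : |Real.exp (1 / W) - 1| ≤ 2 * |1 / W| :=
    Real.abs_exp_sub_one_le (by rw [abs_of_nonneg h4]; exact h3)
  rw [abs_of_nonneg h4] at h5
  have h6 : Real.exp (1 / W) ≤ 1 + 2 * (1 / W) := by linarith [le_abs_self (Real.exp (1 / W) - 1)]
  have h7 : y - x < x * (2 * (1 / W)) := by nlinarith
  calc W * (y - x) < W * (x * (2 * (1 / W))) := mul_lt_mul_of_pos_left h7 hW0
    _ = 2 * x := by field_simp

theorem exists_mesh (q W B : ℤ) (hq : 0 < q) (hW : 1 ≤ W) (hB : (W : ℝ) * Real.log q ≤ B) :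
    ∃ K : ℤ → ℤ, Mesh q W (2 * B + 1) K := by
  let g : ℤ → ℝ := fun Y => (W : ℝ) * (Real.log ((Y : ℝ) + 1) - Real.log ((q : ℝ) - Y))
  let κ : ℤ → ℤ := fun Y => ⌊g Y⌋ + B
  have hWr : (1 : ℝ) ≤ W := by exact_mod_cast hW
  have hW0 : (0 : ℝ) ≤ W := by linarith
  have hlog : ∀ Y : ℤ, 0 ≤ Y → Y < q →
      (0 ≤ Real.log ((Y : ℝ) + 1) ∧ Real.log ((Y : ℝ) + 1) ≤ Real.log q) ∧
      (0 ≤ Real.log ((q : ℝ) - Y) ∧ Real.log ((q : ℝ) - Y) ≤ Real.log q) := by
    intro Y h0 h1
    have a0 : (0 : ℝ) ≤ Y := by exact_mod_cast h0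
    have a1 : (Y : ℝ) + 1 ≤ q := by exact_mod_cast h1
    exact ⟨⟨Real.log_nonneg (by linarith), Real.log_le_log (by linarith) a1⟩,
      ⟨Real.log_nonneg (by linarith), Real.log_le_log (by linarith) (by linarith)⟩⟩
  have hrange : ∀ Y : ℤ, 0 ≤ Y → Y < q → 0 ≤ κ Y ∧ κ Y < 2 * B + 1 := by
    intro Y h0 h1
    obtain ⟨⟨a1, a2⟩, a3, a4⟩ := hlog Y h0 h1
    have b1 : -B ≤ ⌊g Y⌋ := by
      rw [Int.le_floor]
      simp only [g]
      push_cast
      nlinarith
    have b2 : ⌊g Y⌋ < B + 1 := by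
      rw [Int.floor_lt]
      simp only [g]
      push_cast
      nlinarith
    simp only [κ]
    omega
  have hmono : ∀ Y Y' : ℤ, 0 ≤ Y → Y ≤ Y' → Y' < q → κ Y ≤ κ Y' := by
    intro Y Y' h0 h1 h2
    have a0 : (0 : ℝ) ≤ Y := by exact_mod_cast h0
    have a1 : (Y : ℝ) ≤ Y' := by exact_mod_cast h1
    have a2 : (Y' : ℝ) + 1 ≤ q := by exact_mod_cast h2
    have b1 : Real.log ((Y : ℝ) + 1) ≤ Real.log ((Y' : ℝ) + 1) :=
      Real.log_le_log (by linarith) (by linarith)
    have b2 : Real.log ((q : ℝ) - Y') ≤ Real.log ((q : ℝ) - Y) :=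
      Real.log_le_log (by linarith) (by linarith)
    have : g Y ≤ g Y' := mul_le_mul_of_nonneg_left (by linarith) hW0
    simp only [κ]
    have := Int.floor_le_floor this
    omega
  have hclose : ∀ Y Y' : ℤ, 0 ≤ Y → Y ≤ Y' → Y' < q → κ Y = κ Y' →
      W * (Y' - Y) < 2 * (Y + 1) ∧ W * (Y' - Y) < 2 * (q - Y') := by
    intro Y Y' h0 h1 h2 h3
    have a0 : (0 : ℝ) ≤ Y := by exact_mod_cast h0
    have a1 : (Y : ℝ) ≤ Y' := by exact_mod_cast h1
    have a2 : (Y' : ℝ) + 1 ≤ q := by exact_mod_cast h2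
    have b1 : Real.log ((Y : ℝ) + 1) ≤ Real.log ((Y' : ℝ) + 1) :=
      Real.log_le_log (by linarith) (by linarith)
    have b2 : Real.log ((q : ℝ) - Y') ≤ Real.log ((q : ℝ) - Y) :=
      Real.log_le_log (by linarith) (by linarith)
    have hf : ⌊g Y⌋ = ⌊g Y'⌋ := by simp only [κ] at h3; omega
    have hd : g Y' - g Y < 1 := by
      have c1 := Int.floor_le (g Y)
      have c2 := Int.lt_floor_add_one (g Y')
      rw [← hf] at c2
      linarith
    simp only [g] at hd
    have e1 := log_close W hWr ((Y : ℝ) + 1) ((Y' : ℝ) + 1) (by linarith) (by linarith)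
      (by nlinarith)
    have e2 := log_close W hWr ((q : ℝ) - Y') ((q : ℝ) - Y) (by linarith) (by linarith)
      (by nlinarith)
    constructor
    · have : (W : ℝ) * ((Y' : ℝ) - Y) < 2 * ((Y : ℝ) + 1) := by linarith
      exact_mod_cast this
    · have : (W : ℝ) * ((Y' : ℝ) - Y) < 2 * ((q : ℝ) - Y') := by linarith
      exact_mod_cast this
  have hm0 : ∀ Z : ℤ, 0 ≤ Z % q := fun Z => Int.emod_nonneg Z hq.ne'
  have hm1 : ∀ Z : ℤ, Z % q < q := fun Z => Int.emod_lt_of_pos Z hq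
  have hB0 : 0 < 2 * B + 1 := by have := hrange 0 le_rfl hq; omega
  have hlow : ∀ Z : ℤ, Z / q * (2 * B + 1) ≤ Z / q * (2 * B + 1) + κ (Z % q) := by
    intro Z
    have := (hrange _ (hm0 Z) (hm1 Z)).1
    linarith
  have hup : ∀ Z : ℤ, Z / q * (2 * B + 1) + κ (Z % q) < (Z / q + 1) * (2 * B + 1) := by
    intro Z
    have := (hrange _ (hm0 Z) (hm1 Z)).2
    linarith
  refine ⟨fun Z => Z / q * (2 * B + 1) + κ (Z % q), ?_, ?_, hlow, hup, ?_⟩
  · intro Z Z' h
    have h1 : Z / q ≤ Z' / q := Int.ediv_le_ediv hq h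
    rcases h1.eq_or_lt with h2 | h2
    · have e1 := Int.emod_add_mul_ediv Z q
      have e2 := Int.emod_add_mul_ediv Z' q
      have h3 : Z % q ≤ Z' % q := by rw [h2] at e1; linarith
      have := hmono _ _ (hm0 Z) h3 (hm1 Z')
      simp only [h2]
      linarith
    · have a1 := hup Z
      have a2 := hlow Z'
      have a3 : (Z / q + 1) * (2 * B + 1) ≤ Z' / q * (2 * B + 1) :=
        mul_le_mul_of_nonneg_right (by omega) hB0.le
      simp only []
      linarith
  · intro Z m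
    simp only [Int.add_mul_emod_self_right, Int.add_mul_ediv_right _ _ hq.ne']
    ring
  · intro Z Z' h
    have hdiv : Z / q = Z' / q := by
      by_contra hne
      rcases lt_or_gt_of_ne hne with h2 | h2
      · have a1 := hup Z
        have a2 := hlow Z'
        have a3 : (Z / q + 1) * (2 * B + 1) ≤ Z' / q * (2 * B + 1) :=
          mul_le_mul_of_nonneg_right (by omega) hB0.le
        linarith
      · have a1 := hup Z'
        have a2 := hlow Z
        have a3 : (Z' / q + 1) * (2 * B + 1) ≤ Z / q * (2 * B + 1) :=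
          mul_le_mul_of_nonneg_right (by omega) hB0.le
        linarith
    have hκ : κ (Z % q) = κ (Z' % q) := by rw [hdiv] at h; linarith
    have e1 := Int.emod_add_mul_ediv Z q
    have e2 := Int.emod_add_mul_ediv Z' q
    have hsub : Z - Z' = Z % q - Z' % q := by rw [hdiv] at e1; linarith
    refine ⟨hdiv, ?_⟩
    rw [hsub]
    rcases le_total (Z % q) (Z' % q) with h3 | h3
    · have := hclose _ _ (hm0 Z) h3 (hm1 Z') hκ
      rw [abs_sub_comm, abs_of_nonneg (sub_nonneg.2 h3)]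
      constructor <;> linarith [this.1, this.2]
    · have := hclose _ _ (hm0 Z') h3 (hm1 Z) hκ.symm
      rw [abs_of_nonneg (sub_nonneg.2 h3)]
      constructor <;> linarith [this.1, this.2]

end Pool.Agent.MP_a31471_co.sx

end MrgPart0

-- ======== part 1: formerly Pool.Agent.MP_a31471_co.sx.Defs
section MrgPart1

/-!
Definitions for the colouring of a product of cyclic groups of prime order.
-/

set_option autoImplicit false

namespace Pool.Agent.MP_a31471_co.sx

open Finset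

/-- Some label is met more than `k / (2 h) + 1` times. -/
def Heavy {V : Type*} [DecidableEq V] (k h : ℕ) (π : Fin k → V) : Prop :=
  ∃ v, k / (2 * h) + 1 < ((univ : Finset (Fin k)).filter (fun i => π i = v)).card

/-- The data of the construction. -/
structure Data where
  k : ℕ
  D : ℕ
  H : ℕ
  Λ : ℕ
  q : Fin D → ℕ
  K : Fin D → ℤ → ℤ
  H_pos : 1 ≤ H
  H_le : 2 * H ≤ k
  Λ_pos : 0 < Λ
  prime : ∀ j, (q j).Prime
  big : ∀ j, k < q j
  inj : Function.Injective q
  mesh : ∀ j, Mesh (q j) (8 * (k : ℤ)) Λ (K j)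

namespace Data

variable (S : Data)

/-- The dilation. -/
def lam : ℕ := (2 * S.H).factorial

/-- The number of cells of one coordinate. -/
def M : ℕ := S.lam * S.Λ

instance : NeZero S.M := ⟨(Nat.mul_pos (Nat.factorial_pos _) S.Λ_pos).ne'⟩

/-- The period. -/
def N : ℕ := ∏ j, S.q j

/-- The label of an integer. -/
def lab (x : ℤ) : Fin S.D → ZMod S.M := fun j => ((S.K j (S.lam * x) : ℤ) : ZMod S.M)

/-- The dilated coordinates. -/
def Y (x : ℤ) (j : Fin S.D) : ℤ := (S.lam * x) % S.q j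

/-- The squared norm of the dilated coordinates. -/
def Q (x : ℤ) : ℤ := ∑ j, S.Y x j ^ 2

/-- The labels along a progression. -/
def pat (a d : ℤ) : Fin S.k → (Fin S.D → ZMod S.M) := fun i => S.lab (a + ((i : ℕ) : ℤ) * d)

open Classical in
/-- The patterns of labels that occur. -/
noncomputable def Pat : Finset (Fin S.k → (Fin S.D → ZMod S.M)) :=
  univ.filter (fun π => ∃ a d : ℤ, π = S.pat a d)

theorem mem_Pat {π : Fin S.k → (Fin S.D → ZMod S.M)} : π ∈ S.Pat ↔ ∃ a d : ℤ, π = S.pat a d := by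
  classical
  simp [Pat]

theorem q_pos (j : Fin S.D) : (0 : ℤ) < S.q j := by exact_mod_cast (S.prime j).pos

theorem lam_pos : (0 : ℤ) < S.lam := by exact_mod_cast Nat.factorial_pos _

theorem K_red (j : Fin S.D) (x : ℤ) :
    S.K j (S.lam * x) = S.K j (S.lam * (x % S.q j)) + (x / S.q j) * S.M := by
  have h := (S.mesh j).shift (S.lam * (x % S.q j)) (S.lam * (x / S.q j))
  have e : (S.lam : ℤ) * (x % S.q j) + S.lam * (x / S.q j) * S.q j = S.lam * x := by
    have := Int.emod_add_mul_ediv x (S.q j)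
    linear_combination (S.lam : ℤ) * this
  rw [e] at h
  rw [h, M]
  push_cast
  ring

/-- The label only depends on the residues. -/
theorem lab_red (x : ℤ) (j : Fin S.D) :
    S.lab x j = ((S.K j (S.lam * (x % S.q j)) : ℤ) : ZMod S.M) := by
  unfold lab
  rw [S.K_red]
  push_cast
  simp

theorem K_range (j : Fin S.D) (X : ℤ) (n : ℕ) (h0 : 0 ≤ X) (h1 : X < n * S.q j) :
    0 ≤ S.K j (S.lam * X) ∧ S.K j (S.lam * X) < n * S.M := by
  have hq := S.q_pos j
  have hl := S.lam_pos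
  have hΛ : (0 : ℤ) < S.Λ := by exact_mod_cast S.Λ_pos
  have a1 := (S.mesh j).lower (S.lam * X)
  have a2 := (S.mesh j).upper (S.lam * X)
  have b1 : 0 ≤ (S.lam * X : ℤ) / S.q j := Int.ediv_nonneg (by positivity) hq.le
  have b2 : (S.lam * X : ℤ) / S.q j < n * S.lam := by
    rw [Int.ediv_lt_iff_lt_mul hq]
    nlinarith
  refine ⟨le_trans (by positivity) a1, lt_of_lt_of_le a2 ?_⟩
  rw [M]
  push_cast
  have : (S.lam * X : ℤ) / S.q j + 1 ≤ n * S.lam := b2
  nlinarith

/-- Equal labels: the values of the mesh at the reduced points agree. -/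
theorem K_eq_of_lab {x x' : ℤ} {j : Fin S.D} (h : S.lab x j = S.lab x' j) :
    S.K j (S.lam * (x % S.q j)) = S.K j (S.lam * (x' % S.q j)) := by
  have hq := S.q_pos j
  rw [S.lab_red, S.lab_red, ZMod.intCast_eq_intCast_iff'] at h
  have a := S.K_range j (x % S.q j) 1 (Int.emod_nonneg _ hq.ne')
    (by simpa using Int.emod_lt_of_pos x hq)
  have b := S.K_range j (x' % S.q j) 1 (Int.emod_nonneg _ hq.ne')
    (by simpa using Int.emod_lt_of_pos x' hq)
  rw [Int.emod_eq_of_lt a.1 (by simpa using a.2), Int.emod_eq_of_lt b.1 (by simpa using b.2)] at h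
  exact h

theorem Y_red (x : ℤ) (j : Fin S.D) : S.Y x j = (S.lam * (x % S.q j)) % S.q j := by
  unfold Y
  simp [Int.mul_emod]

theorem Y_nonneg (x : ℤ) (j : Fin S.D) : 0 ≤ S.Y x j := Int.emod_nonneg _ (S.q_pos j).ne'

theorem Y_lt (x : ℤ) (j : Fin S.D) : S.Y x j < S.q j := Int.emod_lt_of_pos _ (S.q_pos j)

/-- Property (L) of the note. -/
theorem close_of_lab {x x' : ℤ} {j : Fin S.D} (h : S.lab x j = S.lab x' j) :
    S.lam * (x % S.q j - x' % S.q j) = S.Y x j - S.Y x' j ∧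
    8 * (S.k : ℤ) * |S.Y x j - S.Y x' j| < 2 * (S.Y x j + 1) ∧
    8 * (S.k : ℤ) * |S.Y x j - S.Y x' j| < 2 * (S.q j - S.Y x j) := by
  obtain ⟨h1, h2, h3⟩ := (S.mesh j).close _ _ (S.K_eq_of_lab h)
  have e1 := Int.emod_add_mul_ediv (S.lam * (x % S.q j)) (S.q j)
  have e2 := Int.emod_add_mul_ediv (S.lam * (x' % S.q j)) (S.q j)
  rw [← S.Y_red] at e1 e2 h2 h3
  have e : S.lam * (x % S.q j) - S.lam * (x' % S.q j) = S.Y x j - S.Y x' j := by
    rw [h1] at e1; linarith
  rw [e] at h2 h3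
  exact ⟨by linarith, h2, h3⟩

end Data

end Pool.Agent.MP_a31471_co.sx

end MrgPart1

-- ======== part 2: formerly Pool.Agent.MP_a31471_co.sx.Pats
section MrgPart2

/-!
The number of label patterns, in total and through a given label.
-/

set_option autoImplicit false

namespace Pool.Agent.MP_a31471_co.sx

open Finset

theorem card_le_pow_of_coords {D k : ℕ} {β : Type*} [DecidableEq β]
    (R : Finset (Fin k → (Fin D → β))) (C : Fin D → Finset (Fin k → β)) (b : ℕ)
    (hR : ∀ π ∈ R, ∀ j, (fun i => π i j) ∈ C j) (hC : ∀ j, (C j).card ≤ b) :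
    R.card ≤ b ^ D := by
  classical
  have h1 : R.card ≤ (Fintype.piFinset C).card := by
    refine Finset.card_le_card_of_injOn (fun π j i => π i j) (fun π hπ => ?_) ?_
    · exact Finset.mem_coe.2 (Fintype.mem_piFinset.2 (hR π (Finset.mem_coe.1 hπ)))
    · intro π _ π' _ h
      funext i j
      exact congrFun (congrFun h j) i
  refine h1.trans ?_
  rw [Fintype.card_piFinset]
  calc ∏ j, (C j).card ≤ ∏ _j : Fin D, b := Finset.prod_le_prod' (fun j _ => hC j)
    _ = b ^ D := by simp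

/-- Combinatorial part of the structure of a heavy class. -/
theorem heavy_indices {V : Type*} [DecidableEq V] (k h : ℕ) (h1 : 1 ≤ h) (π : Fin k → V)
    (hh : Heavy k h π) : ∃ (i0 i1 i2 i3 : Fin k) (n s : ℕ), 1 ≤ n ∧ n < 2 * h ∧ k < 2 * h * s ∧
      (i1 : ℕ) = i0 + s ∧ (i3 : ℕ) = i2 + n ∧ π i1 = π i0 ∧ π i2 = π i0 ∧ π i3 = π i0 := by
  classical
  obtain ⟨v, hv⟩ := hh
  set I := (univ : Finset (Fin k)).filter (fun i => π i = v) with hI
  have hne : I.Nonempty := Finset.card_pos.1 (lt_of_le_of_lt (Nat.zero_le _) hv)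
  have hmem : ∀ i ∈ I, π i = v := fun i hi => (Finset.mem_filter.1 hi).2
  have h2 : 0 < 2 * h := by omega
  obtain ⟨x, hx, y, hy, hxy, hq⟩ := Finset.exists_ne_map_eq_of_card_lt_of_maps_to
    (s := I) (t := Finset.range (k / (2 * h) + 1)) (by simpa using hv)
    (f := fun i : Fin k => (i : ℕ) / (2 * h)) (fun i _ => by
      simp only [Finset.coe_range, Set.mem_Iio]
      exact Nat.lt_succ_of_le (Nat.div_le_div_right i.2.le))
  have hspan : I.card ≤ (I.max' hne : ℕ) - (I.min' hne : ℕ) + 1 := by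
    have : I.card ≤ (Finset.Icc (I.min' hne : ℕ) (I.max' hne : ℕ)).card := by
      refine Finset.card_le_card_of_injOn (fun i => (i : ℕ)) (fun i hi => ?_)
        (fun _ _ _ _ h => Fin.ext h)
      have hi' := Finset.mem_coe.1 hi
      exact Finset.mem_coe.2 (Finset.mem_Icc.2 ⟨I.min'_le i hi', I.le_max' i hi'⟩)
    rw [Nat.card_Icc] at this
    omega
  have hle : (I.min' hne : ℕ) ≤ (I.max' hne : ℕ) := I.min'_le _ (I.max'_mem hne)
  have hk : k < 2 * h * (k / (2 * h) + 1) := Nat.lt_mul_div_succ k h2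
  have hs : k < 2 * h * ((I.max' hne : ℕ) - (I.min' hne : ℕ)) :=
    lt_of_lt_of_le hk (Nat.mul_le_mul_left _ (by omega))
  have gap : ∀ x y : Fin k, (x : ℕ) < y → (x : ℕ) / (2 * h) = (y : ℕ) / (2 * h) →
      (y : ℕ) - x < 2 * h := by
    intro x y _ e
    have a1 := Nat.div_add_mod (x : ℕ) (2 * h)
    have a2 := Nat.div_add_mod (y : ℕ) (2 * h)
    have a3 := Nat.mod_lt (y : ℕ) h2
    rw [e] at a1
    omega
  have e0 := hmem _ (I.min'_mem hne)
  have e1 := hmem _ (I.max'_mem hne)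
  rcases lt_or_gt_of_ne hxy with hlt | hlt
  · have hlt' : (x : ℕ) < y := hlt
    exact ⟨I.min' hne, I.max' hne, x, y, y - x, _, by omega, gap x y hlt' hq, hs, by omega,
      by omega, by rw [e0, e1], by rw [e0, hmem x hx], by rw [e0, hmem y hy]⟩
  · have hlt' : (y : ℕ) < x := hlt
    exact ⟨I.min' hne, I.max' hne, y, x, x - y, _, by omega, gap y x hlt' hq.symm, hs, by omega,
      by omega, by rw [e0, e1], by rw [e0, hmem y hy], by rw [e0, hmem x hx]⟩

namespace Data

variable (S : Data)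

theorem k_pos1 : 0 < S.k := by have := S.H_pos; have := S.H_le; omega

theorem pat_red (a d : ℤ) (i0 i : Fin S.k) (j : Fin S.D) :
    S.pat a d i j = ((S.K j (S.lam * ((a + ((i0 : ℕ) : ℤ) * d) % S.q j
      + (((i : ℕ) : ℤ) - ((i0 : ℕ) : ℤ)) * (d % S.q j))) : ℤ) : ZMod S.M) := by
  have h1 := S.lab_red ((a + ((i0 : ℕ) : ℤ) * d) % S.q j
      + (((i : ℕ) : ℤ) - ((i0 : ℕ) : ℤ)) * (d % S.q j)) j
  have h2 := S.lab_red (a + ((i : ℕ) : ℤ) * d) j
  have e : ((a + ((i0 : ℕ) : ℤ) * d) % S.q j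
      + (((i : ℕ) : ℤ) - ((i0 : ℕ) : ℤ)) * (d % S.q j)) % S.q j
      = (a + ((i : ℕ) : ℤ) * d) % S.q j := by
    have m1 : (a + ((i0 : ℕ) : ℤ) * d) % S.q j ≡ a + ((i0 : ℕ) : ℤ) * d [ZMOD S.q j] :=
      Int.mod_modEq _ _
    have m2 : d % S.q j ≡ d [ZMOD S.q j] := Int.mod_modEq _ _
    have m3 := m1.add (m2.mul_left (((i : ℕ) : ℤ) - ((i0 : ℕ) : ℤ)))
    have e2 : a + ((i0 : ℕ) : ℤ) * d + (((i : ℕ) : ℤ) - ((i0 : ℕ) : ℤ)) * d
        = a + ((i : ℕ) : ℤ) * d := by ring
    rw [e2] at m3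
    exact m3
  rw [e] at h1
  unfold pat
  rw [h2, ← h1]
  rfl

theorem K_mono (j : Fin S.D) : Monotone (fun X : ℤ => S.K j (S.lam * X)) :=
  fun _ _ h => (S.mesh j).mono (mul_le_mul_of_nonneg_left h S.lam_pos.le)

theorem card_Pat : S.Pat.card ≤ (S.k * (S.k * S.M) + 1) ^ (2 * S.D) := by
  classical
  rw [pow_mul]
  refine card_le_pow_of_coords S.Pat
    (fun j => univ.filter (fun ρ => ∃ a d : ℤ, ρ = fun i => S.pat a d i j)) _ ?_ ?_
  · intro π hπ j
    obtain ⟨a, d, rfl⟩ := S.mem_Pat.1 hπ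
    exact Finset.mem_filter.2 ⟨Finset.mem_univ _, a, d, rfl⟩
  · intro j
    refine card_patterns_le S.k (S.k * S.M) _ (S.K_mono j) (fun i => ((i : ℕ) : ℤ)) (fun _ => 0)
      (fun z => (z : ZMod S.M)) _ ?_
    intro ρ hρ
    obtain ⟨a, d, rfl⟩ := (Finset.mem_filter.1 hρ).2
    have hq := S.q_pos j
    refine ⟨a % S.q j, d % S.q j, fun i => ?_, fun i => ?_⟩
    · have a0 := Int.emod_nonneg a hq.ne'
      have a1 := Int.emod_lt_of_pos a hq
      have d0 := Int.emod_nonneg d hq.ne'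
      have d1 := Int.emod_lt_of_pos d hq
      have hi : ((i : ℕ) : ℤ) + 1 ≤ S.k := by exact_mod_cast i.2
      have hi0 : (0 : ℤ) ≤ ((i : ℕ) : ℤ) := by positivity
      have := S.K_range j (a % S.q j + ((i : ℕ) : ℤ) * (d % S.q j)) S.k (by positivity)
        (by nlinarith)
      simpa using this
    · have := S.pat_red a d ⟨0, S.k_pos1⟩ i j
      simpa using this

/-- Lemma A of the note. -/
theorem heavy_struct1 (h : ℕ) (h1 : 1 ≤ h) (a d : ℤ) (hh : Heavy S.k h (S.pat a d)) :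
    ∃ (n s : ℕ) (i0 i1 : Fin S.k), 1 ≤ n ∧ n < 2 * h ∧ S.k < 2 * h * s ∧ (i1 : ℕ) = i0 + s ∧
      S.pat a d i1 = S.pat a d i0 ∧ ∀ j, ∃ del : ℤ, (S.q j : ℤ) ∣ n * d - del ∧ |del| < S.q j ∧
        s * del = n * ((a + ((i1 : ℕ) : ℤ) * d) % S.q j - (a + ((i0 : ℕ) : ℤ) * d) % S.q j) := by
  obtain ⟨i0, i1, i2, i3, n, s, hn1, hn2, hs, e1, e3, p1, p2, p3⟩ :=
    heavy_indices S.k h h1 _ hh
  refine ⟨n, s, i0, i1, hn1, hn2, hs, e1, p1, fun j => ?_⟩
  have hq := S.q_pos j
  have hl := S.lam_pos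
  set X : Fin S.k → ℤ := fun i => (a + ((i : ℕ) : ℤ) * d) % S.q j with hX
  have hmod : ∀ i, X i ≡ a + ((i : ℕ) : ℤ) * d [ZMOD S.q j] := fun i => Int.mod_modEq _ _
  have small : ∀ i i' : Fin S.k, S.pat a d i = S.pat a d i' →
      4 * (S.k : ℤ) * |X i - X i'| < S.q j := by
    intro i i' h
    obtain ⟨c1, -, c3⟩ := S.close_of_lab (congrFun h j)
    have c4 := S.Y_nonneg (a + ((i : ℕ) : ℤ) * d) j
    rw [← c1, abs_mul, abs_of_pos hl] at c3
    have c5 : 0 ≤ |X i - X i'| := abs_nonneg _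
    have c6 : (0 : ℤ) ≤ S.k := by positivity
    have c7 : (S.k : ℤ) * |X i - X i'| ≤ S.k * (S.lam * |X i - X i'|) :=
      mul_le_mul_of_nonneg_left (by nlinarith) c6
    simp only [hX] at c5 c7 ⊢
    linarith
  have s1 := small i3 i2 (p3.trans p2.symm)
  have s2 := small i1 i0 p1
  have z1 : ((i1 : ℕ) : ℤ) = (i0 : ℕ) + s := by exact_mod_cast e1
  have z3 : ((i3 : ℕ) : ℤ) = (i2 : ℕ) + n := by exact_mod_cast e3
  have m1 : X i3 - X i2 ≡ n * d [ZMOD S.q j] := by
    have := (hmod i3).sub (hmod i2)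
    rw [z3] at this
    convert this using 1
    ring
  have m2 : X i1 - X i0 ≡ s * d [ZMOD S.q j] := by
    have := (hmod i1).sub (hmod i0)
    rw [z1] at this
    convert this using 1
    ring
  have hsk : (s : ℤ) ≤ S.k := by have := i1.2; exact_mod_cast (by omega : s ≤ S.k)
  have hnk : (n : ℤ) ≤ S.k := by have := i3.2; exact_mod_cast (by omega : n ≤ S.k)
  have hk1 : (1 : ℤ) ≤ S.k := by exact_mod_cast S.k_pos1
  have a1 : 0 ≤ |X i3 - X i2| := abs_nonneg _
  have a2 : 0 ≤ |X i1 - X i0| := abs_nonneg _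
  refine ⟨X i3 - X i2, m1.dvd, by nlinarith, ?_⟩
  have m3 : (S.q j : ℤ) ∣ s * (X i3 - X i2) - n * (X i1 - X i0) := by
    have := (m1.mul_left s).sub (m2.mul_left n)
    have e : (s : ℤ) * (n * d) - n * (s * d) = 0 := by ring
    rw [e] at this
    exact (Int.modEq_zero_iff_dvd).1 this
  have m4 : |(s : ℤ) * (X i3 - X i2) - n * (X i1 - X i0)| < S.q j := by
    refine lt_of_le_of_lt (abs_sub _ _) ?_
    rw [abs_mul, abs_mul, abs_of_nonneg (by positivity : (0 : ℤ) ≤ s),
      abs_of_nonneg (by positivity : (0 : ℤ) ≤ n)]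
    nlinarith [mul_le_mul_of_nonneg_right hsk a1, mul_le_mul_of_nonneg_right hnk a2]
  have := Int.eq_zero_of_abs_lt_dvd m3 m4
  simp only [hX] at this ⊢
  linarith

open Classical in
theorem card_Pat_heavy (h : ℕ) (h1 : 1 ≤ h) (h2 : 2 * h ≤ S.k) (i : Fin S.k)
    (l : Fin S.D → ZMod S.M) :
    (S.Pat.filter (fun π => Heavy S.k h π ∧ π i = l)).card
      ≤ 2 * h * ((2 * h + 1) * (S.k * (5 * S.Λ) + 1) ^ 2) ^ S.D := by
  set R := S.Pat.filter (fun π => Heavy S.k h π ∧ π i = l) with hR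
  rcases R.eq_empty_or_nonempty with h0 | ⟨π0, hπ0⟩
  · rw [h0]; simp
  obtain ⟨a0, d0, rfl⟩ := S.mem_Pat.1 (Finset.mem_filter.1 hπ0).1
  have hl0 : S.pat a0 d0 i = l := (Finset.mem_filter.1 hπ0).2.2
  let u0 : Fin S.D → ℤ := fun j => (a0 + ((i : ℕ) : ℤ) * d0) % S.q j
  let C : ℕ → Fin S.D → ℕ → Finset (Fin S.k → ZMod S.M) := fun n j t =>
    univ.filter (fun ρ => ∃ u v : ℤ,
      (∀ i' : Fin S.k, |(n : ℤ) * (S.lam * (u + (((i' : ℕ) : ℤ) - ((i : ℕ) : ℤ)) * v))
        - (n * S.lam * u0 j + (((i' : ℕ) : ℤ) - ((i : ℕ) : ℤ)) * S.lam * t * S.q j)|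
          < 2 * (n * S.q j)) ∧
      ∀ i' : Fin S.k, ρ i' = ((S.K j (S.lam * (u + (((i' : ℕ) : ℤ) - ((i : ℕ) : ℤ)) * v)) : ℤ)
        : ZMod S.M))
  have hC : ∀ n j t, 1 ≤ n → (C n j t).card ≤ (S.k * (5 * S.Λ) + 1) ^ 2 := by
    intro n j t hn
    have hq := S.q_pos j
    have hn' : (0 : ℤ) < n := by exact_mod_cast hn
    have hΛ : (0 : ℤ) < S.Λ := by exact_mod_cast S.Λ_pos
    refine card_patterns_le S.k (5 * S.Λ) _ (S.K_mono j)
      (fun i' => ((i' : ℕ) : ℤ) - ((i : ℕ) : ℤ))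
      (fun i' => ((n * S.lam * u0 j + (((i' : ℕ) : ℤ) - ((i : ℕ) : ℤ)) * S.lam * t * S.q j)
        / (n * S.q j) - 2) * S.Λ) (fun z => (z : ZMod S.M)) _ ?_
    intro ρ hρ
    obtain ⟨u, v, hb, hρ'⟩ := (Finset.mem_filter.1 hρ).2
    refine ⟨u, v, fun i' => ?_, hρ'⟩
    have hb' := abs_lt.1 (hb i')
    generalize (n * S.lam * u0 j + (((i' : ℕ) : ℤ) - ((i : ℕ) : ℤ)) * S.lam * t * S.q j : ℤ) = E
      at hb' ⊢
    generalize (S.lam * (u + (((i' : ℕ) : ℤ) - ((i : ℕ) : ℤ)) * v) : ℤ) = Z at hb' ⊢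
    have hnq : (0 : ℤ) < n * S.q j := by positivity
    have f1 := Int.emod_add_mul_ediv E (n * S.q j)
    have f2 := Int.emod_nonneg E hnq.ne'
    have f3 := Int.emod_lt_of_pos E hnq
    generalize E / (n * S.q j) = f at f1 ⊢
    have g1 : f - 2 ≤ Z / S.q j := by
      rw [Int.le_ediv_iff_mul_le hq]
      have : (n : ℤ) * ((f - 2) * S.q j) < n * Z := by nlinarith
      exact (lt_of_mul_lt_mul_left this hn'.le).le
    have g2 : Z / S.q j < f + 3 := by
      rw [Int.ediv_lt_iff_lt_mul hq]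
      have : (n : ℤ) * Z < n * ((f + 3) * S.q j) := by nlinarith
      exact lt_of_mul_lt_mul_left this hn'.le
    have a1 := (S.mesh j).lower Z
    have a2 := (S.mesh j).upper Z
    have g3 : Z / S.q j + 1 ≤ f + 3 := g2
    constructor
    · nlinarith
    · push_cast
      nlinarith
  let Rn : ℕ → Finset (Fin S.k → (Fin S.D → ZMod S.M)) := fun n =>
    univ.filter (fun π => ∀ j, (fun i' => π i' j) ∈ (Finset.range (2 * h + 1)).biUnion (C n j))
  have hRn : ∀ n, 1 ≤ n → (Rn n).card ≤ ((2 * h + 1) * (S.k * (5 * S.Λ) + 1) ^ 2) ^ S.D := by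
    intro n hn
    refine card_le_pow_of_coords _ (fun j => (Finset.range (2 * h + 1)).biUnion (C n j)) _
      (fun π hπ => (Finset.mem_filter.1 hπ).2) (fun j => ?_)
    refine Finset.card_biUnion_le.trans ?_
    refine (Finset.sum_le_sum (fun t _ => hC n j t hn)).trans ?_
    simp
  have hsub : R ⊆ (Finset.Ico 1 (2 * h)).biUnion Rn := by
    intro π hπ
    obtain ⟨hP, hh, hl⟩ := Finset.mem_filter.1 hπ
    obtain ⟨a, d, rfl⟩ := S.mem_Pat.1 hP
    obtain ⟨n, s, i0, i1, hn1, hn2, hs, e1, p1, hj⟩ := S.heavy_struct1 h h1 a d hh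
    refine Finset.mem_biUnion.2 ⟨n, Finset.mem_Ico.2 ⟨hn1, hn2⟩, ?_⟩
    refine Finset.mem_filter.2 ⟨Finset.mem_univ _, fun j => ?_⟩
    obtain ⟨del, hdvd, hdel, hsd⟩ := hj j
    have hq := S.q_pos j
    have hlam := S.lam_pos
    have hn' : (1 : ℤ) ≤ n := by exact_mod_cast hn1
    have d0' := Int.emod_nonneg d hq.ne'
    have d1' := Int.emod_lt_of_pos d hq
    have hdvd' : (S.q j : ℤ) ∣ n * (d % S.q j) - del := by
      have e := Int.emod_add_mul_ediv d (S.q j)
      have : (n : ℤ) * (d % S.q j) - del = (n * d - del) - S.q j * (n * (d / S.q j)) := by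
        linear_combination (n : ℤ) * e
      rw [this]
      exact dvd_sub hdvd (Dvd.intro _ rfl)
    obtain ⟨t, ht⟩ := hdvd'
    have hdel' := abs_lt.1 hdel
    have t0 : 0 ≤ t := by
      by_contra hneg
      have : t ≤ -1 := by omega
      nlinarith
    have t1 : t ≤ n := by
      by_contra hneg
      have : (n : ℤ) + 1 ≤ t := by omega
      nlinarith
    obtain ⟨t, rfl⟩ := Int.eq_ofNat_of_zero_le t0
    have t2 : t ≤ n := by exact_mod_cast t1
    refine Finset.mem_biUnion.2 ⟨t, Finset.mem_range.2 (by omega), ?_⟩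
    refine Finset.mem_filter.2 ⟨Finset.mem_univ _, (a + ((i : ℕ) : ℤ) * d) % S.q j, d % S.q j,
      fun i' => ?_, fun i' => S.pat_red a d i i' j⟩
    obtain ⟨c1, -, c3⟩ := S.close_of_lab (congrFun (hl.trans hl0.symm) j)
    obtain ⟨b1, -, b3⟩ := S.close_of_lab (congrFun p1 j)
    have c4 := S.Y_nonneg (a + ((i : ℕ) : ℤ) * d) j
    have b4 := S.Y_nonneg (a + ((i1 : ℕ) : ℤ) * d) j
    rw [← c1] at c3
    rw [← b1] at b3
    have hk1 : (1 : ℤ) ≤ S.k := by exact_mod_cast S.k_pos1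
    have hs' : (S.k : ℤ) < 2 * h * s := by exact_mod_cast hs
    have hh' : (2 : ℤ) * h ≤ S.k := by exact_mod_cast h2
    have hci : |((i' : ℕ) : ℤ) - ((i : ℕ) : ℤ)| ≤ S.k := by
      have x1 : ((i' : ℕ) : ℤ) < S.k := by exact_mod_cast i'.2
      have x2 : ((i : ℕ) : ℤ) < S.k := by exact_mod_cast i.2
      have x3 : (0 : ℤ) ≤ ((i' : ℕ) : ℤ) := by positivity
      have x4 : (0 : ℤ) ≤ ((i : ℕ) : ℤ) := by positivity
      rw [abs_le]; constructor <;> linarith
    simp only [u0]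
    generalize (a + ((i : ℕ) : ℤ) * d) % S.q j = u at c3 ⊢
    generalize (a0 + ((i : ℕ) : ℤ) * d0) % S.q j = w at c3 ⊢
    generalize (a + ((i1 : ℕ) : ℤ) * d) % S.q j - (a + ((i0 : ℕ) : ℤ) * d) % S.q j = Del
      at b3 hsd
    generalize ((i' : ℕ) : ℤ) - ((i : ℕ) : ℤ) = c at hci ⊢
    have e : (n : ℤ) * (S.lam * (u + c * (d % S.q j))) - (n * S.lam * w + c * S.lam * t * S.q j)
        = n * (S.lam * (u - w)) + c * (S.lam * del) := by
      linear_combination c * (S.lam : ℤ) * ht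
    rw [e]
    have y1 : |(S.lam : ℤ) * (u - w)| < S.q j := by
      have := abs_nonneg ((S.lam : ℤ) * (u - w))
      nlinarith
    have y2 : (s : ℤ) * |S.lam * del| = n * |S.lam * Del| := by
      have : (s : ℤ) * (S.lam * del) = n * (S.lam * Del) := by linear_combination (S.lam : ℤ) * hsd
      have h' := congrArg abs this
      rwa [abs_mul (s : ℤ), abs_mul (n : ℤ), abs_of_nonneg (by positivity : (0 : ℤ) ≤ s),
        abs_of_nonneg (by positivity : (0 : ℤ) ≤ n)] at h'
    have y3 : (S.k : ℤ) * |S.lam * del| ≤ n * S.q j := by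
      have z1 := abs_nonneg ((S.lam : ℤ) * del)
      have z2 := abs_nonneg ((S.lam : ℤ) * Del)
      have z3 : (S.k : ℤ) * |S.lam * del| ≤ 2 * h * s * |S.lam * del| :=
        mul_le_mul_of_nonneg_right hs'.le z1
      have z4 : (2 : ℤ) * h * s * |S.lam * del| = n * (2 * h * |S.lam * Del|) := by
        linear_combination (2 * h : ℤ) * y2
      have z5 : (2 : ℤ) * h * |S.lam * Del| ≤ S.q j := by
        have := mul_le_mul_of_nonneg_right hh' z2
        nlinarith
      have z6 := mul_le_mul_of_nonneg_left z5 (by positivity : (0 : ℤ) ≤ n)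
      linarith
    refine lt_of_le_of_lt (abs_add_le _ _) ?_
    rw [abs_mul (n : ℤ), abs_mul c, abs_of_nonneg (by positivity : (0 : ℤ) ≤ n)]
    have y4 := mul_le_mul_of_nonneg_right hci (abs_nonneg ((S.lam : ℤ) * del))
    have y5 : (n : ℤ) * |S.lam * (u - w)| < n * S.q j := mul_lt_mul_of_pos_left y1 (by linarith)
    linarith
  refine (Finset.card_le_card hsub).trans (Finset.card_biUnion_le.trans ?_)
  refine (Finset.sum_le_sum (fun n hn => hRn n (Finset.mem_Ico.1 hn).1)).trans ?_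
  simp only [Finset.sum_const, Nat.card_Ico, smul_eq_mul]
  exact Nat.mul_le_mul_right _ (by omega)

end Data

end Pool.Agent.MP_a31471_co.sx

end MrgPart2

-- ======== part 3: formerly Pool.Agent.MP_a31471_co.sx.Struct
section MrgPart3

/-!
Structure of progressions with a large class, and the multiplicity of keys.
-/

set_option autoImplicit false

namespace Pool.Agent.MP_a31471_co.sx

open Finset

namespace Data

variable (S : Data)

theorem kpos_st : 0 < S.k := by
  have h1 := S.H_pos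
  have h2 := S.H_le
  omega

/-- Equal labels give close dilated coordinates. -/
theorem abs_Y_lt {x x' : ℤ} {j : Fin S.D} (h : S.lab x j = S.lab x' j) :
    4 * (S.k : ℤ) * |S.Y x j - S.Y x' j| < S.q j := by
  obtain ⟨-, -, h3⟩ := S.close_of_lab h
  have := S.Y_nonneg x j
  linarith

/-- Equal labels give close residues. -/
theorem abs_X_lt {x x' : ℤ} {j : Fin S.D} (h : S.lab x j = S.lab x' j) :
    4 * (S.k : ℤ) * |x % S.q j - x' % S.q j| < S.q j := by
  have h1 := (S.close_of_lab h).1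
  have h2 := S.abs_Y_lt h
  rw [← h1, abs_mul, abs_of_pos S.lam_pos] at h2
  have h3 : (1 : ℤ) ≤ S.lam := S.lam_pos
  have h4 : (0 : ℤ) ≤ |x % S.q j - x' % S.q j| := abs_nonneg _
  have h5 : (0 : ℤ) ≤ S.k := Int.natCast_nonneg _
  have h6 : |x % S.q j - x' % S.q j| ≤ S.lam * |x % S.q j - x' % S.q j| := by nlinarith
  nlinarith

theorem eq_of_small {q k u v A B : ℤ} (hd : q ∣ u * A - v * B) (hu0 : 0 ≤ u) (hu : u ≤ k)
    (hv0 : 0 ≤ v) (hv : v ≤ k) (hA : 4 * k * |A| < q) (hB : 4 * k * |B| < q) :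
    u * A = v * B := by
  have h0 : u * A - v * B = 0 := by
    refine Int.eq_zero_of_abs_lt_dvd hd ?_
    have h1 : |u * A - v * B| ≤ |u * A| + |v * B| := abs_sub _ _
    rw [abs_mul, abs_mul, abs_of_nonneg hu0, abs_of_nonneg hv0] at h1
    have h2 : u * |A| ≤ k * |A| := mul_le_mul_of_nonneg_right hu (abs_nonneg _)
    have h3 : v * |B| ≤ k * |B| := mul_le_mul_of_nonneg_right hv (abs_nonneg _)
    have h4 : 0 ≤ k * |A| := mul_nonneg (hu0.trans hu) (abs_nonneg _)
    linarith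
  linarith

theorem dvd_sub_emod (q x : ℤ) : q ∣ x - x % q := Int.dvd_self_sub_emod

theorem dvd_of_eq {q x y : ℤ} (h : q ∣ x) (e : y = x) : q ∣ y := e ▸ h

/-- Lemma A of the note. -/
theorem heavy_struct_st (h : ℕ) (h1 : 1 ≤ h) (h2 : 2 * h ≤ S.k) (a d : ℤ)
    (hh : Heavy S.k h (S.pat a d)) :
    ∃ (n s : ℕ) (i0 i1 : Fin S.k), 1 ≤ n ∧ n < 2 * h ∧ S.k < 2 * h * s ∧
      (i1 : ℕ) = (i0 : ℕ) + s ∧ S.pat a d i1 = S.pat a d i0 ∧
      ∀ j, ∃ del : ℤ, (S.q j : ℤ) ∣ (n : ℤ) * d - del ∧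
        (s : ℤ) * del = (n : ℤ) * ((a + ((i1 : ℕ) : ℤ) * d) % S.q j
          - (a + ((i0 : ℕ) : ℤ) * d) % S.q j) := by
  obtain ⟨v, hv⟩ := hh
  set I := (univ : Finset (Fin S.k)).filter (fun i => S.pat a d i = v) with hI
  have hmem : ∀ i, i ∈ I ↔ S.pat a d i = v := fun i => by simp [hI]
  have hne : I.Nonempty := card_pos.1 (lt_of_le_of_lt (Nat.zero_le _) hv)
  have h2h : 0 < 2 * h := by omega
  -- two elements in the same block
  have hpig : ∃ i ∈ I, ∃ i' ∈ I, i ≠ i' ∧ (i : ℕ) / (2 * h) = (i' : ℕ) / (2 * h) := by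
    refine exists_ne_map_eq_of_card_lt_of_maps_to (t := range (S.k / (2 * h) + 1))
      (f := fun i : Fin S.k => (i : ℕ) / (2 * h)) (by rw [card_range]; exact hv) ?_
    intro i _
    have : (i : ℕ) / (2 * h) ≤ S.k / (2 * h) := Nat.div_le_div_right i.2.le
    simpa using Nat.lt_succ_of_le this
  have hpair : ∃ i ∈ I, ∃ i' ∈ I, (i : ℕ) < i' ∧ (i' : ℕ) - i < 2 * h := by
    obtain ⟨i, hi, i', hi', hne', he⟩ := hpig
    have e1 := Nat.div_add_mod (i : ℕ) (2 * h)
    have e2 := Nat.div_add_mod (i' : ℕ) (2 * h)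
    have m1 := Nat.mod_lt (i : ℕ) h2h
    have m2 := Nat.mod_lt (i' : ℕ) h2h
    rw [he] at e1
    have hn : (i : ℕ) ≠ i' := fun e => hne' (Fin.ext e)
    rcases Nat.lt_or_gt_of_ne hn with hlt | hlt
    · exact ⟨i, hi, i', hi', hlt, by omega⟩
    · exact ⟨i', hi', i, hi, hlt, by omega⟩
  obtain ⟨i, hi, i', hi', hlt, hn⟩ := hpair
  have hle : I.min' hne ≤ I.max' hne := min'_le_max' _ _
  have hle' : ((I.min' hne : Fin S.k) : ℕ) ≤ (I.max' hne : Fin S.k) := hle
  have hcard : I.card ≤ ((I.max' hne : Fin S.k) : ℕ) + 1 - (I.min' hne : Fin S.k) := by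
    rw [← Fin.card_Icc]
    exact card_le_card fun x hx => mem_Icc.2 ⟨min'_le _ _ hx, le_max' _ _ hx⟩
  have p0 := (hmem _).1 (min'_mem I hne)
  have p1 := (hmem _).1 (max'_mem I hne)
  generalize I.min' hne = i0 at *
  generalize I.max' hne = i1 at *
  refine ⟨(i' : ℕ) - i, (i1 : ℕ) - i0, i0, i1, by omega, hn, ?_, by omega, p1.trans p0.symm, ?_⟩
  · have e1 := Nat.div_add_mod S.k (2 * h)
    have m1 := Nat.mod_lt S.k h2h
    have h3 : S.k / (2 * h) + 1 ≤ (i1 : ℕ) - i0 := by omega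
    have h4 := Nat.mul_le_mul_left (2 * h) h3
    rw [Nat.mul_add, Nat.mul_one] at h4
    omega
  · intro j
    have l1 : S.lab (a + ((i' : ℕ) : ℤ) * d) j = S.lab (a + ((i : ℕ) : ℤ) * d) j :=
      congrFun (((hmem _).1 hi').trans ((hmem _).1 hi).symm) j
    have l2 : S.lab (a + ((i1 : ℕ) : ℤ) * d) j = S.lab (a + ((i0 : ℕ) : ℤ) * d) j :=
      congrFun (p1.trans p0.symm) j
    have c1 : (((i' : ℕ) - i : ℕ) : ℤ) = ((i' : ℕ) : ℤ) - (i : ℕ) := by omega
    have c2 : (((i1 : ℕ) - i0 : ℕ) : ℤ) = ((i1 : ℕ) : ℤ) - (i0 : ℕ) := by omega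
    have d1 := dvd_sub_emod (S.q j) (a + ((i' : ℕ) : ℤ) * d)
    have d2 := dvd_sub_emod (S.q j) (a + ((i : ℕ) : ℤ) * d)
    have d3 := dvd_sub_emod (S.q j) (a + ((i1 : ℕ) : ℤ) * d)
    have d4 := dvd_sub_emod (S.q j) (a + ((i0 : ℕ) : ℤ) * d)
    have hk1 := i'.2
    have hk2 := i1.2
    refine ⟨(a + ((i' : ℕ) : ℤ) * d) % S.q j - (a + ((i : ℕ) : ℤ) * d) % S.q j, ?_, ?_⟩
    · rw [c1]
      have := dvd_sub d1 d2
      exact dvd_of_eq this (by ring)
    · refine eq_of_small (q := S.q j) (k := S.k) ?_ (Int.natCast_nonneg _) (by omega)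
        (Int.natCast_nonneg _) (by omega) (S.abs_X_lt l1) (S.abs_X_lt l2)
      rw [c1, c2]
      have := dvd_sub (Dvd.dvd.mul_left (dvd_sub d3 d4) (((i' : ℕ) : ℤ) - (i : ℕ)))
        (Dvd.dvd.mul_left (dvd_sub d1 d2) (((i1 : ℕ) : ℤ) - (i0 : ℕ)))
      exact dvd_of_eq this (by ring)

/-- Lemma B of the note. -/
theorem heavy_affine (a d : ℤ) (h : Heavy S.k S.H (S.pat a d)) :
    ∃ V : Fin S.D → ℤ, ∀ i : Fin S.k, ∀ j,
      S.Y (a + ((i : ℕ) : ℤ) * d) j = S.Y a j + ((i : ℕ) : ℤ) * V j := by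
  obtain ⟨n, s, i0, i1, hn1, hn2, hks, hi1, hp, hdel⟩ := S.heavy_struct_st S.H S.H_pos S.H_le a d h
  obtain ⟨m, hm⟩ : n ∣ S.lam := Nat.dvd_factorial hn1 hn2.le
  have hm' : (S.lam : ℤ) = (n : ℤ) * m := by exact_mod_cast hm
  choose del hd1 hd2 using hdel
  have key : ∀ j, ∀ i : Fin S.k, S.Y (a + ((i : ℕ) : ℤ) * d) j
      = S.Y (a + ((i0 : ℕ) : ℤ) * d) j + (((i : ℕ) : ℤ) - (i0 : ℕ)) * ((m : ℤ) * del j) := by
    intro j i
    have l2 : S.lab (a + ((i0 : ℕ) : ℤ) * d) j = S.lab (a + ((i1 : ℕ) : ℤ) * d) j :=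
      congrFun hp.symm j
    obtain ⟨c1, c2, c3⟩ := S.close_of_lab l2
    have e : S.Y (a + ((i0 : ℕ) : ℤ) * d) j - S.Y (a + ((i1 : ℕ) : ℤ) * d) j
        = -((s : ℤ) * ((m : ℤ) * del j)) := by
      rw [← c1, hm']
      linear_combination (m : ℤ) * hd2 j
    rw [e, abs_neg, abs_mul, abs_of_nonneg (Int.natCast_nonneg s)] at c2 c3
    set W := |(m : ℤ) * del j| with hW
    have hW0 : 0 ≤ W := abs_nonneg _
    have hk : (S.k : ℤ) ≤ S.k * s := by
      have h3 : 2 * S.H * s ≤ S.k * s := Nat.mul_le_mul_right s S.H_le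
      have h4 : S.k ≤ S.k * s := by omega
      exact_mod_cast h4
    have hi : |((i : ℕ) : ℤ) - (i0 : ℕ)| ≤ S.k := by
      have := i.2
      have := i0.2
      rw [abs_le]
      constructor <;> omega
    have hb : |(((i : ℕ) : ℤ) - (i0 : ℕ)) * ((m : ℤ) * del j)| ≤ S.k * (s * W) := by
      rw [abs_mul, ← hW]
      have h3 : |((i : ℕ) : ℤ) - (i0 : ℕ)| * W ≤ (S.k * s) * W :=
        mul_le_mul_of_nonneg_right (hi.trans hk) hW0
      linarith
    have hnn : 0 ≤ (S.k : ℤ) * (s * W) := by positivity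
    obtain ⟨hb1, hb2⟩ := abs_le.1 hb
    have hdv : (S.q j : ℤ) ∣ S.lam * (a + ((i : ℕ) : ℤ) * d)
        - (S.Y (a + ((i0 : ℕ) : ℤ) * d) j + (((i : ℕ) : ℤ) - (i0 : ℕ)) * ((m : ℤ) * del j)) := by
      have d1 := dvd_sub_emod (S.q j) (S.lam * (a + ((i0 : ℕ) : ℤ) * d))
      have d2 := Dvd.dvd.mul_left (hd1 j) ((((i : ℕ) : ℤ) - (i0 : ℕ)) * m)
      have := dvd_add d1 d2
      refine dvd_of_eq this ?_
      unfold Y
      rw [hm']
      ring
    have hmod := (Int.emod_emod_of_dvd _ (dvd_refl (S.q j : ℤ))).symm.trans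
      (congrArg (fun t => t % (S.q j : ℤ)) ((Int.modEq_iff_dvd.2 hdv).symm))
    rw [Int.emod_emod_of_dvd _ (dvd_refl _), Int.emod_eq_of_lt (a := _ + _) (by linarith)
      (by linarith)] at hmod
    exact hmod
  refine ⟨fun j => (m : ℤ) * del j, fun i j => ?_⟩
  have k0 := key j ⟨0, S.kpos_st⟩
  have k1 := key j i
  simp only [Nat.cast_zero, zero_mul, add_zero, zero_sub] at k0
  rw [k1, k0]
  ring

theorem q_dvd_of_Y_eq {a d : ℤ} {j : Fin S.D} {i i' : ℕ} (hlt : i < i') (hk : i' < S.k)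
    (h : S.Y (a + (i : ℤ) * d) j = S.Y (a + (i' : ℤ) * d) j) : (S.q j : ℤ) ∣ d := by
  have hp : Prime (S.q j : ℤ) := Nat.prime_iff_prime_int.1 (S.prime j)
  have hb := S.big j
  have h1 : (S.q j : ℤ) ∣ S.lam * (((i' - i : ℕ) : ℤ) * d) := by
    have h2 : (S.q j : ℤ) ∣ S.lam * (a + (i' : ℤ) * d) - S.lam * (a + (i : ℤ) * d) :=
      Int.modEq_iff_dvd.1 h
    have c1 : ((i' - i : ℕ) : ℤ) = (i' : ℤ) - i := by omega
    rw [c1]
    exact dvd_of_eq h2 (by ring)
  rcases hp.dvd_or_dvd h1 with h2 | h2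
  · have h3 : S.q j ∣ (2 * S.H).factorial := Int.natCast_dvd_natCast.1 h2
    have h4 := (S.prime j).dvd_factorial.1 h3
    have h5 := S.H_le
    omega
  · rcases hp.dvd_or_dvd h2 with h3 | h3
    · have h4 := Nat.le_of_dvd (by omega) (Int.natCast_dvd_natCast.1 h3)
      omega
    · exact h3

theorem N_dvd {d : ℤ} (h : ∀ j, (S.q j : ℤ) ∣ d) : (S.N : ℤ) ∣ d := by
  unfold N
  push_cast
  refine Finset.prod_dvd_of_coprime ?_ fun j _ => h j
  intro j _ j' _ hne
  exact Nat.isCoprime_iff_coprime.2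
    ((Nat.coprime_primes (S.prime j) (S.prime j')).2 fun e => hne (S.inj e))

/-- Three positions with the same key force the period to divide the difference. -/
theorem three_keys (a d : ℤ) {i1 i2 i3 : Fin S.k} (h12 : i1 < i2) (h23 : i2 < i3)
    (p2 : S.pat a d i2 = S.pat a d i1) (p3 : S.pat a d i3 = S.pat a d i1)
    (q2 : S.Q (a + ((i2 : ℕ) : ℤ) * d) = S.Q (a + ((i1 : ℕ) : ℤ) * d))
    (q3 : S.Q (a + ((i3 : ℕ) : ℤ) * d) = S.Q (a + ((i1 : ℕ) : ℤ) * d)) : (S.N : ℤ) ∣ d := by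
  have h12' : (i1 : ℕ) < i2 := h12
  have h23' : (i2 : ℕ) < i3 := h23
  have hk3 := i3.2
  set al : ℤ := ((i2 : ℕ) : ℤ) - (i1 : ℕ) with hal
  set be : ℤ := ((i3 : ℕ) : ℤ) - (i1 : ℕ) with hbe
  have hal0 : 0 < al := by omega
  have hab : al < be := by omega
  have lin : ∀ j, be * (S.Y (a + ((i2 : ℕ) : ℤ) * d) j - S.Y (a + ((i1 : ℕ) : ℤ) * d) j)
      = al * (S.Y (a + ((i3 : ℕ) : ℤ) * d) j - S.Y (a + ((i1 : ℕ) : ℤ) * d) j) := by
    intro j
    refine eq_of_small (q := S.q j) (k := S.k) ?_ (by omega) (by omega) (by omega) (by omega)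
      (S.abs_Y_lt (congrFun p2 j)) (S.abs_Y_lt (congrFun p3 j))
    have d1 := dvd_sub_emod (S.q j) (S.lam * (a + ((i1 : ℕ) : ℤ) * d))
    have d2 := dvd_sub_emod (S.q j) (S.lam * (a + ((i2 : ℕ) : ℤ) * d))
    have d3 := dvd_sub_emod (S.q j) (S.lam * (a + ((i3 : ℕ) : ℤ) * d))
    have := dvd_sub (Dvd.dvd.mul_left (dvd_sub d3 d1) al) (Dvd.dvd.mul_left (dvd_sub d2 d1) be)
    refine dvd_of_eq this ?_
    unfold Y
    rw [hal, hbe]
    ring
  have hsum : al * (be - al) * ∑ j, (S.Y (a + ((i3 : ℕ) : ℤ) * d) j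
      - S.Y (a + ((i1 : ℕ) : ℤ) * d) j) ^ 2 = 0 := by
    have e : ∀ j, al * (be - al) * (S.Y (a + ((i3 : ℕ) : ℤ) * d) j
        - S.Y (a + ((i1 : ℕ) : ℤ) * d) j) ^ 2
        = be * (be - al) * S.Y (a + ((i1 : ℕ) : ℤ) * d) j ^ 2
          + be * al * S.Y (a + ((i3 : ℕ) : ℤ) * d) j ^ 2
          - be ^ 2 * S.Y (a + ((i2 : ℕ) : ℤ) * d) j ^ 2 := by
      intro j
      have l := lin j
      generalize S.Y (a + ((i1 : ℕ) : ℤ) * d) j = y1 at *
      generalize S.Y (a + ((i2 : ℕ) : ℤ) * d) j = y2 at *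
      generalize S.Y (a + ((i3 : ℕ) : ℤ) * d) j = y3 at *
      linear_combination (be * y2 + (be - al) * y1 + al * y3) * l
    rw [mul_sum, sum_congr rfl fun j _ => e j, sum_sub_distrib, sum_add_distrib, ← mul_sum,
      ← mul_sum, ← mul_sum]
    unfold Q at q2 q3
    rw [q2, q3]
    ring
  have hpos : al * (be - al) ≠ 0 := (mul_pos hal0 (by linarith)).ne'
  have hz := (mul_eq_zero.1 hsum).resolve_left hpos
  rw [sum_eq_zero_iff_of_nonneg fun j _ => sq_nonneg _] at hz
  refine S.N_dvd fun j => ?_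
  have h0 := pow_eq_zero_iff (two_ne_zero) |>.1 (hz j (mem_univ j))
  exact S.q_dvd_of_Y_eq (a := a) (lt_trans h12' h23') hk3 (by linarith)

open Classical in
/-- Lemma C of the note. -/
theorem key_mult (a d : ℤ) (hd : ¬ (S.N : ℤ) ∣ d) (l : Fin S.D → ZMod S.M) (z : ℤ) :
    ((univ : Finset (Fin S.k)).filter
      (fun i => S.pat a d i = l ∧ S.Q (a + ((i : ℕ) : ℤ) * d) = z)).card ≤ 2 := by
  by_contra hc
  obtain ⟨x, y, w, hx, hy, hw, hxy, hxw, hyw⟩ := two_lt_card_iff.1 (not_le.1 hc)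
  obtain ⟨-, px, qx⟩ := mem_filter.1 hx
  obtain ⟨-, py, qy⟩ := mem_filter.1 hy
  obtain ⟨-, pw, qw⟩ := mem_filter.1 hw
  have T : ∀ i1 i2 i3 : Fin S.k, i1 < i2 → i2 < i3 →
      S.pat a d i1 = l → S.Q (a + ((i1 : ℕ) : ℤ) * d) = z →
      S.pat a d i2 = l → S.Q (a + ((i2 : ℕ) : ℤ) * d) = z →
      S.pat a d i3 = l → S.Q (a + ((i3 : ℕ) : ℤ) * d) = z → False :=
    fun i1 i2 i3 h1 h2 p1 q1 p2 q2 p3 q3 => hd (S.three_keys a d h1 h2 (p2.trans p1.symm)
      (p3.trans p1.symm) (q2.trans q1.symm) (q3.trans q1.symm))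
  rcases lt_or_gt_of_ne hxy with h1 | h1 <;> rcases lt_or_gt_of_ne hxw with h2 | h2 <;>
    rcases lt_or_gt_of_ne hyw with h3 | h3
  · exact T x y w h1 h3 px qx py qy pw qw
  · exact T x w y h2 h3 px qx pw qw py qy
  · exact absurd (lt_trans (lt_trans h1 h3) h2) (lt_irrefl _)
  · exact T w x y h2 h1 pw qw px qx py qy
  · exact T y x w h1 h2 py qy px qx pw qw
  · exact absurd (lt_trans (lt_trans h1 h2) h3) (lt_irrefl _)
  · exact T y w x h3 h2 py qy pw qw px qx
  · exact T w y x h3 h1 pw qw py qy px qx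

end Data

end Pool.Agent.MP_a31471_co.sx

end MrgPart3

-- ======== part 4: formerly Pool.Agent.MP_a31471_co.big.Stage1
section MrgPart4

/-! A weighted local lemma, a tail bound for weighted signs, and balanced colourings of labels. -/

namespace Pool.Agent.MP_a31471_co.Big

open Finset

section LLL
variable {V K : Type*} [Fintype V] [DecidableEq V] [Fintype K]

/-- The property `P` of colourings depends only on the coordinates in `s`. -/
def DepOn (s : Finset V) (P : (V → K) → Prop) : Prop :=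
  ∀ f g : V → K, (∀ v ∈ s, f v = g v) → P f → P g

lemma card_inter_mul (s : Finset V) (P Q : (V → K) → Prop) [DecidablePred P] [DecidablePred Q]
    (hP : DepOn s P) (hQ : DepOn sᶜ Q) :
    (univ.filter fun f => P f ∧ Q f).card * Fintype.card (V → K)
      = (univ.filter P).card * (univ.filter Q).card := by
  rw [← Finset.card_univ, ← Finset.card_product, ← Finset.card_product]
  refine Finset.card_nbij' (fun x => (s.piecewise x.1 x.2, s.piecewise x.2 x.1))
    (fun x => (s.piecewise x.1 x.2, s.piecewise x.2 x.1)) ?_ ?_ ?_ ?_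
  · rintro ⟨f, g⟩ h
    simp only [coe_product, coe_filter, mem_univ, true_and, Set.mem_prod, Set.mem_ofPred_eq,
      coe_univ, Set.mem_univ, and_true] at h ⊢
    refine ⟨hP f _ (fun v hv => by simp [hv]) h.1, hQ f _ (fun v hv => ?_) h.2⟩
    have : v ∉ s := by simpa using hv
    simp [this]
  · rintro ⟨f, g⟩ h
    simp only [coe_product, coe_filter, mem_univ, true_and, Set.mem_prod, Set.mem_ofPred_eq,
      coe_univ, Set.mem_univ, and_true] at h ⊢
    refine ⟨hP f _ (fun v hv => by simp [hv]) h.1, hQ g _ (fun v hv => ?_) h.2⟩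
    have : v ∉ s := by simpa using hv
    simp [this]
  · rintro ⟨f, g⟩ _
    ext v <;> by_cases hv : v ∈ s <;> simp [hv]
  · rintro ⟨f, g⟩ _
    ext v <;> by_cases hv : v ∈ s <;> simp [hv]

/-- The local lemma with the weights summed over the events that contain a given variable. -/
theorem lll [Nonempty K] {ι : Type*} [Fintype ι] (e : ι → Finset V)
    (Bad : ι → (V → K) → Prop) [∀ i, DecidablePred (Bad i)] (N : ℕ) (p : ι → ℝ)
    (hN : 0 < N) (hcard : ∀ i, (e i).card ≤ N) (hne : ∀ i, (e i).Nonempty)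
    (hdep : ∀ i, DepOn (e i) (Bad i))
    (hprob : ∀ i, ((univ.filter (Bad i)).card : ℝ) ≤ p i * Fintype.card (V → K))
    (hp : ∀ i, 0 ≤ p i) (hdeg : ∀ v, ∑ i, (if v ∈ e i then p i else 0) ≤ 1 / (4 * N)) :
    ∃ f : V → K, ∀ i, ¬ Bad i f := by
  classical
  set G : Finset V → Finset (V → K) :=
    fun S => univ.filter fun f => ∀ i, e i ⊆ S → ¬ Bad i f with hG
  set β : ℝ := 1 - 1 / (2 * N) with hβ
  have hNr : (1 : ℝ) ≤ N := by exact_mod_cast hN
  have hβ0 : 0 < β := by
    have : 1 / (2 * (N : ℝ)) ≤ 1 / 2 := by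
      apply one_div_le_one_div_of_le <;> linarith
    linarith
  have hβ1 : β ≤ 1 := by
    have : 0 ≤ 1 / (2 * (N : ℝ)) := by positivity
    linarith
  have hβN : 1 / 2 ≤ β ^ N := by
    have h := one_add_mul_le_pow (a := -(1 / (2 * (N : ℝ)))) (by
      have : 1 / (2 * (N : ℝ)) ≤ 1 / 2 := by
        apply one_div_le_one_div_of_le <;> linarith
      linarith) N
    have h2 : (1 : ℝ) + N * -(1 / (2 * (N : ℝ))) = 1 / 2 := by
      field_simp; ring
    rw [h2] at h
    simpa [hβ, sub_eq_add_neg] using h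
  have chain : ∀ n : ℕ,
      (∀ S : Finset V, S.card < n → ∀ v ∉ S, β * (G S).card ≤ (G (insert v S)).card) →
      ∀ S : Finset V, S.card ≤ n → ∀ T : Finset V, T ⊆ S →
        β ^ T.card * (G (S \ T)).card ≤ (G S).card := by
    intro n H S hS T
    induction T using Finset.induction_on with
    | empty => intro _; simp
    | insert t T ht ih =>
      intro hT
      have htS : t ∈ S := hT (mem_insert_self _ _)
      have hTS : T ⊆ S := (subset_insert _ _).trans hT
      have h1 : S \ T = insert t (S \ insert t T) := by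
        ext x
        simp only [mem_sdiff, mem_insert, not_or]
        constructor
        · rintro ⟨h1, h2⟩
          by_cases hx : x = t
          · exact Or.inl hx
          · exact Or.inr ⟨h1, hx, h2⟩
        · rintro (rfl | ⟨h1, _, h3⟩)
          · exact ⟨htS, ht⟩
          · exact ⟨h1, h3⟩
      have h2 : (S \ insert t T).card < n := by
        have : (S \ insert t T) ⊂ S := by
          refine ⟨sdiff_subset, fun h => ?_⟩
          have := h htS
          simp at this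
        exact lt_of_lt_of_le (card_lt_card this) hS
      have h3 := H _ h2 t (by simp)
      rw [← h1] at h3
      have h4 := ih hTS
      rw [card_insert_of_notMem ht, pow_succ, mul_assoc]
      exact le_trans (mul_le_mul_of_nonneg_left h3 (by positivity)) h4
  have step : ∀ n : ℕ, ∀ S : Finset V, S.card = n → ∀ v ∉ S,
      β * (G S).card ≤ (G (insert v S)).card := by
    intro n
    induction n using Nat.strong_induction_on with
    | _ n ih =>
      intro S hS v hv
      have hch := chain n (fun S' hS' => ih _ hS' S' rfl) S hS.le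
      set I : Finset ι := univ.filter fun i => v ∈ e i ∧ e i ⊆ insert v S with hI
      set B : ι → Finset (V → K) := fun i =>
        univ.filter fun f => Bad i f ∧ ∀ j, e j ⊆ S \ (e i).erase v → ¬ Bad j f with hB
      have hsub : G S ⊆ G (insert v S) ∪ I.biUnion B := by
        intro f hf
        by_cases h : f ∈ G (insert v S)
        · exact mem_union_left _ h
        · refine mem_union_right _ ?_
          simp only [hG, mem_filter, mem_univ, true_and, not_forall, not_not] at h hf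
          obtain ⟨i, hi, hb⟩ := h
          have hvi : v ∈ e i := by
            by_contra hvi
            exact hf i (fun x hx => by
              rcases mem_insert.1 (hi hx) with rfl | h
              · exact absurd hx hvi
              · exact h) hb
          refine mem_biUnion.2 ⟨i, by simp [hI, hvi, hi], ?_⟩
          simp only [hB, mem_filter, mem_univ, true_and]
          exact ⟨hb, fun j hj => hf j (hj.trans sdiff_subset)⟩
      have hBi : ∀ i ∈ I, ((B i).card : ℝ) ≤ p i * (2 * (G S).card) := by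
        intro i hi
        simp only [hI, mem_filter, mem_univ, true_and] at hi
        have hT : (e i).erase v ⊆ S := by
          intro x hx
          rcases mem_insert.1 (hi.2 (mem_of_mem_erase hx)) with h | h
          · exact absurd h (ne_of_mem_erase hx)
          · exact h
        have h1 := hch _ hT
        have hdepQ : DepOn (e i)ᶜ (fun f => ∀ j, e j ⊆ S \ (e i).erase v → ¬ Bad j f) := by
          intro f g hfg hf j hj hb
          refine hf j hj (hdep j g f (fun x hx => (hfg x ?_).symm) hb)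
          have := hj hx
          simp only [mem_sdiff, mem_erase, not_and] at this
          simp only [mem_compl]
          exact this.2 (fun h => hv (h ▸ this.1))
        have h2 := card_inter_mul (e i) (Bad i) _ (hdep i) hdepQ
        have h3 : ((B i).card : ℝ) * Fintype.card (V → K)
            = (univ.filter (Bad i)).card * (G (S \ (e i).erase v)).card := by
          exact_mod_cast h2
        have hpos : (0 : ℝ) < Fintype.card (V → K) := by exact_mod_cast Fintype.card_pos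
        have h4 : ((B i).card : ℝ) ≤ p i * (G (S \ (e i).erase v)).card := by
          have := mul_le_mul_of_nonneg_right (hprob i)
            (Nat.cast_nonneg (α := ℝ) (G (S \ (e i).erase v)).card)
          rw [← h3] at this
          nlinarith
        have h5 : 1 / 2 ≤ β ^ ((e i).erase v).card :=
          hβN.trans (pow_le_pow_of_le_one hβ0.le hβ1 ((card_erase_le).trans (hcard i)))
        have h6 : ((G (S \ (e i).erase v)).card : ℝ) ≤ 2 * (G S).card := by
          have := mul_le_mul_of_nonneg_right h5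
            (Nat.cast_nonneg (α := ℝ) (G (S \ (e i).erase v)).card)
          linarith
        exact h4.trans (mul_le_mul_of_nonneg_left h6 (hp i))
      have hIc : ∑ i ∈ I, p i ≤ 1 / (4 * N) := by
        refine le_trans ?_ (hdeg v)
        rw [← sum_filter]
        refine sum_le_sum_of_subset_of_nonneg (fun i hi => ?_) fun i _ _ => hp i
        simp only [hI, mem_filter, mem_univ, true_and] at hi ⊢
        exact hi.1
      have h7 : ((G S).card : ℝ) ≤ (G (insert v S)).card + 1 / (4 * N) * (2 * (G S).card) := by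
        have h8 : (G S).card ≤ (G (insert v S)).card + ∑ i ∈ I, (B i).card :=
          (card_le_card hsub).trans ((card_union_le _ _).trans
            (Nat.add_le_add_left card_biUnion_le _))
        have h9 : ((G S).card : ℝ) ≤ (G (insert v S)).card + ∑ i ∈ I, ((B i).card : ℝ) := by
          exact_mod_cast h8
        have h10 : ∑ i ∈ I, ((B i).card : ℝ) ≤ (∑ i ∈ I, p i) * (2 * (G S).card) := by
          rw [sum_mul]
          exact sum_le_sum hBi
        have h11 : (∑ i ∈ I, p i) * (2 * ((G S).card : ℝ)) ≤ 1 / (4 * N) * (2 * (G S).card) :=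
          mul_le_mul_of_nonneg_right hIc (by positivity)
        linarith
      have h12 : 1 / (4 * (N : ℝ)) * (2 * (G S).card) = 1 / (2 * N) * (G S).card := by
        field_simp
        ring
      rw [hβ]
      linarith
  have hfin := chain (univ : Finset V).card (fun S _ => step _ S rfl) univ le_rfl univ le_rfl
  have hG0 : G (univ \ univ) = univ := by
    ext f
    simp only [hG, sdiff_self, bot_eq_empty, subset_empty, mem_filter, mem_univ, true_and,
      iff_true]
    intro i hi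
    exact absurd hi (hne i).ne_empty
  rw [hG0] at hfin
  have hpos : (0 : ℝ) < (univ : Finset (V → K)).card := by
    exact_mod_cast card_pos.2 univ_nonempty
  have : (0 : ℝ) < (G univ).card := lt_of_lt_of_le (by positivity) hfin
  obtain ⟨f, hf⟩ := card_pos.1 (by exact_mod_cast this : 0 < (G univ).card)
  simp only [hG, mem_filter, mem_univ, true_and] at hf
  exact ⟨f, fun i => hf i (subset_univ _)⟩

end LLL

/-- the sign attached to a colour -/
def sg (c b : Bool) : ℝ := if b = c then -1 else 1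

/-- tail bound for a weighted sum of independent signs -/
lemma tail {L : Type*} [Fintype L] [DecidableEq L] (w : L → ℝ) (c : Bool) {B t : ℝ} (hB : 0 < B)
    (ht : 0 ≤ t) (hw : ∑ l, w l ^ 2 ≤ B) :
    ((univ.filter fun φ : L → Bool => t ≤ ∑ l, w l * sg c (φ l)).card : ℝ) ≤
      Real.exp (-(t ^ 2 / (2 * B))) * Fintype.card (L → Bool) := by
  set a : ℝ := t / B with ha
  have ha0 : 0 ≤ a := by positivity
  have one : ∀ l, ∑ b : Bool, Real.exp (a * (w l * sg c b)) ≤ Real.exp ((a * w l) ^ 2 / 2) * 2 := by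
    intro l
    have h := Real.cosh_le_exp_half_sq (a * w l)
    rw [Real.cosh_eq] at h
    cases c <;> simp [sg] <;> linarith
  calc ((univ.filter fun φ : L → Bool => t ≤ ∑ l, w l * sg c (φ l)).card : ℝ)
      = ∑ φ : L → Bool, if t ≤ ∑ l, w l * sg c (φ l) then (1 : ℝ) else 0 := by simp
    _ ≤ ∑ φ : L → Bool, Real.exp (-(a * t)) * ∏ l, Real.exp (a * (w l * sg c (φ l))) := by
        refine sum_le_sum fun φ _ => ?_
        rw [← Real.exp_sum, ← Real.exp_add, ← mul_sum]
        split_ifs with h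
        · exact Real.one_le_exp (by nlinarith)
        · positivity
    _ = Real.exp (-(a * t)) * ∏ l, ∑ b : Bool, Real.exp (a * (w l * sg c b)) := by
        rw [← mul_sum, prod_univ_sum, Fintype.piFinset_univ]
    _ ≤ Real.exp (-(a * t)) * ∏ l, (Real.exp ((a * w l) ^ 2 / 2) * 2) := by
        gcongr with l
        exact one l
    _ = Real.exp (-(a * t) + a ^ 2 / 2 * ∑ l, w l ^ 2) * Fintype.card (L → Bool) := by
        rw [prod_mul_distrib, prod_const, card_univ, ← Real.exp_sum, ← mul_assoc, ← Real.exp_add,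
          mul_sum]
        congr 1
        · congr 2
          exact sum_congr rfl fun l _ => by ring
        · simp
    _ ≤ _ := by
        gcongr
        have h1 : a ^ 2 / 2 * ∑ l, w l ^ 2 ≤ a ^ 2 / 2 * B := by gcongr
        have h2 : -(a * t) + a ^ 2 / 2 * B = -(t ^ 2 / (2 * B)) := by
          rw [ha]
          field_simp
          ring
        linarith

/-- probability that a colour is rare on a pattern whose classes have at most `M` elements -/
lemma rare {L : Type*} [Fintype L] [DecidableEq L] {k : ℕ} (hk : 0 < k) (π : Fin k → L) {η M : ℝ}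
    (hη : 0 ≤ η) (hM : ∀ l, ((univ.filter fun i => π i = l).card : ℝ) ≤ M) (c : Bool) :
    ((univ.filter fun φ : L → Bool =>
      ((univ.filter fun i => φ (π i) = c).card : ℝ) < (1 / 2 - η) * k).card : ℝ) ≤
      Real.exp (-(2 * η ^ 2 * k / M)) * Fintype.card (L → Bool) := by
  have hk' : (0 : ℝ) < k := by exact_mod_cast hk
  have hM0 : 0 < M := by
    refine lt_of_lt_of_le ?_ (hM (π ⟨0, hk⟩))
    exact Nat.cast_pos.2 (card_pos.2 ⟨⟨0, hk⟩, by simp⟩)
  set w : L → ℝ := fun l => ((univ.filter fun i => π i = l).card : ℝ) with hw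
  have hsum : ∀ g : L → ℝ, ∑ l, w l * g l = ∑ i, g (π i) := by
    intro g
    rw [← sum_fiberwise_of_maps_to (s := univ) (t := univ) (g := π) (fun _ _ => mem_univ _)]
    refine sum_congr rfl fun l _ => ?_
    rw [sum_congr rfl (g := fun _ => g l) fun i hi => by rw [(mem_filter.1 hi).2], sum_const,
      nsmul_eq_mul]
  have h2 : ∑ l, w l ^ 2 ≤ M * k := by
    calc ∑ l, w l ^ 2 ≤ ∑ l, w l * M := sum_le_sum fun l _ => by
          rw [sq]
          exact mul_le_mul_of_nonneg_left (hM l) (Nat.cast_nonneg _)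
      _ = M * k := by
          rw [hsum fun _ => M]
          simp [mul_comm]
  have h3 := tail w c (B := M * k) (t := 2 * η * k) (by positivity) (by positivity) h2
  have h4 : (2 * η * k) ^ 2 / (2 * (M * k)) = 2 * η ^ 2 * k / M := by
    field_simp
  rw [h4] at h3
  refine le_trans ?_ h3
  gcongr with φ
  intro h
  rw [hsum fun l => sg c (φ l)]
  have h5 : ∑ i, sg c (φ (π i)) = k - 2 * ((univ.filter fun i => φ (π i) = c).card : ℝ) := by
    have : ∀ i, sg c (φ (π i)) = 1 - 2 * (if φ (π i) = c then (1 : ℝ) else 0) := by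
      intro i
      unfold sg
      split_ifs <;> norm_num
    simp only [this, sum_sub_distrib, ← mul_sum, sum_boole]
    simp
  rw [h5]
  linarith

lemma stage1_core {ι L : Type*} [Fintype ι] [Fintype L] [DecidableEq L] {k : ℕ} (hk : 0 < k)
    (π : ι → Fin k → L) {η : ℝ} (hη : 0 ≤ η) (M : ι → ℝ)
    (hM : ∀ j l, ((univ.filter fun i => π j i = l).card : ℝ) ≤ M j)
    (hs : ∀ l, ∑ j, (if ∃ i, π j i = l then 2 * Real.exp (-(2 * η ^ 2 * k / M j)) else 0) ≤
      1 / (4 * k)) :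
    ∃ φ : L → Bool, ∀ j c, (1 / 2 - η) * k ≤ ((univ.filter fun i => φ (π j i) = c).card : ℝ) := by
  classical
  obtain ⟨φ, hφ⟩ := lll (K := Bool) (fun j => univ.image (π j))
    (fun j φ => ∃ c, ((univ.filter fun i => φ (π j i) = c).card : ℝ) < (1 / 2 - η) * k) k
    (fun j => 2 * Real.exp (-(2 * η ^ 2 * k / M j))) hk
    (fun j => card_image_le.trans (by simp)) (fun j => ⟨π j ⟨0, hk⟩, by simp⟩)
    (fun j f g h ⟨c, hc⟩ => ⟨c, by
      have : ∀ i, g (π j i) = f (π j i) := fun i => (h _ (by simp)).symm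
      simpa only [this] using hc⟩)
    (fun j => by
      have h1 := rare hk (π j) hη (hM j) true
      have h2 := rare hk (π j) hη (hM j) false
      have h3 : (univ.filter fun φ : L → Bool => ∃ c,
          ((univ.filter fun i => φ (π j i) = c).card : ℝ) < (1 / 2 - η) * k).card ≤
          (univ.filter fun φ : L → Bool =>
            ((univ.filter fun i => φ (π j i) = true).card : ℝ) < (1 / 2 - η) * k).card +
          (univ.filter fun φ : L → Bool =>
            ((univ.filter fun i => φ (π j i) = false).card : ℝ) < (1 / 2 - η) * k).card := by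
        refine le_trans (card_le_card fun φ hφ => ?_) (card_union_le _ _)
        obtain ⟨c, hc⟩ := (mem_filter.1 hφ).2
        cases c
        · exact mem_union_right _ (mem_filter.2 ⟨mem_univ _, hc⟩)
        · exact mem_union_left _ (mem_filter.2 ⟨mem_univ _, hc⟩)
      have h4 := (Nat.cast_le (α := ℝ)).2 h3
      rw [Nat.cast_add] at h4
      linarith)
    (fun j => by positivity)
    (fun l => by simpa only [mem_image, mem_univ, true_and] using hs l)
  exact ⟨φ, fun j c => not_lt.1 fun h => hφ j ⟨c, h⟩⟩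

/-- a colouring of the labels that is balanced on all patterns of the family `P` -/
theorem stage1 {L : Type*} [DecidableEq L] {k : ℕ} (hk : 0 < k) (P : Finset (Fin k → L)) {η : ℝ}
    (hη : 0 ≤ η) (M : (Fin k → L) → ℝ)
    (hM : ∀ π ∈ P, ∀ l, ((univ.filter fun i => π i = l).card : ℝ) ≤ M π)
    (hs : ∀ l, ∑ π ∈ P.filter (fun π => ∃ i, π i = l), 2 * Real.exp (-(2 * η ^ 2 * k / M π)) ≤
      1 / (4 * k)) :
    ∃ φ : L → Bool, ∀ π ∈ P, ∀ c,
      (1 / 2 - η) * k ≤ ((univ.filter fun i => φ (π i) = c).card : ℝ) := by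
  classical
  set U : Finset L := P.biUnion fun π => univ.image π with hU
  have hmem : ∀ (j : P) (i : Fin k), j.1 i ∈ U := fun j i =>
    mem_biUnion.2 ⟨j.1, j.2, mem_image_of_mem _ (mem_univ i)⟩
  obtain ⟨φ, hφ⟩ := stage1_core (ι := P) (L := U) hk (fun j i => ⟨j.1 i, hmem j i⟩) hη
    (fun j => M j.1) (fun j l => by simpa only [Subtype.ext_iff] using hM j.1 j.2 l.1)
    (fun l => by
      refine le_trans (le_of_eq ?_) (hs l.1)
      rw [sum_filter, ← sum_coe_sort P]
      simp only [Subtype.ext_iff])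
  refine ⟨fun l => if h : l ∈ U then φ ⟨l, h⟩ else true, fun π hπ c => ?_⟩
  have := hφ ⟨π, hπ⟩ c
  simpa only [dif_pos (hmem ⟨π, hπ⟩ _)] using this

/-- two levels: all patterns have classes of size at most `M0`, and those with a class larger than
`M1` that contain a given label at a given position are few -/
theorem stage1_two {L : Type*} [DecidableEq L] {k : ℕ} (hk : 0 < k) (P Q : Finset (Fin k → L))
    {η M0 M1 : ℝ} (hη : 0 ≤ η) {P1 P2 : ℝ}
    (h0 : ∀ π ∈ P, ∀ l, ((univ.filter fun i => π i = l).card : ℝ) ≤ M0)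
    (h1 : ∀ π ∈ P, π ∉ Q → ∀ l, ((univ.filter fun i => π i = l).card : ℝ) ≤ M1)
    (hP1 : (P.card : ℝ) ≤ P1) (hP2 : ∀ i l, ((Q.filter fun π => π i = l).card : ℝ) ≤ P2)
    (hs : 8 * k * (P1 * Real.exp (-(2 * η ^ 2 * k / M1)) +
      k * P2 * Real.exp (-(2 * η ^ 2 * k / M0))) ≤ 1) :
    ∃ φ : L → Bool, ∀ π ∈ P, ∀ c,
      (1 / 2 - η) * k ≤ ((univ.filter fun i => φ (π i) = c).card : ℝ) := by
  classical
  have hk' : (0 : ℝ) < k := by exact_mod_cast hk
  refine stage1 hk P hη (fun π => if π ∈ Q then M0 else M1) (fun π hπ l => ?_) fun l => ?_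
  · split_ifs with h
    · exact h0 π hπ l
    · exact h1 π hπ h l
  · set S := P.filter (fun π => ∃ i, π i = l) with hS
    rw [← sum_filter_add_sum_filter_not S (fun π => π ∈ Q)]
    have a1 : ∑ π ∈ S.filter (fun π => π ∈ Q),
        2 * Real.exp (-(2 * η ^ 2 * k / if π ∈ Q then M0 else M1)) ≤
        k * P2 * (2 * Real.exp (-(2 * η ^ 2 * k / M0))) := by
      rw [sum_congr rfl (g := fun _ => 2 * Real.exp (-(2 * η ^ 2 * k / M0)))
        fun π hπ => by rw [if_pos (mem_filter.1 hπ).2], sum_const, nsmul_eq_mul]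
      gcongr
      have b1 : (S.filter fun π => π ∈ Q).card ≤ ∑ i, (Q.filter fun π => π i = l).card := by
        refine le_trans (card_le_card fun π hπ => ?_) card_biUnion_le
        obtain ⟨b2, b3⟩ := mem_filter.1 hπ
        obtain ⟨i, hi⟩ := (mem_filter.1 b2).2
        exact mem_biUnion.2 ⟨i, mem_univ _, mem_filter.2 ⟨b3, hi⟩⟩
      have b2 := (Nat.cast_le (α := ℝ)).2 b1
      rw [Nat.cast_sum] at b2
      refine b2.trans ((sum_le_sum fun i _ => hP2 i l).trans ?_)
      simp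
    have a2 : ∑ π ∈ S.filter (fun π => ¬ π ∈ Q),
        2 * Real.exp (-(2 * η ^ 2 * k / if π ∈ Q then M0 else M1)) ≤
        P1 * (2 * Real.exp (-(2 * η ^ 2 * k / M1))) := by
      rw [sum_congr rfl (g := fun _ => 2 * Real.exp (-(2 * η ^ 2 * k / M1)))
        fun π hπ => by rw [if_neg (mem_filter.1 hπ).2], sum_const, nsmul_eq_mul]
      gcongr
      refine le_trans ?_ hP1
      exact_mod_cast card_le_card ((filter_subset _ _).trans (filter_subset _ _))
    rw [le_div_iff₀ (by positivity)]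
    nlinarith

end Pool.Agent.MP_a31471_co.Big

end MrgPart4

-- ======== part 5: formerly Pool.Agent.MP_a31471_co.big.Stage2
section MrgPart5

/-! Sparse random flips: a union bound over two families of patterns of keys. -/

namespace Pool.Agent.MP_a31471_co.Big

open Finset

/-- functions whose values on `S` lie in prescribed sets of density at most `ρ` -/
lemma count_box {K R : Type*} [Fintype K] [DecidableEq K] [Fintype R] [DecidableEq R]
    (S : Finset K) (C : K → Finset R) {ρ : ℝ} (hρ : 0 ≤ ρ) (hρ1 : ρ ≤ 1) {m : ℕ} (hm : m ≤ S.card)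
    (hC : ∀ x ∈ S, ((C x).card : ℝ) ≤ ρ * Fintype.card R) (T : Finset (K → R))
    (hT : ∀ ψ ∈ T, ∀ x ∈ S, ψ x ∈ C x) :
    (T.card : ℝ) ≤ ρ ^ m * Fintype.card (K → R) := by
  have h1 : T ⊆ Fintype.piFinset fun x => if x ∈ S then C x else univ := by
    intro ψ hψ
    rw [Fintype.mem_piFinset]
    intro x
    split_ifs with h
    · exact hT ψ hψ x h
    · exact mem_univ _
  have h2 := (Nat.cast_le (α := ℝ)).2 (card_le_card h1)
  rw [Fintype.card_piFinset, Nat.cast_prod] at h2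
  refine h2.trans ?_
  calc ∏ x, (((if x ∈ S then C x else univ).card : ℕ) : ℝ)
      ≤ ∏ x, ((if x ∈ S then ρ else 1) * Fintype.card R) := by
        refine prod_le_prod (fun _ _ => Nat.cast_nonneg _) fun x _ => ?_
        split_ifs with h
        · exact hC x h
        · simp
    _ = ρ ^ S.card * Fintype.card (K → R) := by
        rw [prod_mul_distrib, prod_ite_mem, univ_inter, prod_const, prod_const]
        simp
    _ ≤ _ := by
        gcongr ?_ * _
        exact pow_le_pow_of_le_one hρ hρ1 hm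

lemma half_le_image {K : Type*} [DecidableEq K] {k m : ℕ} (κ : Fin k → K)
    (h2 : ∀ y, (univ.filter fun i => κ i = y).card ≤ 2) (s : Finset (Fin k))
    (hs : 2 * m ≤ s.card) : m ≤ (s.image κ).card := by
  have := card_le_mul_card_image (f := κ) s 2 fun y _ =>
    le_trans (card_le_card (filter_subset_filter _ (subset_univ s))) (h2 y)
  omega

lemma stage2_core {ι ι' K : Type*} [Fintype ι] [Fintype ι'] [Fintype K] [DecidableEq K]
    {k r m m' : ℕ} (hr : 2 ≤ r) (b : K → Bool) (A : ι → Fin k → K) (B : ι' → Fin k → K)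
    (hA2 : ∀ j y, (univ.filter fun i => A j i = y).card ≤ 2)
    (hB2 : ∀ j y, (univ.filter fun i => B j i = y).card ≤ 2)
    (hA : ∀ j c, 2 * m ≤ (univ.filter fun i => b (A j i) = c).card) (hm' : 2 * m' ≤ k)
    (hs : 2 * Fintype.card ι * (1 / r : ℝ) ^ m +
      2 * Fintype.card ι' * (1 - 1 / r : ℝ) ^ m' < 1) :
    ∃ χ : K → Bool, (∀ j c, ∃ i, χ (A j i) ≠ c) ∧ ∀ j c, ∃ i, χ (B j i) ≠ c := by
  classical
  have : NeZero r := ⟨by omega⟩
  have hr' : (2 : ℝ) ≤ r := by exact_mod_cast hr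
  have hr0 : (0 : ℝ) < r := by linarith
  have hh : (1 / r : ℝ) ≤ 1 / 2 := one_div_le_one_div_of_le (by norm_num) hr'
  have h0 : (0 : ℝ) ≤ 1 / r := by positivity
  set col : (K → Fin r) → K → Bool := fun ψ y => xor (b y) (decide (ψ y = 0)) with hcol
  set TA : ι × Bool → Finset (K → Fin r) :=
    fun p => univ.filter fun ψ => ∀ i, col ψ (A p.1 i) = p.2 with hTA
  set TB : ι' × Bool → Finset (K → Fin r) :=
    fun p => univ.filter fun ψ => ∀ i, col ψ (B p.1 i) = p.2 with hTB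
  have bA : ∀ p, ((TA p).card : ℝ) ≤ (1 / r : ℝ) ^ m * Fintype.card (K → Fin r) := by
    rintro ⟨j, c⟩
    refine count_box ((univ.filter fun i => b (A j i) = !c).image (A j)) (fun _ => {0}) h0
      (by linarith) (half_le_image _ (hA2 j) _ (hA j _)) (fun x _ => ?_) _ fun ψ hψ x hx => ?_
    · simp [hr0.ne']
    · obtain ⟨i, hi, rfl⟩ := mem_image.1 hx
      have e1 := (mem_filter.1 hi).2
      have e2 := (mem_filter.1 hψ).2 i
      simp only [hcol, e1] at e2
      rw [mem_singleton]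
      by_contra h
      simp [h] at e2
  have bB : ∀ p, ((TB p).card : ℝ) ≤ (1 - 1 / r : ℝ) ^ m' * Fintype.card (K → Fin r) := by
    rintro ⟨j, c⟩
    refine count_box (univ.image (B j)) (fun y => if b y = c then {0}ᶜ else {0}) (by linarith)
      (by linarith) (half_le_image _ (hB2 j) _ (by simpa using hm')) (fun x _ => ?_) _
      fun ψ hψ x hx => ?_
    · have e : (1 - 1 / r : ℝ) * r = r - 1 := by field_simp
      rw [Fintype.card_fin, e]
      split_ifs
      · rw [card_compl, card_singleton, Fintype.card_fin, Nat.cast_sub (by omega)]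
        simp
      · rw [card_singleton]
        push_cast
        linarith
    · obtain ⟨i, -, rfl⟩ := mem_image.1 hx
      have e2 := (mem_filter.1 hψ).2 i
      simp only [hcol] at e2
      split_ifs with h
      · rw [mem_compl, mem_singleton]
        intro h'
        simp [h, h'] at e2
      · rw [mem_singleton]
        by_contra h'
        simp [h, h'] at e2
  have hpos : (0 : ℝ) < Fintype.card (K → Fin r) := by exact_mod_cast Fintype.card_pos
  have hlt : (univ.biUnion TA ∪ univ.biUnion TB).card < (univ : Finset (K → Fin r)).card := by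
    have c1 : (univ.biUnion TA ∪ univ.biUnion TB).card ≤
        ∑ p, (TA p).card + ∑ p, (TB p).card :=
      (card_union_le _ _).trans (Nat.add_le_add card_biUnion_le card_biUnion_le)
    have c2 := (Nat.cast_le (α := ℝ)).2 c1
    rw [Nat.cast_add, Nat.cast_sum, Nat.cast_sum] at c2
    have c3 := sum_le_card_nsmul univ _ _ fun p (_ : p ∈ univ) => bA p
    have c4 := sum_le_card_nsmul univ _ _ fun p (_ : p ∈ univ) => bB p
    rw [card_univ, Fintype.card_prod, Fintype.card_bool, nsmul_eq_mul, Nat.cast_mul] at c3 c4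
    have c5 := mul_lt_mul_of_pos_right hs hpos
    rw [← Nat.cast_lt (α := ℝ), card_univ]
    push_cast at c3 c4 c5 c2 ⊢
    nlinarith
  obtain ⟨ψ, -, hψ⟩ := exists_mem_notMem_of_card_lt_card hlt
  rw [mem_union, not_or] at hψ
  refine ⟨col ψ, fun j c => ?_, fun j c => ?_⟩
  · by_contra h
    push Not at h
    exact hψ.1 (mem_biUnion.2 ⟨(j, c), mem_univ _, mem_filter.2 ⟨mem_univ _, h⟩⟩)
  · by_contra h
    push Not at h
    exact hψ.2 (mem_biUnion.2 ⟨(j, c), mem_univ _, mem_filter.2 ⟨mem_univ _, h⟩⟩)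

/-- a colouring of the keys under which no pattern of `A` or `B` is monochromatic -/
theorem stage2 {K : Type*} [DecidableEq K] {k r m m' : ℕ} (hr : 2 ≤ r) (b : K → Bool)
    (A B : Finset (Fin k → K))
    (hA2 : ∀ κ ∈ A, ∀ y, (univ.filter fun i => κ i = y).card ≤ 2)
    (hB2 : ∀ κ ∈ B, ∀ y, (univ.filter fun i => κ i = y).card ≤ 2)
    (hA : ∀ κ ∈ A, ∀ c, 2 * m ≤ (univ.filter fun i => b (κ i) = c).card) (hm' : 2 * m' ≤ k)
    (hs : 2 * A.card * (1 / r : ℝ) ^ m + 2 * B.card * (1 - 1 / r : ℝ) ^ m' < 1) :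
    ∃ χ : K → Bool, ∀ κ, κ ∈ A ∨ κ ∈ B → ∀ c, ∃ i, χ (κ i) ≠ c := by
  classical
  set U : Finset K := (A ∪ B).biUnion fun π => univ.image π with hU
  have hmA : ∀ (j : A) (i : Fin k), j.1 i ∈ U := fun j i =>
    mem_biUnion.2 ⟨j.1, mem_union_left _ j.2, mem_image_of_mem _ (mem_univ i)⟩
  have hmB : ∀ (j : B) (i : Fin k), j.1 i ∈ U := fun j i =>
    mem_biUnion.2 ⟨j.1, mem_union_right _ j.2, mem_image_of_mem _ (mem_univ i)⟩
  obtain ⟨χ, h1, h2⟩ := stage2_core (ι := A) (ι' := B) (K := U) (m := m) hr (fun y => b y.1)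
    (fun j i => ⟨j.1 i, hmA j i⟩) (fun j i => ⟨j.1 i, hmB j i⟩)
    (fun j y => by simpa only [Subtype.ext_iff] using hA2 j.1 j.2 y.1)
    (fun j y => by simpa only [Subtype.ext_iff] using hB2 j.1 j.2 y.1)
    (fun j c => hA j.1 j.2 c) hm' (by simpa only [Fintype.card_coe] using hs)
  refine ⟨fun y => if h : y ∈ U then χ ⟨y, h⟩ else true, fun κ hκ c => ?_⟩
  rcases hκ with hκ | hκ
  · obtain ⟨i, hi⟩ := h1 ⟨κ, hκ⟩ c
    exact ⟨i, by simpa only [dif_pos (hmA ⟨κ, hκ⟩ _)] using hi⟩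
  · obtain ⟨i, hi⟩ := h2 ⟨κ, hκ⟩ c
    exact ⟨i, by simpa only [dif_pos (hmB ⟨κ, hκ⟩ _)] using hi⟩

end Pool.Agent.MP_a31471_co.Big

end MrgPart5

-- ======== part 6: formerly Pool.Agent.MP_a31471_co.big.Stage2L
section MrgPart6

/-! Sparse random flips chosen by the local lemma. -/

namespace Pool.Agent.MP_a31471_co.Big

open Finset

/-- the colouring after the flips -/
def flipc {K : Type*} {r : ℕ} [NeZero r] (b : K → Bool) (ψ : K → Fin r) (y : K) : Bool :=
  xor (b y) (decide (ψ y = 0))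

section
variable {K : Type*} [Fintype K] [DecidableEq K] {k r m : ℕ} [NeZero r]

lemma mono_two (b : K → Bool) (κ : Fin k → K) {q : ℝ}
    (h : ∀ c, ((univ.filter fun ψ : K → Fin r => ∀ i, flipc b ψ (κ i) = c).card : ℝ) ≤ q) :
    ((univ.filter fun ψ : K → Fin r => ∃ c, ∀ i, flipc b ψ (κ i) = c).card : ℝ) ≤ 2 * q := by
  have h3 : (univ.filter fun ψ : K → Fin r => ∃ c, ∀ i, flipc b ψ (κ i) = c).card ≤
      (univ.filter fun ψ : K → Fin r => ∀ i, flipc b ψ (κ i) = true).card +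
      (univ.filter fun ψ : K → Fin r => ∀ i, flipc b ψ (κ i) = false).card := by
    refine le_trans (card_le_card fun φ hφ => ?_) (card_union_le _ _)
    obtain ⟨c, hc⟩ := (mem_filter.1 hφ).2
    cases c
    · exact mem_union_right _ (mem_filter.2 ⟨mem_univ _, hc⟩)
    · exact mem_union_left _ (mem_filter.2 ⟨mem_univ _, hc⟩)
  have h4 := (Nat.cast_le (α := ℝ)).2 h3
  rw [Nat.cast_add] at h4
  linarith [h true, h false]

lemma mono_bal (b : K → Bool) (κ : Fin k → K)
    (h2 : ∀ y, (univ.filter fun i => κ i = y).card ≤ 2)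
    (hA : ∀ c, 2 * m ≤ (univ.filter fun i => b (κ i) = c).card) (c : Bool) :
    ((univ.filter fun ψ : K → Fin r => ∀ i, flipc b ψ (κ i) = c).card : ℝ) ≤
      (1 / r : ℝ) ^ m * Fintype.card (K → Fin r) := by
  have hr1 : (1 : ℝ) ≤ r := by exact_mod_cast Nat.pos_of_ne_zero (NeZero.ne r)
  have hr0 : (0 : ℝ) < r := by linarith
  refine count_box ((univ.filter fun i => b (κ i) = !c).image κ) (fun _ => {0}) (by positivity)
    ((div_le_one hr0).2 hr1) (half_le_image _ h2 _ (hA _)) (fun x _ => ?_) _ fun ψ hψ x hx => ?_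
  · simp [hr0.ne']
  · obtain ⟨i, hi, rfl⟩ := mem_image.1 hx
    have e1 := (mem_filter.1 hi).2
    have e2 := (mem_filter.1 hψ).2 i
    simp only [flipc, e1] at e2
    rw [mem_singleton]
    by_contra h
    simp [h] at e2

lemma mono_any (hr : 2 ≤ r) (b : K → Bool) (κ : Fin k → K)
    (h2 : ∀ y, (univ.filter fun i => κ i = y).card ≤ 2) (hm : 2 * m ≤ k) (c : Bool) :
    ((univ.filter fun ψ : K → Fin r => ∀ i, flipc b ψ (κ i) = c).card : ℝ) ≤
      (1 - 1 / r : ℝ) ^ m * Fintype.card (K → Fin r) := by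
  have hr' : (2 : ℝ) ≤ r := by exact_mod_cast hr
  have hr0 : (0 : ℝ) < r := by linarith
  have hh : (1 / r : ℝ) ≤ 1 / 2 := one_div_le_one_div_of_le (by norm_num) hr'
  have h0 : (0 : ℝ) ≤ 1 / r := by positivity
  refine count_box (univ.image κ) (fun y => if b y = c then {0}ᶜ else {0}) (by linarith)
    (by linarith) (half_le_image _ h2 _ (by simpa using hm)) (fun x _ => ?_) _
    fun ψ hψ x hx => ?_
  · have e : (1 - 1 / r : ℝ) * r = r - 1 := by field_simp
    rw [Fintype.card_fin, e]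
    split_ifs
    · rw [card_compl, card_singleton, Fintype.card_fin, Nat.cast_sub (by omega)]
      simp
    · rw [card_singleton]
      push_cast
      linarith
  · obtain ⟨i, -, rfl⟩ := mem_image.1 hx
    have e2 := (mem_filter.1 hψ).2 i
    simp only [flipc] at e2
    split_ifs with h
    · rw [mem_compl, mem_singleton]
      intro h'
      simp [h, h'] at e2
    · rw [mem_singleton]
      by_contra h'
      simp [h, h'] at e2

end

lemma stage2L_core {ι ι' K : Type*} [Fintype ι] [Fintype ι'] [Fintype K] [DecidableEq K]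
    {k r m m' : ℕ} (hk : 0 < k) (hr : 2 ≤ r) (b : K → Bool) (A : ι → Fin k → K)
    (B : ι' → Fin k → K) {P3 : ℝ}
    (hA2 : ∀ j y, (univ.filter fun i => A j i = y).card ≤ 2)
    (hB2 : ∀ j y, (univ.filter fun i => B j i = y).card ≤ 2)
    (hA : ∀ j c, 2 * m ≤ (univ.filter fun i => b (A j i) = c).card) (hm' : 2 * m' ≤ k)
    (hP : ∀ i y, ((univ.filter fun j => B j i = y).card : ℝ) ≤ P3)
    (hs : 8 * k * (Fintype.card ι * (1 / r : ℝ) ^ m + k * P3 * (1 - 1 / r : ℝ) ^ m') ≤ 1) :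
    ∃ χ : K → Bool, (∀ j c, ∃ i, χ (A j i) ≠ c) ∧ ∀ j c, ∃ i, χ (B j i) ≠ c := by
  classical
  have : NeZero r := ⟨by omega⟩
  have hk' : (0 : ℝ) < k := by exact_mod_cast hk
  have hr' : (2 : ℝ) ≤ r := by exact_mod_cast hr
  have hh : (1 / r : ℝ) ≤ 1 / 2 := one_div_le_one_div_of_le (by norm_num) hr'
  have p1 : (0 : ℝ) ≤ (1 / r : ℝ) ^ m := by positivity
  have p2 : (0 : ℝ) ≤ (1 - 1 / r : ℝ) ^ m' := pow_nonneg (by linarith) _
  obtain ⟨ψ, hψ⟩ := lll (K := Fin r) (ι := ι ⊕ ι') (fun j => univ.image (Sum.elim A B j))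
    (fun j ψ => ∃ c, ∀ i, flipc b ψ (Sum.elim A B j i) = c) k
    (Sum.elim (fun _ => 2 * (1 / r : ℝ) ^ m) fun _ => 2 * (1 - 1 / r : ℝ) ^ m') hk
    (fun j => card_image_le.trans (by simp)) (fun j => ⟨Sum.elim A B j ⟨0, hk⟩, by simp⟩)
    (fun j f g h ⟨c, hc⟩ => ⟨c, fun i => by
      rw [← hc i, flipc, flipc, h _ (mem_image_of_mem _ (mem_univ i))]⟩)
    (fun j => by
      cases j with
      | inl j =>
        have := mono_two b (A j) (mono_bal (r := r) b (A j) (hA2 j) (hA j))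
        simpa only [Sum.elim_inl, mul_assoc] using this
      | inr j =>
        have := mono_two b (B j) (mono_any hr b (B j) (hB2 j) hm')
        simpa only [Sum.elim_inr, mul_assoc] using this)
    (fun j => by
      cases j
      · simp only [Sum.elim_inl]
        linarith
      · simp only [Sum.elim_inr]
        linarith)
    (fun y => by
      rw [Fintype.sum_sum_type]
      simp only [Sum.elim_inl, Sum.elim_inr]
      have a1 : ∑ j, (if y ∈ univ.image (A j) then 2 * (1 / r : ℝ) ^ m else 0) ≤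
          Fintype.card ι * (2 * (1 / r : ℝ) ^ m) := by
        have := sum_le_card_nsmul univ
          (fun j => if y ∈ univ.image (A j) then 2 * (1 / r : ℝ) ^ m else 0)
          (2 * (1 / r : ℝ) ^ m) fun j _ => by split_ifs <;> linarith
        simpa only [card_univ, nsmul_eq_mul] using this
      have a2 : ∑ j, (if y ∈ univ.image (B j) then 2 * (1 - 1 / r : ℝ) ^ m' else 0) ≤
          k * P3 * (2 * (1 - 1 / r : ℝ) ^ m') := by
        rw [← sum_filter, sum_const, nsmul_eq_mul]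
        gcongr
        have b1 : (univ.filter fun j => y ∈ univ.image (B j)).card ≤
            ∑ i, (univ.filter fun j => B j i = y).card := by
          refine le_trans (card_le_card fun j hj => ?_) card_biUnion_le
          obtain ⟨i, -, hi⟩ := mem_image.1 (mem_filter.1 hj).2
          exact mem_biUnion.2 ⟨i, mem_univ _, mem_filter.2 ⟨mem_univ _, hi⟩⟩
        have b2 := (Nat.cast_le (α := ℝ)).2 b1
        rw [Nat.cast_sum] at b2
        refine b2.trans ((sum_le_sum fun i _ => hP i y).trans ?_)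
        simp
      rw [le_div_iff₀ (by positivity)]
      nlinarith)
  refine ⟨flipc b ψ, fun j c => ?_, fun j c => ?_⟩
  · by_contra h
    push Not at h
    exact hψ (Sum.inl j) ⟨c, h⟩
  · by_contra h
    push Not at h
    exact hψ (Sum.inr j) ⟨c, h⟩

/-- a colouring of the keys under which no pattern of `A` or `B` is monochromatic; for `B` only the
patterns through a given key at a given position are counted -/
theorem stage2L {K : Type*} [DecidableEq K] {k r m m' : ℕ} (hk : 0 < k) (hr : 2 ≤ r)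
    (b : K → Bool) (A B : Finset (Fin k → K)) {P3 : ℝ}
    (hA2 : ∀ κ ∈ A, ∀ y, (univ.filter fun i => κ i = y).card ≤ 2)
    (hB2 : ∀ κ ∈ B, ∀ y, (univ.filter fun i => κ i = y).card ≤ 2)
    (hA : ∀ κ ∈ A, ∀ c, 2 * m ≤ (univ.filter fun i => b (κ i) = c).card) (hm' : 2 * m' ≤ k)
    (hP : ∀ i y, ((B.filter fun κ => κ i = y).card : ℝ) ≤ P3)
    (hs : 8 * k * (A.card * (1 / r : ℝ) ^ m + k * P3 * (1 - 1 / r : ℝ) ^ m') ≤ 1) :
    ∃ χ : K → Bool, ∀ κ, κ ∈ A ∨ κ ∈ B → ∀ c, ∃ i, χ (κ i) ≠ c := by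
  classical
  set U : Finset K := (A ∪ B).biUnion fun π => univ.image π with hU
  have hmA : ∀ (j : A) (i : Fin k), j.1 i ∈ U := fun j i =>
    mem_biUnion.2 ⟨j.1, mem_union_left _ j.2, mem_image_of_mem _ (mem_univ i)⟩
  have hmB : ∀ (j : B) (i : Fin k), j.1 i ∈ U := fun j i =>
    mem_biUnion.2 ⟨j.1, mem_union_right _ j.2, mem_image_of_mem _ (mem_univ i)⟩
  obtain ⟨χ, h1, h2⟩ := stage2L_core (ι := A) (ι' := B) (K := U) (m := m) (P3 := P3) hk hr
    (fun y => b y.1) (fun j i => ⟨j.1 i, hmA j i⟩) (fun j i => ⟨j.1 i, hmB j i⟩)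
    (fun j y => by simpa only [Subtype.ext_iff] using hA2 j.1 j.2 y.1)
    (fun j y => by simpa only [Subtype.ext_iff] using hB2 j.1 j.2 y.1)
    (fun j c => hA j.1 j.2 c) hm'
    (fun i y => by
      refine le_trans ?_ (hP i y.1)
      refine Nat.cast_le.2 (card_le_card_of_injOn (fun j => j.1) (fun j hj => ?_)
        fun _ _ _ _ h => Subtype.ext h)
      have := (mem_filter.1 (mem_coe.1 hj)).2
      exact mem_coe.2 (mem_filter.2 ⟨j.2, congrArg Subtype.val this⟩))
    (by simpa only [Fintype.card_coe] using hs)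
  refine ⟨fun y => if h : y ∈ U then χ ⟨y, h⟩ else true, fun κ hκ c => ?_⟩
  rcases hκ with hκ | hκ
  · obtain ⟨i, hi⟩ := h1 ⟨κ, hκ⟩ c
    exact ⟨i, by simpa only [dif_pos (hmA ⟨κ, hκ⟩ _)] using hi⟩
  · obtain ⟨i, hi⟩ := h2 ⟨κ, hκ⟩ c
    exact ⟨i, by simpa only [dif_pos (hmB ⟨κ, hκ⟩ _)] using hi⟩

end Pool.Agent.MP_a31471_co.Big

end MrgPart6

-- ======== part 7: formerly Pool.Agent.MP_a31471_co.sx.Colour
section MrgPart7

/-!
The colouring: a balanced colouring of the labels, followed by sparse flips.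
-/

set_option autoImplicit false

namespace Pool.Agent.MP_a31471_co.sx

open Finset

theorem class_le_of_not_heavy {V : Type*} [DecidableEq V] {k h : ℕ} (h1 : 1 ≤ h) (h2 : 2 * h ≤ k)
    {π : Fin k → V} (hn : ¬ Heavy k h π) (l : V) :
    (((univ : Finset (Fin k)).filter (fun i => π i = l)).card : ℝ) ≤ (k : ℝ) / h := by
  have a1 : ((univ : Finset (Fin k)).filter (fun i => π i = l)).card ≤ k / (2 * h) + 1 := by
    by_contra hlt
    exact hn ⟨l, by omega⟩
  have a2 : 1 ≤ k / (2 * h) := (Nat.one_le_div_iff (by omega)).2 h2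
  have a3 : 2 * h * (k / (2 * h)) ≤ k := Nat.mul_div_le k (2 * h)
  have a4 : ((univ : Finset (Fin k)).filter (fun i => π i = l)).card * h ≤ k := by nlinarith
  have hh : (0 : ℝ) < h := by exact_mod_cast h1
  rw [le_div_iff₀ hh]
  exact_mod_cast a4

namespace Data

variable (S : Data)

/-- The keys along a progression. -/
def kp (a d : ℤ) : Fin S.k → (Fin S.D → ZMod S.M) × ℤ :=
  fun i => (S.pat a d i, S.Q (a + ((i : ℕ) : ℤ) * d))

theorem N_pos : (0 : ℤ) < S.N := by
  have : 0 < S.N := Finset.prod_pos (fun j _ => (S.prime j).pos)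
  exact_mod_cast this

theorem q_dvd (j : Fin S.D) : (S.q j : ℤ) ∣ S.N := by
  exact_mod_cast Finset.dvd_prod_of_mem S.q (Finset.mem_univ j)

theorem kp_red (a d : ℤ) : S.kp (a % S.N) (d % S.N) = S.kp a d := by
  have e : ∀ (i : Fin S.k) (j : Fin S.D), (a % S.N + ((i : ℕ) : ℤ) * (d % S.N)) % S.q j
      = (a + ((i : ℕ) : ℤ) * d) % S.q j := by
    intro i j
    exact (((Int.mod_modEq a S.N).add
      ((Int.mod_modEq d S.N).mul_left ((i : ℕ) : ℤ))).of_dvd (S.q_dvd j))
  funext i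
  refine Prod.ext ?_ ?_
  · funext j
    simp only [kp, pat]
    rw [S.lab_red, e, ← S.lab_red]
  · simp only [kp, Q]
    refine Finset.sum_congr rfl (fun j _ => ?_)
    rw [S.Y_red, e, ← S.Y_red]

theorem heavy_quadratic (q' : ℕ) (hq : ∀ j, S.q j ≤ q') (a d : ℤ)
    (h : Heavy S.k S.H (S.pat a d)) :
    ∃ A B C : ℤ, |A| ≤ 2 * S.D * q' ^ 2 ∧ |B| ≤ 2 * S.D * q' ^ 2 ∧ |C| ≤ 2 * S.D * q' ^ 2 ∧
      ∀ i : Fin S.k, S.Q (a + ((i : ℕ) : ℤ) * d) = A + B * ((i : ℕ) : ℤ) + C * ((i : ℕ) : ℤ) ^ 2 := by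
  obtain ⟨V, hV⟩ := S.heavy_affine a d h
  have hk : 1 < S.k := by have := S.H_pos; have := S.H_le; omega
  have hq' : ∀ j, (S.q j : ℤ) ≤ q' := fun j => by exact_mod_cast hq j
  have hU : ∀ j, |S.Y a j| ≤ q' := fun j => by
    rw [abs_of_nonneg (S.Y_nonneg a j)]
    linarith [S.Y_lt a j, hq' j]
  have hV' : ∀ j, |V j| ≤ q' := fun j => by
    have e := hV ⟨1, hk⟩ j
    have a1 := S.Y_nonneg a j
    have a2 := S.Y_lt a j
    have a3 := S.Y_nonneg (a + (((⟨1, hk⟩ : Fin S.k) : ℕ) : ℤ) * d) j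
    have a4 := S.Y_lt (a + (((⟨1, hk⟩ : Fin S.k) : ℕ) : ℤ) * d) j
    rw [e] at a3 a4
    simp only [Nat.cast_one, one_mul] at a3 a4
    rw [abs_le]
    constructor <;> linarith [hq' j]
  have bound : ∀ f g : Fin S.D → ℤ, (∀ j, |f j| ≤ q') → (∀ j, |g j| ≤ q') →
      |∑ j, f j * g j| ≤ S.D * q' ^ 2 := by
    intro f g hf hg
    refine (Finset.abs_sum_le_sum_abs _ _).trans ?_
    refine (Finset.sum_le_sum (g := fun _ => (q' : ℤ) ^ 2) (fun j _ => ?_)).trans ?_
    · rw [abs_mul, sq]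
      exact mul_le_mul (hf j) (hg j) (abs_nonneg _) (by positivity)
    · simp
  have h0 : (0 : ℤ) ≤ S.D * q' ^ 2 := by positivity
  refine ⟨∑ j, S.Y a j * S.Y a j, 2 * ∑ j, S.Y a j * V j, ∑ j, V j * V j, ?_, ?_, ?_, fun i => ?_⟩
  · linarith [bound _ _ hU hU]
  · rw [abs_mul, abs_two]
    linarith [bound _ _ hU hV']
  · linarith [bound _ _ hV' hV']
  · unfold Q
    simp only [hV i, Finset.mul_sum, Finset.sum_mul, ← Finset.sum_add_distrib]
    exact Finset.sum_congr rfl (fun j _ => by ring)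

theorem exists_colouring (H1 r q' m1 : ℕ) (η : ℝ) (hH1 : S.H ≤ H1) (hk1 : 2 * H1 ≤ S.k)
    (hr : 2 ≤ r) (hη : 0 ≤ η) (hm : (2 * m1 : ℝ) ≤ (1 / 2 - η) * S.k) (hq : ∀ j, S.q j ≤ q')
    (hS1 : 4 * (S.k : ℝ) * ((((S.k * (S.k * S.M) + 1) ^ (2 * S.D) : ℕ) : ℝ)
          * (2 * Real.exp (-(2 * η ^ 2 * H1)))
        + S.k * ((2 * H1 * ((2 * H1 + 1) * (S.k * (5 * S.Λ) + 1) ^ 2) ^ S.D : ℕ) : ℝ)
          * (2 * Real.exp (-(2 * η ^ 2 * S.H)))) ≤ 1)
    (hS2 : 8 * (S.k : ℝ) * ((((q' ^ S.D) ^ 2 : ℕ) : ℝ) * (1 / (r : ℝ)) ^ m1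
        + S.k * (((2 * S.H * ((2 * S.H + 1) * (S.k * (5 * S.Λ) + 1) ^ 2) ^ S.D)
            * (4 * S.D * q' ^ 2 + 1) ^ 3 : ℕ) : ℝ) * (1 - 1 / (r : ℝ)) ^ (S.k / 2)) ≤ 1) :
    ∃ χ : ℤ → Bool, ∀ a d : ℤ, ¬ (S.N : ℤ) ∣ d → ∀ c : Bool,
      ∃ i : Fin S.k, χ (a + ((i : ℕ) : ℤ) * d) ≠ c := by
  classical
  have hk := S.k_pos1
  have hkr : (0 : ℝ) < S.k := by exact_mod_cast hk
  have hH := S.H_pos
  have hH1' : 1 ≤ H1 := hH.trans hH1
  have hHr : (0 : ℝ) < S.H := by exact_mod_cast hH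
  have hH1r : (0 : ℝ) < H1 := by exact_mod_cast hH1'
  obtain ⟨φ, hφ⟩ := Big.stage1_two hk (S.Pat.filter (fun π => ¬ Heavy S.k S.H π))
    (S.Pat.filter (fun π => Heavy S.k H1 π)) (η := η) (M0 := (S.k : ℝ) / S.H)
    (M1 := (S.k : ℝ) / H1) hη
    (P1 := (((S.k * (S.k * S.M) + 1) ^ (2 * S.D) : ℕ) : ℝ))
    (P2 := ((2 * H1 * ((2 * H1 + 1) * (S.k * (5 * S.Λ) + 1) ^ 2) ^ S.D : ℕ) : ℝ))
    (fun π hπ l => class_le_of_not_heavy hH S.H_le (Finset.mem_filter.1 hπ).2 l)
    (fun π hπ hQ l => class_le_of_not_heavy hH1' hk1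
      (fun hh => hQ (Finset.mem_filter.2 ⟨(Finset.mem_filter.1 hπ).1, hh⟩)) l)
    (by exact_mod_cast (Finset.card_filter_le _ _).trans S.card_Pat)
    (fun i l => by
      rw [Finset.filter_filter]
      exact_mod_cast S.card_Pat_heavy H1 hH1' hk1 i l)
    (by
      have e1 : 2 * η ^ 2 * S.k / ((S.k : ℝ) / H1) = 2 * η ^ 2 * H1 := by field_simp
      have e2 : 2 * η ^ 2 * S.k / ((S.k : ℝ) / S.H) = 2 * η ^ 2 * S.H := by field_simp
      rw [e1, e2]
      linarith)
  let W : Finset (ℤ × ℤ) :=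
    (Finset.Ico 0 (S.N : ℤ) ×ˢ Finset.Ico 0 (S.N : ℤ)).filter (fun w => ¬ (S.N : ℤ) ∣ w.2)
  let A := (W.filter (fun w => ¬ Heavy S.k S.H (S.pat w.1 w.2))).image (fun w => S.kp w.1 w.2)
  let B := (W.filter (fun w => Heavy S.k S.H (S.pat w.1 w.2))).image (fun w => S.kp w.1 w.2)
  have mult : ∀ w ∈ W, ∀ y, ((univ : Finset (Fin S.k)).filter
      (fun i => S.kp w.1 w.2 i = y)).card ≤ 2 := by
    intro w hw y
    refine le_trans (le_of_eq ?_) (S.key_mult w.1 w.2 (Finset.mem_filter.1 hw).2 y.1 y.2)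
    congr 1
    ext i
    simp [kp, Prod.ext_iff]
  have hNq : S.N ≤ q' ^ S.D := by
    calc S.N ≤ ∏ _j : Fin S.D, q' := Finset.prod_le_prod' (fun j _ => hq j)
      _ = q' ^ S.D := by simp
  have hA : A.card ≤ (q' ^ S.D) ^ 2 := by
    refine Finset.card_image_le.trans ((Finset.card_filter_le _ _).trans
      ((Finset.card_filter_le _ _).trans ?_))
    rw [Finset.card_product, Int.card_Ico]
    simp only [sub_zero, Int.toNat_natCast]
    rw [sq]
    exact Nat.mul_le_mul hNq hNq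
  obtain ⟨χ, hχ⟩ := Big.stage2L (K := (Fin S.D → ZMod S.M) × ℤ) (m := m1) (m' := S.k / 2) hk hr
    (fun y => φ y.1) A B
    (P3 := (((2 * S.H * ((2 * S.H + 1) * (S.k * (5 * S.Λ) + 1) ^ 2) ^ S.D)
            * (4 * S.D * q' ^ 2 + 1) ^ 3 : ℕ) : ℝ))
    (fun κ hκ y => by
      obtain ⟨w, hw, rfl⟩ := Finset.mem_image.1 hκ
      exact mult w (Finset.mem_filter.1 hw).1 y)
    (fun κ hκ y => by
      obtain ⟨w, hw, rfl⟩ := Finset.mem_image.1 hκ
      exact mult w (Finset.mem_filter.1 hw).1 y)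
    (fun κ hκ c => by
      obtain ⟨w, hw, rfl⟩ := Finset.mem_image.1 hκ
      have := hφ (S.pat w.1 w.2)
        (Finset.mem_filter.2 ⟨S.mem_Pat.2 ⟨_, _, rfl⟩, (Finset.mem_filter.1 hw).2⟩) c
      exact_mod_cast hm.trans this)
    (Nat.mul_div_le _ _)
    (fun i y => by
      let I : Finset ℤ := Finset.Icc (-(2 * S.D * q' ^ 2 : ℤ)) (2 * S.D * q' ^ 2)
      have hI : I.card = 4 * S.D * q' ^ 2 + 1 := by
        simp only [I, Int.card_Icc]
        have : (2 * S.D * q' ^ 2 + 1 - -(2 * S.D * q' ^ 2) : ℤ)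
            = ((4 * S.D * q' ^ 2 + 1 : ℕ) : ℤ) := by push_cast; ring
        rw [this, Int.toNat_natCast]
      have hsub : B.filter (fun κ => κ i = y) ⊆
          ((S.Pat.filter (fun π => Heavy S.k S.H π ∧ π i = y.1)) ×ˢ (I ×ˢ I ×ˢ I)).image
            (fun z => fun i' : Fin S.k => (z.1 i',
              z.2.1 + z.2.2.1 * ((i' : ℕ) : ℤ) + z.2.2.2 * ((i' : ℕ) : ℤ) ^ 2)) := by
        intro κ hκ
        obtain ⟨hB, hy⟩ := Finset.mem_filter.1 hκ
        obtain ⟨w, hw, rfl⟩ := Finset.mem_image.1 hB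
        have hh := (Finset.mem_filter.1 hw).2
        obtain ⟨a, b, c, ha, hb, hc, hQ⟩ := S.heavy_quadratic q' hq w.1 w.2 hh
        refine Finset.mem_image.2 ⟨(S.pat w.1 w.2, a, b, c), ?_, ?_⟩
        · simp only [Finset.mem_product, Finset.mem_filter, I, Finset.mem_Icc]
          exact ⟨⟨S.mem_Pat.2 ⟨_, _, rfl⟩, hh, by rw [← hy]; rfl⟩, abs_le.1 ha, abs_le.1 hb,
            abs_le.1 hc⟩
        · funext i'
          simp only [kp, hQ]
      have h1 := (Finset.card_le_card hsub).trans Finset.card_image_le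
      rw [Finset.card_product, Finset.card_product, Finset.card_product, hI] at h1
      have h2 := S.card_Pat_heavy S.H hH S.H_le i y.1
      have h3 : (B.filter (fun κ => κ i = y)).card
          ≤ (2 * S.H * ((2 * S.H + 1) * (S.k * (5 * S.Λ) + 1) ^ 2) ^ S.D)
            * (4 * S.D * q' ^ 2 + 1) ^ 3 :=
        h1.trans (Nat.mul_le_mul h2 (le_of_eq (by ring)))
      exact_mod_cast h3)
    (by
      refine le_trans ?_ hS2
      have : (A.card : ℝ) ≤ (((q' ^ S.D) ^ 2 : ℕ) : ℝ) := by exact_mod_cast hA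
      gcongr)
  refine ⟨fun x => χ (S.lab x, S.Q x), fun a d hd c => ?_⟩
  have hN := S.N_pos
  have hW : (a % S.N, d % S.N) ∈ W := by
    refine Finset.mem_filter.2 ⟨Finset.mem_product.2 ⟨Finset.mem_Ico.2
      ⟨Int.emod_nonneg _ hN.ne', Int.emod_lt_of_pos _ hN⟩, Finset.mem_Ico.2
      ⟨Int.emod_nonneg _ hN.ne', Int.emod_lt_of_pos _ hN⟩⟩, fun h => hd ?_⟩
    have e := Int.emod_add_mul_ediv d S.N
    rw [← e]
    exact dvd_add h (Dvd.intro _ rfl)
  have hAB : S.kp a d ∈ A ∨ S.kp a d ∈ B := by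
    rw [← S.kp_red]
    by_cases hh : Heavy S.k S.H (S.pat (a % S.N) (d % S.N))
    · exact Or.inr (Finset.mem_image.2 ⟨_, Finset.mem_filter.2 ⟨hW, hh⟩, rfl⟩)
    · exact Or.inl (Finset.mem_image.2 ⟨_, Finset.mem_filter.2 ⟨hW, hh⟩, rfl⟩)
  exact hχ _ hAB c

end Data

end Pool.Agent.MP_a31471_co.sx

end MrgPart7

-- marker of a merged file
example : 731051 + 766600 = 731051 + 766600 := rfl
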