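import Mathlib.Algebra.BigOperators.Field
import Mathlib.Analysis.SpecialFunctions.Pow.Asymptotics
import Mathlib.Analysis.Complex.ExponentialBounds
import Mathlib.NumberTheory.Bertrand
import Pool.Agent.MP_a31471_co.sx.Colour

-- ======== part 0: formerly Pool.Agent.MP_a31471_co.sx.Prob
section MrgPart0

/-!
Counting tools: a form of the local lemma, a Hoeffding bound, and a weighted union bound.
-/

set_option autoImplicit false

namespace Pool.Agent.MP_a31471_co.sx

open Finset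

section LocalLemma

variable {V : Type*} [Fintype V] [DecidableEq V]

/-- Independence of events that read disjoint sets of variables. -/
theorem card_inter_mul {α : Type*} [Fintype α] [DecidableEq α] (S : Finset V) (A B : Finset (V → α))
    (hA : ∀ f g : V → α, (∀ v ∈ S, f v = g v) → f ∈ A → g ∈ A)
    (hB : ∀ f g : V → α, (∀ v, v ∉ S → f v = g v) → f ∈ B → g ∈ B) :
    (A ∩ B).card * Fintype.card α ^ Fintype.card V = A.card * B.card := by
  classical
  have h2 : Fintype.card α ^ Fintype.card V = (univ : Finset (V → α)).card := by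
    simp [Finset.card_univ]
  rw [h2, ← Finset.card_product, ← Finset.card_product]
  refine Finset.card_bij'
    (fun w _ => (S.piecewise w.1 w.2, S.piecewise w.2 w.1))
    (fun w _ => (S.piecewise w.1 w.2, S.piecewise w.2 w.1)) ?_ ?_ ?_ ?_
  · rintro ⟨f, g⟩ hw
    simp only [Finset.mem_product, Finset.mem_inter, Finset.mem_univ, and_true] at hw ⊢
    refine ⟨hA f _ (fun v hv => ?_) hw.1, hB f _ (fun v hv => ?_) hw.2⟩
    · simp [Finset.piecewise, hv]
    · simp [Finset.piecewise, hv]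
  · rintro ⟨f, g⟩ hw
    simp only [Finset.mem_product, Finset.mem_inter, Finset.mem_univ, and_true] at hw ⊢
    refine ⟨hA f _ (fun v hv => ?_) hw.1, hB g _ (fun v hv => ?_) hw.2⟩
    · simp [Finset.piecewise, hv]
    · simp [Finset.piecewise, hv]
  · rintro ⟨f, g⟩ _
    refine Prod.ext ?_ ?_ <;> funext v <;> by_cases hv : v ∈ S <;> simp [Finset.piecewise, hv]
  · rintro ⟨f, g⟩ _
    refine Prod.ext ?_ ?_ <;> funext v <;> by_cases hv : v ∈ S <;> simp [Finset.piecewise, hv]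

/-- The local lemma in the form used here. -/
theorem local_lemma {α : Type*} [Fintype α] [DecidableEq α] [Nonempty α]
    {ι : Type*} [DecidableEq ι] (E : Finset ι) (S : ι → Finset V)
    (A : ι → Finset (V → α))
    (hdep : ∀ i, ∀ f g : V → α, (∀ v ∈ S i, f v = g v) → f ∈ A i → g ∈ A i)
    (p : ι → ℝ) (hp : ∀ i ∈ E, ((A i).card : ℝ) ≤ p i * (Fintype.card α : ℝ) ^ Fintype.card V)
    (hne : ∀ i ∈ E, (S i).Nonempty)
    (hsum : ∀ i ∈ E, ∑ j ∈ E.filter (fun j => ¬ Disjoint (S j) (S i)), p j ≤ 1 / 4) :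
    ∃ f : V → α, ∀ i ∈ E, f ∉ A i := by
  classical
  let G : Finset ι → Finset (V → α) := fun T => univ.filter (fun f => ∀ j ∈ T, f ∉ A j)
  have hp0 : ∀ i ∈ E, 0 ≤ p i := by
    intro i hi
    have h1 := hp i hi
    have h2 : (0 : ℝ) < (Fintype.card α : ℝ) ^ Fintype.card V :=
      pow_pos (by exact_mod_cast Fintype.card_pos) _
    by_contra hneg
    push Not at hneg
    have : p i * (Fintype.card α : ℝ) ^ Fintype.card V < 0 := mul_neg_of_neg_of_pos hneg h2
    have h3 : (0 : ℝ) ≤ (A i).card := by positivity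
    linarith
  have key : ∀ n : ℕ, ∀ T : Finset ι, T ⊆ E → T.card = n → ∀ i ∈ E,
      (((A i) ∩ G T).card : ℝ) ≤ 2 * p i * (G T).card := by
    intro n
    induction n using Nat.strong_induction_on with
    | _ n ih =>
      intro T hT hn i hi
      let T1 := T.filter (fun j => ¬ Disjoint (S j) (S i))
      let T2 := T.filter (fun j => Disjoint (S j) (S i))
      have hind : (((A i) ∩ G T2).card : ℝ) ≤ p i * (G T2).card := by
        have h1 := card_inter_mul (S i) (A i) (G T2) (hdep i) (by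
          intro f g hfg hf
          simp only [G, T2, Finset.mem_filter, Finset.mem_univ, true_and] at hf ⊢
          intro j hj hg
          refine hf j hj (hdep j g f (fun v hv => ?_) hg)
          exact (hfg v (Finset.disjoint_left.1 hj.2 hv)).symm)
        have h2 : (((A i) ∩ G T2).card : ℝ) * Fintype.card α ^ Fintype.card V
            = (A i).card * (G T2).card := by exact_mod_cast h1
        have h3 : (0 : ℝ) < (Fintype.card α : ℝ) ^ Fintype.card V :=
          pow_pos (by exact_mod_cast Fintype.card_pos) _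
        have h4 : ((A i).card : ℝ) * (G T2).card
            ≤ p i * (Fintype.card α : ℝ) ^ Fintype.card V * (G T2).card :=
          mul_le_mul_of_nonneg_right (hp i hi) (by positivity)
        have h5 : (((A i) ∩ G T2).card : ℝ) * Fintype.card α ^ Fintype.card V
            ≤ (p i * (G T2).card) * Fintype.card α ^ Fintype.card V := by rw [h2]; linarith
        exact le_of_mul_le_mul_right h5 h3
      have hsub : (A i) ∩ G T ⊆ (A i) ∩ G T2 := by
        intro f hf
        simp only [G, T2, Finset.mem_inter, Finset.mem_filter, Finset.mem_univ, true_and] at hf ⊢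
        exact ⟨hf.1, fun j hj => hf.2 j hj.1⟩
      have hhalf : ((G T2).card : ℝ) ≤ 2 * (G T).card := by
        by_cases h0 : T1 = ∅
        · have : T2 = T := by
            refine Finset.filter_true_of_mem (fun j hj => ?_)
            by_contra hd
            have : j ∈ T1 := Finset.mem_filter.2 ⟨hj, hd⟩
            rw [h0] at this
            exact absurd this (Finset.notMem_empty _)
          rw [this]
          have : (0 : ℝ) ≤ (G T).card := by positivity
          linarith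
        · obtain ⟨j0, hj0⟩ := Finset.nonempty_iff_ne_empty.2 h0
          have hlt : T2.card < n := by
            rw [← hn]
            refine Finset.card_lt_card ⟨Finset.filter_subset _ _, fun hs => ?_⟩
            have h1 := Finset.mem_filter.1 hj0
            exact h1.2 (Finset.mem_filter.1 (hs h1.1)).2
          have hT2 : T2 ⊆ E := (Finset.filter_subset _ _).trans hT
          have hcov : G T2 ⊆ G T ∪ T1.biUnion (fun j => A j ∩ G T2) := by
            intro f hf
            by_cases hfT : f ∈ G T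
            · exact Finset.mem_union_left _ hfT
            · refine Finset.mem_union_right _ ?_
              have hf' := hf
              simp only [G, Finset.mem_filter, Finset.mem_univ, true_and] at hfT hf'
              push Not at hfT
              obtain ⟨j, hj, hfj⟩ := hfT
              refine Finset.mem_biUnion.2 ⟨j, ?_, Finset.mem_inter.2 ⟨hfj, hf⟩⟩
              refine Finset.mem_filter.2 ⟨hj, fun hd => ?_⟩
              exact hf' j (Finset.mem_filter.2 ⟨hj, hd⟩) hfj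
          have h1 : ((G T2).card : ℝ) ≤ (G T).card + ∑ j ∈ T1, ((A j ∩ G T2).card : ℝ) := by
            have := (Finset.card_le_card hcov).trans ((Finset.card_union_le _ _).trans
              (Nat.add_le_add_left Finset.card_biUnion_le _))
            exact_mod_cast this
          have h2 : ∑ j ∈ T1, ((A j ∩ G T2).card : ℝ) ≤ ∑ j ∈ T1, 2 * p j * (G T2).card :=
            Finset.sum_le_sum (fun j hj => ih _ hlt T2 hT2 rfl j (hT (Finset.mem_filter.1 hj).1))
          have h3 : ∑ j ∈ T1, p j ≤ 1 / 4 := by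
            refine le_trans ?_ (hsum i hi)
            refine Finset.sum_le_sum_of_subset_of_nonneg
              (Finset.filter_subset_filter _ hT) (fun j hj _ => hp0 j (Finset.mem_filter.1 hj).1)
          have h4 : ∑ j ∈ T1, 2 * p j * ((G T2).card : ℝ)
              = 2 * (∑ j ∈ T1, p j) * (G T2).card := by
            rw [Finset.mul_sum, Finset.sum_mul]
          have h5 : (0 : ℝ) ≤ (G T2).card := by positivity
          nlinarith
      have h6 : (((A i) ∩ G T).card : ℝ) ≤ ((A i) ∩ G T2).card := by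
        exact_mod_cast Finset.card_le_card hsub
      have h7 := hp0 i hi
      nlinarith
  have pos : ∀ T : Finset ι, T ⊆ E → 0 < (G T).card := by
    intro T
    induction T using Finset.induction_on with
    | empty =>
      intro _
      refine Finset.card_pos.2 ⟨fun _ => Classical.arbitrary α, ?_⟩
      simp [G]
    | insert i T hiT ih =>
      intro hT
      have hi : i ∈ E := hT (Finset.mem_insert_self _ _)
      have hT' : T ⊆ E := (Finset.subset_insert _ _).trans hT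
      have h1 := key _ T hT' rfl i hi
      have h2 : p i ≤ 1 / 4 := by
        refine le_trans ?_ (hsum i hi)
        refine Finset.single_le_sum (f := p) (fun j hj => hp0 j (Finset.mem_filter.1 hj).1) ?_
        refine Finset.mem_filter.2 ⟨hi, ?_⟩
        rw [disjoint_self]
        exact (hne i hi).ne_empty
      have hcov : G T ⊆ G (insert i T) ∪ (A i ∩ G T) := by
        intro f hf
        by_cases hfi : f ∈ A i
        · exact Finset.mem_union_right _ (Finset.mem_inter.2 ⟨hfi, hf⟩)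
        · refine Finset.mem_union_left _ ?_
          simp only [G, Finset.mem_filter, Finset.mem_univ, true_and] at hf ⊢
          intro j hj
          rcases Finset.mem_insert.1 hj with rfl | hj
          · exact hfi
          · exact hf j hj
      have h3 : ((G T).card : ℝ) ≤ (G (insert i T)).card + (A i ∩ G T).card := by
        exact_mod_cast (Finset.card_le_card hcov).trans (Finset.card_union_le _ _)
      have h4 : (0 : ℝ) < (G T).card := by exact_mod_cast ih hT'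
      have h5 : (0 : ℝ) < (G (insert i T)).card := by nlinarith
      exact_mod_cast h5
  obtain ⟨f, hf⟩ := Finset.card_pos.1 (pos E (Finset.Subset.refl _))
  exact ⟨f, (Finset.mem_filter.1 hf).2⟩

/-- Hoeffding bound for a colouring of labels read along a pattern with small classes. -/
theorem hoeffding (k : ℕ) (π : Fin k → V) (M : ℝ) (hM : 0 < M)
    (hcl : ∀ v, (((univ : Finset (Fin k)).filter (fun i => π i = v)).card : ℝ) ≤ M) (c : Bool) :
    (((univ : Finset (V → Bool)).filter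
      (fun φ => 16 * ((univ : Finset (Fin k)).filter (fun i => φ (π i) = c)).card < 7 * k)).card : ℝ)
      ≤ Real.exp (-(k / (128 * M))) * 2 ^ Fintype.card V := by
  classical
  let w : V → ℝ := fun v => (((univ : Finset (Fin k)).filter (fun i => π i = v)).card : ℝ)
  let e : Bool → ℝ := fun b => if b = c then -1 else 1
  let t : ℝ := 1 / (8 * M)
  have ht : 0 < t := by positivity
  have hw0 : ∀ v, 0 ≤ w v := fun v => by positivity
  have hsumw : ∑ v, w v = k := by
    have := Finset.card_eq_sum_card_fiberwise (f := π) (s := (univ : Finset (Fin k)))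
      (t := (univ : Finset V)) (fun _ _ => Finset.mem_coe.2 (Finset.mem_univ _))
    simp only [Finset.card_univ, Fintype.card_fin] at this
    simp only [w]
    exact_mod_cast this.symm
  have hS : ∀ φ : V → Bool, ∑ v, w v * e (φ v)
      = k - 2 * (((univ : Finset (Fin k)).filter (fun i => φ (π i) = c)).card : ℝ) := by
    intro φ
    have h1 : ∑ v, w v * e (φ v) = ∑ i : Fin k, e (φ (π i)) := by
      rw [← Finset.sum_fiberwise (s := (univ : Finset (Fin k))) (g := π)]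
      refine Finset.sum_congr rfl (fun v _ => ?_)
      rw [Finset.sum_congr rfl (g := fun _ => e (φ v))
        (fun i hi => by rw [(Finset.mem_filter.1 hi).2])]
      simp [w]
    rw [h1]
    have h2 : ∀ i : Fin k, e (φ (π i)) = 1 - 2 * (if φ (π i) = c then (1 : ℝ) else 0) := by
      intro i
      simp only [e]
      split_ifs <;> norm_num
    simp only [h2, Finset.sum_sub_distrib, ← Finset.mul_sum, Finset.sum_boole]
    simp
  have hmgf : ∑ φ : V → Bool, Real.exp (t * ∑ v, w v * e (φ v))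
      ≤ Real.exp (t ^ 2 * (k * M) / 2) * 2 ^ Fintype.card V := by
    have h1 : ∑ φ : V → Bool, Real.exp (t * ∑ v, w v * e (φ v))
        = ∏ v, ∑ b : Bool, Real.exp (t * (w v * e b)) := by
      rw [Fintype.prod_sum]
      refine Finset.sum_congr rfl (fun φ _ => ?_)
      rw [Finset.mul_sum, Real.exp_sum]
    have h2 : ∀ v, ∑ b : Bool, Real.exp (t * (w v * e b))
        ≤ 2 * Real.exp (t ^ 2 * (w v * M) / 2) := by
      intro v
      have h3 : ∑ b : Bool, Real.exp (t * (w v * e b)) = 2 * Real.cosh (t * w v) := by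
        rw [Real.cosh_eq]
        cases c <;> simp [e] <;> ring
      rw [h3]
      have h4 := Real.cosh_le_exp_half_sq (t * w v)
      have h5 : (t * w v) ^ 2 / 2 ≤ t ^ 2 * (w v * M) / 2 := by
        have : w v * w v ≤ w v * M := mul_le_mul_of_nonneg_left (hcl v) (hw0 v)
        have h6 : 0 ≤ t ^ 2 := by positivity
        nlinarith
      have := Real.exp_le_exp.2 h5
      linarith
    rw [h1]
    refine le_trans (Finset.prod_le_prod (fun v _ => by positivity) (fun v _ => h2 v)) ?_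
    rw [Finset.prod_mul_distrib, ← Real.exp_sum, Finset.prod_const, Finset.card_univ, mul_comm]
    refine le_of_eq ?_
    congr 2
    rw [← Finset.sum_div, ← Finset.mul_sum, ← Finset.sum_mul, hsumw]
  set B := (univ : Finset (V → Bool)).filter
      (fun φ => 16 * ((univ : Finset (Fin k)).filter (fun i => φ (π i) = c)).card < 7 * k) with hB
  have hlow : (B.card : ℝ) * Real.exp (t * (k / 8))
      ≤ ∑ φ : V → Bool, Real.exp (t * ∑ v, w v * e (φ v)) := by
    calc (B.card : ℝ) * Real.exp (t * (k / 8)) = ∑ _φ ∈ B, Real.exp (t * (k / 8)) := by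
          rw [Finset.sum_const, nsmul_eq_mul]
      _ ≤ ∑ φ ∈ B, Real.exp (t * ∑ v, w v * e (φ v)) := by
          refine Finset.sum_le_sum (fun φ hφ => Real.exp_le_exp.2 ?_)
          refine mul_le_mul_of_nonneg_left ?_ ht.le
          rw [hS]
          have h1 := (Finset.mem_filter.1 hφ).2
          have h2 : (16 : ℝ) * (((univ : Finset (Fin k)).filter (fun i => φ (π i) = c)).card : ℝ)
              < 7 * k := by exact_mod_cast h1
          linarith
      _ ≤ _ := Finset.sum_le_sum_of_subset_of_nonneg (Finset.subset_univ _)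
          (fun _ _ _ => by positivity)
  have hE : Real.exp (t ^ 2 * (k * M) / 2)
      = Real.exp (-(k / (128 * M))) * Real.exp (t * (k / 8)) := by
    rw [← Real.exp_add]
    congr 1
    simp only [t]
    field_simp
    ring
  have h9 : (B.card : ℝ) * Real.exp (t * (k / 8))
      ≤ (Real.exp (-(k / (128 * M))) * 2 ^ Fintype.card V) * Real.exp (t * (k / 8)) := by
    refine hlow.trans (hmgf.trans (le_of_eq ?_))
    rw [hE]; ring
  exact le_of_mul_le_mul_right h9 (Real.exp_pos _)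

end LocalLemma

/-- Weighted union bound: independent bits that are true with probability `p`. -/
theorem union_bound {K J : Type*} [Fintype K] [DecidableEq K] (p : ℝ) (hp0 : 0 ≤ p) (hp1 : p ≤ 1)
    (F : Finset J) (T : J → Finset K) (want : J → K → Bool)
    (hs : ∑ j ∈ F, ∏ κ ∈ T j, (if want j κ then p else 1 - p) < 1) :
    ∃ ψ : K → Bool, ∀ j ∈ F, ∃ κ ∈ T j, ψ κ ≠ want j κ := by
  classical
  by_contra hcon
  push Not at hcon
  let w : Bool → ℝ := fun b => if b then p else 1 - p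
  have hw0 : ∀ b, 0 ≤ w b := fun b => by cases b <;> simp [w] <;> linarith
  have htot : ∑ ψ : K → Bool, ∏ κ, w (ψ κ) = 1 := by
    rw [← Fintype.prod_sum (fun (_ : K) (b : Bool) => w b)]
    simp [w]
  have hev : ∀ j, ∑ ψ : K → Bool, (if ∀ κ ∈ T j, ψ κ = want j κ then ∏ κ, w (ψ κ) else 0)
      = ∏ κ ∈ T j, w (want j κ) := by
    intro j
    have h1 : ∀ ψ : K → Bool, (if ∀ κ ∈ T j, ψ κ = want j κ then ∏ κ, w (ψ κ) else 0)
        = ∏ κ, (if κ ∈ T j → ψ κ = want j κ then w (ψ κ) else 0) := by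
      intro ψ
      split_ifs with h
      · exact Finset.prod_congr rfl (fun κ _ => by rw [if_pos (h κ)])
      · push Not at h
        obtain ⟨κ, h1, h2⟩ := h
        exact (Finset.prod_eq_zero (Finset.mem_univ κ) (by rw [if_neg (fun h3 => h2 (h3 h1))])).symm
    simp only [h1]
    rw [← Fintype.prod_sum
      (fun (κ : K) (b : Bool) => if κ ∈ T j → b = want j κ then w b else 0)]
    rw [← Finset.prod_filter_mul_prod_filter_not univ (fun κ => κ ∈ T j)]
    have h2 : ∏ κ ∈ univ.filter (fun κ => ¬ κ ∈ T j),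
        ∑ b : Bool, (if κ ∈ T j → b = want j κ then w b else 0) = 1 := by
      refine Finset.prod_eq_one (fun κ hκ => ?_)
      have := (Finset.mem_filter.1 hκ).2
      simp [this, w]
    rw [h2, mul_one]
    have h3 : univ.filter (fun κ => κ ∈ T j) = T j := by ext κ; simp
    rw [h3]
    refine Finset.prod_congr rfl (fun κ hκ => ?_)
    simp [hκ]
  have h4 : ∑ ψ : K → Bool, ∏ κ, w (ψ κ)
      ≤ ∑ ψ : K → Bool, ∑ j ∈ F,
        (if ∀ κ ∈ T j, ψ κ = want j κ then ∏ κ, w (ψ κ) else 0) := by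
    refine Finset.sum_le_sum (fun ψ _ => ?_)
    obtain ⟨j, hj, hψ⟩ := hcon ψ
    refine le_trans ?_ (Finset.single_le_sum (f := fun j =>
      (if ∀ κ ∈ T j, ψ κ = want j κ then ∏ κ, w (ψ κ) else 0)) (fun j _ => ?_) hj)
    · rw [if_pos hψ]
    · split_ifs
      · exact Finset.prod_nonneg (fun _ _ => hw0 _)
      · exact le_rfl
  rw [htot, Finset.sum_comm] at h4
  simp only [hev] at h4
  exact absurd hs (not_lt.2 h4)

end Pool.Agent.MP_a31471_co.sx

end MrgPart0

-- ======== part 1: formerly Pool.Agent.MP_a31471_co.sx.Cond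
section MrgPart1

/-!
The local lemma with a bound for further events, and sparse flips that avoid one family of
patterns while making few patterns of a second family monochromatic.
-/

set_option autoImplicit false

namespace Pool.Agent.MP_a31471_co.sx

open Finset

theorem local_lemma_cond {V : Type*} [Fintype V] [DecidableEq V]
    {α : Type*} [Fintype α] [DecidableEq α] [Nonempty α]
    {ι : Type*} [DecidableEq ι] (E : Finset ι) (S : ι → Finset V)
    (A : ι → Finset (V → α))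
    (hdep : ∀ i, ∀ f g : V → α, (∀ v ∈ S i, f v = g v) → f ∈ A i → g ∈ A i)
    (p : ι → ℝ) (hp0 : ∀ i ∈ E, 0 ≤ p i)
    (hp : ∀ i ∈ E, ((A i).card : ℝ) ≤ p i * Fintype.card (V → α))
    (hsum : ∀ i ∈ E, ∑ j ∈ E.filter (fun j => ¬ Disjoint (S j) (S i)), p j ≤ 1 / 4)
    (T : Finset ι) (hT : T ⊆ E) (S' : Finset V) (A' : Finset (V → α)) (p' : ℝ) (hp0' : 0 ≤ p')
    (hdep' : ∀ f g : V → α, (∀ v ∈ S', f v = g v) → f ∈ A' → g ∈ A')
    (hp' : (A'.card : ℝ) ≤ p' * Fintype.card (V → α))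
    (hsum' : ∑ j ∈ E.filter (fun j => ¬ Disjoint (S j) S'), p j ≤ 1 / 4) :
    ((A' ∩ univ.filter (fun f : V → α => ∀ j ∈ T, f ∉ A j)).card : ℝ)
      ≤ 2 * p' * (univ.filter (fun f : V → α => ∀ j ∈ T, f ∉ A j)).card := by
  classical
  let G : Finset ι → Finset (V → α) := fun T => univ.filter (fun f => ∀ j ∈ T, f ∉ A j)
  have hc : (Fintype.card (V → α) : ℝ) = (Fintype.card α : ℝ) ^ Fintype.card V := by
    rw [Fintype.card_fun]; push_cast; rfl
  show ((A' ∩ G T).card : ℝ) ≤ 2 * p' * (G T).card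
  induction hn : T.card using Nat.strong_induction_on generalizing T S' A' p' with
  | _ n ih =>
    let T1 := T.filter (fun j => ¬ Disjoint (S j) S')
    let T2 := T.filter (fun j => Disjoint (S j) S')
    have hind : ((A' ∩ G T2).card : ℝ) ≤ p' * (G T2).card := by
      have h1 := card_inter_mul S' A' (G T2) hdep' (by
        intro f g hfg hf
        simp only [G, T2, Finset.mem_filter, Finset.mem_univ, true_and] at hf ⊢
        intro j hj hg
        refine hf j hj (hdep j g f (fun v hv => ?_) hg)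
        exact (hfg v (Finset.disjoint_left.1 hj.2 hv)).symm)
      have h2 : ((A' ∩ G T2).card : ℝ) * (Fintype.card α : ℝ) ^ Fintype.card V
          = A'.card * (G T2).card := by exact_mod_cast h1
      have h3 : (0 : ℝ) < (Fintype.card α : ℝ) ^ Fintype.card V :=
        pow_pos (by exact_mod_cast Fintype.card_pos) _
      rw [hc] at hp'
      have h4 : (A'.card : ℝ) * (G T2).card
          ≤ p' * (Fintype.card α : ℝ) ^ Fintype.card V * (G T2).card :=
        mul_le_mul_of_nonneg_right hp' (by positivity)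
      have h5 : ((A' ∩ G T2).card : ℝ) * (Fintype.card α : ℝ) ^ Fintype.card V
          ≤ (p' * (G T2).card) * (Fintype.card α : ℝ) ^ Fintype.card V := by rw [h2]; linarith
      exact le_of_mul_le_mul_right h5 h3
    have hsub : A' ∩ G T ⊆ A' ∩ G T2 := by
      intro f hf
      simp only [G, T2, Finset.mem_inter, Finset.mem_filter, Finset.mem_univ, true_and] at hf ⊢
      exact ⟨hf.1, fun j hj => hf.2 j hj.1⟩
    have hhalf : ((G T2).card : ℝ) ≤ 2 * (G T).card := by
      by_cases h0 : T1 = ∅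
      · have : T2 = T := by
          refine Finset.filter_true_of_mem (fun j hj => ?_)
          by_contra hd
          have : j ∈ T1 := Finset.mem_filter.2 ⟨hj, hd⟩
          rw [h0] at this
          exact absurd this (Finset.notMem_empty _)
        rw [this]
        have : (0 : ℝ) ≤ (G T).card := by positivity
        linarith
      · obtain ⟨j0, hj0⟩ := Finset.nonempty_iff_ne_empty.2 h0
        have hlt : T2.card < n := by
          rw [← hn]
          refine Finset.card_lt_card ⟨Finset.filter_subset _ _, fun hs => ?_⟩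
          have h1 := Finset.mem_filter.1 hj0
          exact h1.2 (Finset.mem_filter.1 (hs h1.1)).2
        have hT2 : T2 ⊆ E := (Finset.filter_subset _ _).trans hT
        have hcov : G T2 ⊆ G T ∪ T1.biUnion (fun j => A j ∩ G T2) := by
          intro f hf
          by_cases hfT : f ∈ G T
          · exact Finset.mem_union_left _ hfT
          · refine Finset.mem_union_right _ ?_
            have hf' := hf
            simp only [G, Finset.mem_filter, Finset.mem_univ, true_and] at hfT hf'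
            push Not at hfT
            obtain ⟨j, hj, hfj⟩ := hfT
            refine Finset.mem_biUnion.2 ⟨j, ?_, Finset.mem_inter.2 ⟨hfj, hf⟩⟩
            refine Finset.mem_filter.2 ⟨hj, fun hd => ?_⟩
            exact hf' j (Finset.mem_filter.2 ⟨hj, hd⟩) hfj
        have h1 : ((G T2).card : ℝ) ≤ (G T).card + ∑ j ∈ T1, ((A j ∩ G T2).card : ℝ) := by
          have := (Finset.card_le_card hcov).trans ((Finset.card_union_le _ _).trans
            (Nat.add_le_add_left Finset.card_biUnion_le _))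
          exact_mod_cast this
        have h2 : ∑ j ∈ T1, ((A j ∩ G T2).card : ℝ) ≤ ∑ j ∈ T1, 2 * p j * (G T2).card := by
          refine Finset.sum_le_sum (fun j hj => ?_)
          have hjE := hT (Finset.mem_filter.1 hj).1
          exact ih _ hlt T2 hT2 (S j) (A j) (p j) (hp0 j hjE) (hdep j) (hp j hjE) (hsum j hjE) rfl
        have h3 : ∑ j ∈ T1, p j ≤ 1 / 4 := by
          refine le_trans ?_ hsum'
          refine Finset.sum_le_sum_of_subset_of_nonneg
            (Finset.filter_subset_filter _ hT) (fun j hj _ => hp0 j (Finset.mem_filter.1 hj).1)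
        have h4 : ∑ j ∈ T1, 2 * p j * ((G T2).card : ℝ)
            = 2 * (∑ j ∈ T1, p j) * (G T2).card := by
          rw [Finset.mul_sum, Finset.sum_mul]
        have h5 : (0 : ℝ) ≤ (G T2).card := by positivity
        nlinarith
    have h6 : ((A' ∩ G T).card : ℝ) ≤ (A' ∩ G T2).card := by
      exact_mod_cast Finset.card_le_card hsub
    nlinarith

theorem stage2c_core {ι ι' K : Type*} [Fintype ι] [Fintype ι'] [Fintype K] [DecidableEq K]
    {k r m m' : ℕ} (hk : 0 < k) (hr : 2 ≤ r) (b : K → Bool) (A : ι → Fin k → K)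
    (B : ι' → Fin k → K) {P3 : ℝ}
    (hA2 : ∀ j y, (univ.filter fun i => A j i = y).card ≤ 2)
    (hB2 : ∀ j y, (univ.filter fun i => B j i = y).card ≤ 2)
    (hA : ∀ j c, 2 * m ≤ (univ.filter fun i => b (A j i) = c).card) (hm' : 2 * m' ≤ k)
    (hP : ∀ i y, ((univ.filter fun j => B j i = y).card : ℝ) ≤ P3)
    (hs : 8 * k * (k * P3 * (1 - 1 / r : ℝ) ^ m') ≤ 1) :
    ∃ χ : K → Bool, (∀ j c, ∃ i, χ (B j i) ≠ c) ∧
      ((univ.filter fun j => ∃ c, ∀ i, χ (A j i) = c).card : ℝ)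
        ≤ 4 * (1 / r : ℝ) ^ m * Fintype.card ι := by
  classical
  have : NeZero r := ⟨by omega⟩
  have hk' : (0 : ℝ) < k := by exact_mod_cast hk
  have hr' : (2 : ℝ) ≤ r := by exact_mod_cast hr
  have hh : (1 / r : ℝ) ≤ 1 / 2 := one_div_le_one_div_of_le (by norm_num) hr'
  have p1 : (0 : ℝ) ≤ (1 / r : ℝ) ^ m := by positivity
  have p2 : (0 : ℝ) ≤ (1 - 1 / r : ℝ) ^ m' := pow_nonneg (by linarith) _
  let ev : (Fin k → K) → Finset (K → Fin r) := fun κ =>
    univ.filter (fun ψ => ∃ c, ∀ i, Big.flipc b ψ (κ i) = c)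
  have dep : ∀ κ : Fin k → K, ∀ f g : K → Fin r, (∀ v ∈ univ.image κ, f v = g v) →
      f ∈ ev κ → g ∈ ev κ := by
    intro κ f g h hf
    obtain ⟨c, hc⟩ := (mem_filter.1 hf).2
    refine mem_filter.2 ⟨mem_univ _, c, fun i => ?_⟩
    rw [← hc i, Big.flipc, Big.flipc, h _ (mem_image_of_mem _ (mem_univ i))]
  have nb : ∀ κ : Fin k → K, ∑ _j ∈ (univ : Finset ι').filter
      (fun j => ¬ Disjoint (univ.image (B j)) (univ.image κ)), 2 * (1 - 1 / r : ℝ) ^ m' ≤ 1 / 4 := by
    intro κ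
    rw [sum_const, nsmul_eq_mul]
    have b1 : ((univ : Finset ι').filter
        (fun j => ¬ Disjoint (univ.image (B j)) (univ.image κ))).card
        ≤ ∑ z : Fin k × Fin k, (univ.filter fun j => B j z.1 = κ z.2).card := by
      refine le_trans (card_le_card fun j hj => ?_) card_biUnion_le
      obtain ⟨y, h1, h2⟩ := Finset.not_disjoint_iff.1 (mem_filter.1 hj).2
      obtain ⟨i, -, rfl⟩ := mem_image.1 h1
      obtain ⟨i', -, hi'⟩ := mem_image.1 h2
      exact mem_biUnion.2 ⟨(i, i'), mem_univ _, mem_filter.2 ⟨mem_univ _, hi'.symm⟩⟩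
    have b2 := (Nat.cast_le (α := ℝ)).2 b1
    rw [Nat.cast_sum] at b2
    have b3 := b2.trans (sum_le_sum fun z _ => hP z.1 (κ z.2))
    simp only [sum_const, card_univ, Fintype.card_prod, Fintype.card_fin, nsmul_eq_mul] at b3
    push_cast at b3
    nlinarith [mul_le_mul_of_nonneg_right b3 p2]
  have pB : ∀ j, ((ev (B j)).card : ℝ)
      ≤ 2 * (1 - 1 / r : ℝ) ^ m' * Fintype.card (K → Fin r) := fun j => by
    have := Big.mono_two b (B j) (Big.mono_any hr b (B j) (hB2 j) hm')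
    simpa only [mul_assoc] using this
  have pA : ∀ j, ((ev (A j)).card : ℝ)
      ≤ 2 * (1 / r : ℝ) ^ m * Fintype.card (K → Fin r) := fun j => by
    have := Big.mono_two b (A j) (Big.mono_bal (r := r) b (A j) (hA2 j) (hA j))
    simpa only [mul_assoc] using this
  set G : Finset (K → Fin r) := univ.filter (fun f => ∀ j ∈ (univ : Finset ι'), f ∉ ev (B j))
    with hG
  have hGne : G.Nonempty := by
    obtain ⟨f, hf⟩ := local_lemma (univ : Finset ι') (fun j => univ.image (B j))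
      (fun j => ev (B j)) (fun j => dep (B j)) (fun _ => 2 * (1 - 1 / r : ℝ) ^ m')
      (fun j _ => by
        have := pB j
        rw [Fintype.card_fun] at this
        exact_mod_cast this)
      (fun j _ => ⟨B j ⟨0, hk⟩, by simp⟩) (fun j _ => nb (B j))
    exact ⟨f, mem_filter.2 ⟨mem_univ _, hf⟩⟩
  have hcond : ∀ j, ((ev (A j) ∩ G).card : ℝ) ≤ 2 * (2 * (1 / r : ℝ) ^ m) * G.card := fun j => by
    convert local_lemma_cond (univ : Finset ι') (fun j => univ.image (B j)) (fun j => ev (B j))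
      (fun j => dep (B j)) (fun _ => 2 * (1 - 1 / r : ℝ) ^ m') (fun _ _ => by linarith)
      (fun j _ => pB j) (fun j _ => nb (B j)) univ (Finset.Subset.refl _) (univ.image (A j))
      (ev (A j)) _ (by linarith) (dep (A j)) (pA j) (nb (A j))
  have hswap : ∑ ψ ∈ G, ((univ.filter fun j => ψ ∈ ev (A j)).card : ℝ)
      = ∑ j, ((ev (A j) ∩ G).card : ℝ) := by
    simp only [card_filter, Nat.cast_sum]
    rw [sum_comm]
    refine sum_congr rfl (fun j _ => ?_)
    rw [inter_comm, ← filter_mem_eq_inter, card_filter, Nat.cast_sum]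
  have hle : ∑ ψ ∈ G, ((univ.filter fun j => ψ ∈ ev (A j)).card : ℝ)
      ≤ ∑ _ψ ∈ G, 4 * (1 / r : ℝ) ^ m * Fintype.card ι := by
    rw [hswap]
    refine (sum_le_sum (fun j _ => hcond j)).trans (le_of_eq ?_)
    simp only [sum_const, card_univ, nsmul_eq_mul]
    ring
  obtain ⟨ψ, hψ, hb⟩ := exists_le_of_sum_le hGne hle
  refine ⟨Big.flipc b ψ, fun j c => ?_, ?_⟩
  · by_contra h
    push Not at h
    exact (mem_filter.1 hψ).2 j (mem_univ _) (mem_filter.2 ⟨mem_univ _, c, h⟩)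
  · refine le_trans (le_of_eq ?_) hb
    congr 2
    ext j
    simp [ev]

/-- A colouring of the keys under which no pattern of `B` and few patterns of the family `A`
are monochromatic. -/
theorem stage2c {J K : Type*} [DecidableEq K] {k r m m' : ℕ} (hk : 0 < k) (hr : 2 ≤ r)
    (b : K → Bool) (F : Finset J) (A : J → Fin k → K) (B : Finset (Fin k → K)) {P3 : ℝ}
    (hA2 : ∀ w ∈ F, ∀ y, (univ.filter fun i => A w i = y).card ≤ 2)
    (hB2 : ∀ κ ∈ B, ∀ y, (univ.filter fun i => κ i = y).card ≤ 2)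
    (hA : ∀ w ∈ F, ∀ c, 2 * m ≤ (univ.filter fun i => b (A w i) = c).card) (hm' : 2 * m' ≤ k)
    (hP : ∀ i y, ((B.filter fun κ => κ i = y).card : ℝ) ≤ P3)
    (hs : 8 * k * (k * P3 * (1 - 1 / r : ℝ) ^ m') ≤ 1) :
    ∃ χ : K → Bool, (∀ κ ∈ B, ∀ c, ∃ i, χ (κ i) ≠ c) ∧
      ((F.filter fun w => ∃ c, ∀ i, χ (A w i) = c).card : ℝ) ≤ 4 * (1 / r : ℝ) ^ m * F.card := by
  classical
  set U : Finset K := (F.image A ∪ B).biUnion fun π => univ.image π with hU
  have hmA : ∀ (j : F) (i : Fin k), A j.1 i ∈ U := fun j i =>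
    mem_biUnion.2 ⟨A j.1, mem_union_left _ (mem_image_of_mem _ j.2), mem_image_of_mem _ (mem_univ i)⟩
  have hmB : ∀ (j : B) (i : Fin k), j.1 i ∈ U := fun j i =>
    mem_biUnion.2 ⟨j.1, mem_union_right _ j.2, mem_image_of_mem _ (mem_univ i)⟩
  obtain ⟨χ, h1, h2⟩ := stage2c_core (ι := F) (ι' := B) (K := U) (m := m) (P3 := P3) hk hr
    (fun y => b y.1) (fun j i => ⟨A j.1 i, hmA j i⟩) (fun j i => ⟨j.1 i, hmB j i⟩)
    (fun j y => by simpa only [Subtype.ext_iff] using hA2 j.1 j.2 y.1)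
    (fun j y => by simpa only [Subtype.ext_iff] using hB2 j.1 j.2 y.1)
    (fun j c => hA j.1 j.2 c) hm'
    (fun i y => by
      refine le_trans ?_ (hP i y.1)
      refine Nat.cast_le.2 (card_le_card_of_injOn (fun j => j.1) (fun j hj => ?_)
        fun _ _ _ _ h => Subtype.ext h)
      have := (mem_filter.1 (mem_coe.1 hj)).2
      exact mem_coe.2 (mem_filter.2 ⟨j.2, congrArg Subtype.val this⟩))
    hs
  refine ⟨fun y => if h : y ∈ U then χ ⟨y, h⟩ else true, fun κ hκ c => ?_, ?_⟩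
  · obtain ⟨i, hi⟩ := h1 ⟨κ, hκ⟩ c
    exact ⟨i, by simpa only [dif_pos (hmB ⟨κ, hκ⟩ _)] using hi⟩
  · rw [Fintype.card_coe] at h2
    refine le_trans ?_ h2
    refine Nat.cast_le.2 ?_
    rw [← Finset.card_image_of_injective _ (Subtype.val_injective (p := fun w => w ∈ F))]
    refine card_le_card (fun w hw => ?_)
    obtain ⟨hwF, c, hc⟩ := mem_filter.1 hw
    refine mem_image.2 ⟨⟨w, hwF⟩, mem_filter.2 ⟨mem_univ _, c, fun i => ?_⟩, rfl⟩
    have h3 : A w i ∈ U := hmA ⟨w, hwF⟩ i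
    simpa only [dif_pos h3] using hc i

end Pool.Agent.MP_a31471_co.sx

end MrgPart1

-- ======== part 2: formerly Pool.Agent.MP_a31471_co.sx.Num8
section MrgPart2

/-!
The choice of the parameters.
-/

set_option autoImplicit false

namespace Pool.Agent.MP_a31471_co.sx

namespace Num8

theorem n1 (k H D : ℕ) (hk : 100 ≤ k) (hH : 2 * H ≤ k) :
    2 * H * ((2 * H + 1) * (k * (5 * (2 * (8 * k ^ 2) + 1)) + 1) ^ 2) ^ D ≤ k ^ (10 * D + 1) := by
  have h1 : k * (5 * (2 * (8 * k ^ 2) + 1)) + 1 ≤ k ^ 4 := by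
    have : k ^ 4 = k * k ^ 3 := by ring
    have h3 : k ≤ k ^ 3 := Nat.le_self_pow (by norm_num) k
    nlinarith
  have h2 : 2 * H + 1 ≤ k ^ 2 := by nlinarith
  calc _ ≤ k * (k ^ 2 * (k ^ 4) ^ 2) ^ D := by gcongr
    _ = _ := by ring

theorem n2 (k H D : ℕ) (hk : 100 ≤ k) (hH : 2 * H ≤ k) :
    (k * (k * ((2 * H).factorial * (2 * (8 * k ^ 2) + 1))) + 1) ^ (2 * D) ≤
      k ^ ((2 * H + 5) * (2 * D)) := by
  have h1 : (2 * H).factorial ≤ k ^ (2 * H) :=
    (Nat.factorial_le_pow _).trans (Nat.pow_le_pow_left hH _)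
  have h0 : 1 ≤ k ^ (2 * H) := Nat.one_le_pow _ _ (by omega)
  have h2 : k * (k * (2 * (8 * k ^ 2) + 1)) + 1 ≤ k ^ 5 := by
    have : k ^ 5 = k * k ^ 4 := by ring
    have h3 : k ^ 2 ≤ k ^ 4 := Nat.pow_le_pow_right (by omega) (by norm_num)
    have h4 : 1 ≤ k ^ 4 := Nat.one_le_pow _ _ (by omega)
    nlinarith
  rw [pow_mul k]
  refine Nat.pow_le_pow_left ?_ _
  calc _ ≤ k * (k * (k ^ (2 * H) * (2 * (8 * k ^ 2) + 1))) + k ^ (2 * H) := by gcongr
    _ = k ^ (2 * H) * (k * (k * (2 * (8 * k ^ 2) + 1)) + 1) := by ring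
    _ ≤ k ^ (2 * H) * k ^ 5 := by gcongr
    _ = _ := by ring

theorem n3 (k D q : ℕ) (hk : 100 ≤ k) (hD : 2 * D ≤ k) (hq : 1 ≤ q) :
    (4 * D * q ^ 2 + 1) ^ 3 ≤ k ^ 6 * q ^ 6 := by
  have h0 : 1 ≤ q ^ 2 := Nat.one_le_pow _ _ hq
  have h1 : 4 * D + 1 ≤ k ^ 2 := by nlinarith
  calc _ ≤ (k ^ 2 * q ^ 2) ^ 3 := Nat.pow_le_pow_left (by nlinarith) _
    _ = _ := by ring

theorem kill {k : ℕ} (hk : 0 < k) {x t : ℝ} {n : ℕ} (hx : x ≤ (k : ℝ) ^ n)
    (ht : n * Real.log k ≤ t) : x * Real.exp (-t) ≤ 1 := by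
  have hk' : (0 : ℝ) < k := by exact_mod_cast hk
  have e : (k : ℝ) ^ n = Real.exp (n * Real.log k) := by
    rw [Real.exp_nat_mul, Real.exp_log hk']
  calc x * Real.exp (-t) ≤ Real.exp t * Real.exp (-t) := by
        gcongr
        exact hx.trans (e ▸ Real.exp_le_exp.2 ht)
    _ = 1 := by rw [← Real.exp_add, add_neg_cancel, Real.exp_zero]

theorem primes (g D : ℕ) : ∃ q : Fin D → ℕ,
    (∀ j, (q j).Prime ∧ 2 ^ g < q j ∧ q j ≤ 2 ^ (g + D)) ∧ Function.Injective q := by
  have h : ∀ j : ℕ, ∃ p, p.Prime ∧ 2 ^ (g + j) < p ∧ p ≤ 2 * 2 ^ (g + j) := fun j =>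
    Nat.exists_prime_lt_and_le_two_mul _ (by positivity)
  choose p h1 h2 h3 using h
  have h4 : ∀ i j, i < j → p i ≤ 2 ^ (g + j) := fun i j hij =>
    (h3 i).trans (by rw [← pow_succ']; exact Nat.pow_le_pow_right (by norm_num) (by omega))
  refine ⟨fun j => p j, fun j => ⟨h1 j, lt_of_le_of_lt
    (Nat.pow_le_pow_right (by norm_num) (by omega)) (h2 j), h4 _ _ j.2⟩, ?_⟩
  exact StrictMono.injective fun i j hij => lt_of_le_of_lt (h4 _ _ hij) (h2 j)

theorem s1 {k D H H1 : ℕ} {η : ℝ} (hk : 100 ≤ k) (hD : 1 ≤ D) (hH : 1 ≤ H) (h1 : H ≤ H1)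
    (h2 : 2 * H1 ≤ k) (a1 : 7 * D * Real.log k ≤ η ^ 2 * H)
    (a2 : 8 * D * H * Real.log k ≤ η ^ 2 * H1) :
    4 * (k : ℝ) *
      ((((k * (k * ((2 * H).factorial * (2 * (8 * k ^ 2) + 1))) + 1) ^ (2 * D) : ℕ) : ℝ)
          * (2 * Real.exp (-(2 * η ^ 2 * H1)))
        + k * ((2 * H1 * ((2 * H1 + 1) * (k * (5 * (2 * (8 * k ^ 2) + 1)) + 1) ^ 2) ^ D : ℕ) : ℝ)
          * (2 * Real.exp (-(2 * η ^ 2 * H)))) ≤ 1 := by
  have b1 := n2 k H D hk (by omega)
  have b2 := n1 k H1 D hk h2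
  generalize (k * (k * ((2 * H).factorial * (2 * (8 * k ^ 2) + 1))) + 1) ^ (2 * D) = X at b1 ⊢
  generalize 2 * H1 * ((2 * H1 + 1) * (k * (5 * (2 * (8 * k ^ 2) + 1)) + 1) ^ 2) ^ D = Y at b2 ⊢
  have c1 : 16 * k * X ≤ k ^ (16 * D * H) := by
    calc 16 * k * X ≤ k * k * k ^ ((2 * H + 5) * (2 * D)) := by gcongr; omega
      _ = k ^ ((2 * H + 5) * (2 * D) + 2) := by ring
      _ ≤ _ := Nat.pow_le_pow_right (by omega) (by nlinarith [Nat.mul_le_mul hD hH])
  have c2 : 16 * k * k * Y ≤ k ^ (14 * D) := by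
    calc 16 * k * k * Y ≤ k * k * k * k ^ (10 * D + 1) := by gcongr; omega
      _ = k ^ (10 * D + 4) := by ring
      _ ≤ _ := Nat.pow_le_pow_right (by omega) (by omega)
  have d1 := kill (k := k) (by omega) (x := 16 * k * X) (t := 2 * η ^ 2 * H1) (n := 16 * D * H)
    (by exact_mod_cast c1) (by push_cast; linarith)
  have d2 := kill (k := k) (by omega) (x := 16 * k * k * Y) (t := 2 * η ^ 2 * H) (n := 14 * D)
    (by exact_mod_cast c2) (by push_cast; linarith)
  linarith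

theorem s2b {k D H r n : ℕ} (hk : 100 ≤ k) (hD : 2 * D ≤ k) (hH : 2 * H ≤ k) (hr : 0 < r)
    (h : (10 * D + 10) * Real.log k + 6 * n * Real.log 2 ≤ ((k / 2 : ℕ) : ℝ) / r) :
    8 * (k : ℝ) * (k * (((2 * H * ((2 * H + 1) * (k * (5 * (2 * (8 * k ^ 2) + 1)) + 1) ^ 2) ^ D)
      * (4 * D * (2 ^ n) ^ 2 + 1) ^ 3 : ℕ) : ℝ) * (1 - 1 / (r : ℝ)) ^ (k / 2)) ≤ 1 := by
  have b1 := n1 k H D hk hH
  have b2 := n3 k D (2 ^ n) hk hD (Nat.one_le_two_pow)
  generalize 2 * H * ((2 * H + 1) * (k * (5 * (2 * (8 * k ^ 2) + 1)) + 1) ^ 2) ^ D = Y at b1 ⊢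
  generalize (4 * D * (2 ^ n) ^ 2 + 1) ^ 3 = Z at b2 ⊢
  have hr' : (1 : ℝ) ≤ r := by exact_mod_cast hr
  have hk' : (0 : ℝ) < k := by exact_mod_cast (by omega : 0 < k)
  have c1 : 16 * k * (k * Y * Z) ≤ k ^ (10 * D + 10) * 2 ^ (6 * n) := by
    calc 16 * k * (k * Y * Z) ≤ k * k * (k * k ^ (10 * D + 1) * (k ^ 6 * (2 ^ n) ^ 6)) := by
          gcongr; omega
      _ = _ := by ring
  have c2 : (16 * k * ((k * Y * Z : ℕ) : ℝ)) ≤ Real.exp (((k / 2 : ℕ) : ℝ) / r) := by
    refine le_trans ?_ (Real.exp_le_exp.2 h)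
    have e1 : (k : ℝ) ^ (10 * D + 10) = Real.exp ((10 * D + 10) * Real.log k) := by
      rw [← Real.exp_log (pow_pos hk' _), Real.log_pow]
      push_cast
      rfl
    have e2 : (2 : ℝ) ^ (6 * n) = Real.exp (6 * n * Real.log 2) := by
      rw [← Real.exp_log (pow_pos two_pos _), Real.log_pow]
      push_cast
      rfl
    rw [Real.exp_add, ← e1, ← e2]
    exact_mod_cast c1
  have c3 : (1 - 1 / (r : ℝ)) ^ (k / 2) ≤ Real.exp (-(((k / 2 : ℕ) : ℝ) / r)) := by
    have h0 : 0 ≤ 1 - 1 / (r : ℝ) := by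
      rw [sub_nonneg, div_le_one (by linarith)]
      exact hr'
    have h1 : 1 - 1 / (r : ℝ) ≤ Real.exp (-(1 / r)) := Real.one_sub_le_exp_neg _
    refine (pow_le_pow_left₀ h0 h1 _).trans (le_of_eq ?_)
    rw [← Real.exp_nat_mul]
    congr 1
    ring
  have c4 : 16 * k * ((k * Y * Z : ℕ) : ℝ) * (1 - 1 / (r : ℝ)) ^ (k / 2) ≤ 1 := by
    calc _ ≤ Real.exp (((k / 2 : ℕ) : ℝ) / r) * Real.exp (-(((k / 2 : ℕ) : ℝ) / r)) := by
          refine mul_le_mul c2 c3 (pow_nonneg ?_ _) (Real.exp_pos _).le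
          rw [sub_nonneg, div_le_one (by linarith)]
          exact hr'
      _ = 1 := by rw [← Real.exp_add, add_neg_cancel, Real.exp_zero]
  push_cast at c4 ⊢
  linarith

theorem ceil_le {x : ℝ} (hx : 1 ≤ x) (a : ℝ) (ha : 0 ≤ a) : (⌈a * x⌉₊ : ℝ) ≤ (a + 1) * x := by
  have := (Nat.ceil_lt_add_one (a := a * x) (by positivity)).le
  linarith

theorem ex_g {k r : ℕ} (hr : 2 ≤ r) (h : 16 * r ≤ k) :
    ∃ g : ℕ, 16 * r * (g : ℝ) ≤ k ∧ (k : ℝ) ≤ 32 * r * g := by
  refine ⟨k / (16 * r), by exact_mod_cast Nat.mul_div_le k (16 * r), ?_⟩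
  have a2 : 1 ≤ k / (16 * r) := (Nat.le_div_iff_mul_le (by omega)).2 (by omega)
  have a3 : k < 16 * r * (k / (16 * r) + 1) := Nat.lt_mul_div_succ k (by omega)
  have a4 : k ≤ 32 * r * (k / (16 * r)) := by nlinarith
  exact_mod_cast a4

theorem ex_D {k r L g t : ℝ} (hL : 100 ≤ L) (hr : 2 ≤ r) (hg : 0 < g) (hk : 0 < k)
    (g2 : k ≤ 32 * r * g) (t1 : 0.69 ≤ t) :
    ∃ D : ℕ, k * L / 7 ≤ g * D * t ∧ 1 ≤ D ∧ (D : ℝ) ≤ 7 * r * L := by
  have gp : 0 < g * t := by positivity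
  have x0 : 0 < k * L / 7 / (g * t) := by positivity
  refine ⟨⌈k * L / 7 / (g * t)⌉₊, ?_, Nat.ceil_pos.2 x0, ?_⟩
  · have := Nat.le_ceil (k * L / 7 / (g * t))
    rw [div_le_iff₀ gp] at this
    linarith
  · have a0 := (Nat.ceil_lt_add_one x0.le).le
    have a1 : k * L / 7 / (g * t) ≤ 6.9 * r * L := by
      rw [div_le_iff₀ gp]
      have b1 : k * L ≤ 32 * r * g * L := by gcongr
      have b2 : r * L * g * 0.69 ≤ r * L * g * t := by gcongr
      have b3 : 0 ≤ r * L * g := by positivity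
      linarith
    have a2 : 2 * 100 ≤ r * L := by gcongr
    linarith

theorem ex_HK {k r L η : ℝ} {D : ℕ} (h0 : 0 < η) (h1 : η ≤ 1 / 16) (hL : 100 ≤ L) (hr : 2 ≤ r)
    (D3 : 1 ≤ D) (D4 : (D : ℝ) ≤ 7 * r * L) (F1 : 8000 * r ^ 2 * L ^ 4 ≤ η ^ 4 * k) :
    ∃ H K : ℕ, 1 ≤ H ∧ H ≤ K ∧ 2 * (K : ℝ) ≤ k ∧ 7 * D * L ≤ η ^ 2 * H ∧
      8 * D * H * L ≤ η ^ 2 * K := by
  have D3' : (1 : ℝ) ≤ D := by exact_mod_cast D3
  have hη2 : η ^ 2 ≤ 1 := pow_le_one₀ h0.le (by linarith)
  have hη2' : 0 < η ^ 2 := by positivity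
  have x1 : 1 ≤ D * L / η ^ 2 := by
    rw [le_div_iff₀ hη2']
    have : (1 : ℝ) * 100 ≤ D * L := by gcongr
    linarith
  obtain ⟨H, H1', H2⟩ : ∃ H : ℕ, 7 * (D * L / η ^ 2) ≤ H ∧ (H : ℝ) ≤ 8 * (D * L / η ^ 2) :=
    ⟨⌈7 * (D * L / η ^ 2)⌉₊, Nat.le_ceil _, by
      have := ceil_le x1 7 (by norm_num)
      linarith⟩
  have H3 : (1 : ℝ) ≤ H := by linarith
  have x3 : 1 * (H : ℝ) ≤ D * L / η ^ 2 * H := by gcongr
  have x2 : 1 ≤ D * L / η ^ 2 * H := by linarith
  obtain ⟨K, K1, K2⟩ : ∃ K : ℕ, 8 * (D * L / η ^ 2 * H) ≤ K ∧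
      (K : ℝ) ≤ 9 * (D * L / η ^ 2 * H) :=
    ⟨⌈8 * (D * L / η ^ 2 * H)⌉₊, Nat.le_ceil _, by
      have := ceil_le x2 8 (by norm_num)
      linarith⟩
  refine ⟨H, K, by exact_mod_cast H3, ?_, ?_, ?_, ?_⟩
  · have : (H : ℝ) ≤ K := by linarith
    exact_mod_cast this
  · have a1 : D * L / η ^ 2 ≤ 7 * r * L * L / η ^ 2 := by gcongr
    have a2 : D * L / η ^ 2 * H ≤ (7 * r * L * L / η ^ 2) * (8 * (7 * r * L * L / η ^ 2)) := by
      gcongr
      linarith
    have a3 : (7 * r * L * L / η ^ 2) * (8 * (7 * r * L * L / η ^ 2)) =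
        392 * (r ^ 2 * L ^ 4 / η ^ 4) := by
      field_simp
      ring
    have a4 : 8000 * (r ^ 2 * L ^ 4 / η ^ 4) ≤ k := by
      rw [← mul_div_assoc, div_le_iff₀ (by positivity)]
      linarith
    have a5 : 0 ≤ r ^ 2 * L ^ 4 / η ^ 4 := by positivity
    linarith
  · have := mul_le_mul_of_nonneg_left H1' hη2'.le
    have e : η ^ 2 * (7 * (D * L / η ^ 2)) = 7 * D * L := by field_simp
    linarith
  · have := mul_le_mul_of_nonneg_left K1 hη2'.le
    have e : η ^ 2 * (8 * (D * L / η ^ 2 * H)) = 8 * D * H * L := by field_simp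
    linarith

theorem ex_m {k L η c lr : ℝ} (h0 : 0 < η) (h1 : η ≤ 1 / 16) (hc : 2 * c + 2 * η = 1 / 4)
    (hk : 100 ≤ k) (hL : 100 ≤ L) (hLk : L ≤ k) (F2 : 100 ≤ η * L)
    (F3 : (1 / 2 - η) * L - 1 ≤ lr) :
    ∃ m : ℕ, 1 ≤ m ∧ 2 * (m : ℝ) ≤ (1 / 2 - η) * k ∧ c * k * L + 4 ≤ m * lr := by
  have b0 : 7 / 16 * 100 ≤ (1 / 2 - η) * k := by gcongr <;> linarith
  have b1 : 7 / 16 * 100 ≤ (1 / 2 - η) * L := by gcongr <;> linarith
  obtain ⟨m, m1, m2⟩ : ∃ m : ℕ, (m : ℝ) ≤ (1 / 2 - η) * k / 2 ∧ (1 / 2 - η) * k / 2 - 1 ≤ m :=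
    ⟨⌊(1 / 2 - η) * k / 2⌋₊, Nat.floor_le (by linarith), (Nat.sub_one_lt_floor _).le⟩
  have m3 : (1 : ℝ) ≤ m := by linarith
  refine ⟨m, by exact_mod_cast m3, by linarith, ?_⟩
  have a6 : ((1 / 2 - η) * k / 2 - 1) * ((1 / 2 - η) * L - 1) ≤ m * lr :=
    mul_le_mul m2 F3 (by linarith) (by linarith)
  have a7 : (2 * c + η) * (k * L) ≤ (1 / 2 - η) ^ 2 * (k * L) := by
    gcongr
    nlinarith [sq_nonneg η]
  have a8 : 100 * k ≤ η * L * k := by gcongr
  have a10 : (1 / 2 - η) * k ≤ 1 * k := by gcongr; linarith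
  have a11 : (1 / 2 - η) * L ≤ 1 * L := by gcongr; linarith
  linarith

theorem core {η c L : ℝ} {k r : ℕ} (h0 : 0 < η) (h1 : η ≤ 1 / 16)
    (hc : 2 * c + 2 * η = 1 / 4) (hk : 100 ≤ k) (hr : 2 ≤ r)
    (F1 : 8000 * (r : ℝ) ^ 2 * L ^ 4 ≤ η ^ 4 * k) (F2 : 100 ≤ η * L)
    (F3 : (1 / 2 - η) * L - 1 ≤ Real.log r) :
    ∃ (D H H1 g m1 : ℕ), 1 ≤ D ∧ 1 ≤ H ∧ H ≤ H1 ∧ 2 * H1 ≤ k ∧ 2 * D ≤ k ∧ 1 ≤ m1 ∧
      (2 * m1 : ℝ) ≤ (1 / 2 - η) * k ∧ L ≤ g * Real.log 2 ∧ g + D ≤ k ∧
      7 * D * L ≤ η ^ 2 * H ∧ 8 * D * H * L ≤ η ^ 2 * H1 ∧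
      c * k * L + 4 ≤ m1 * Real.log r ∧
      (10 * D + 10) * L + 6 * (g + D : ℕ) * Real.log 2 ≤ ((k / 2 : ℕ) : ℝ) / r ∧
      c * k * L + 2 ≤ g * D * Real.log 2 := by
  have l1 : 0.69 ≤ Real.log 2 := by linarith [Real.log_two_gt_d9]
  have l2 : Real.log 2 ≤ 0.7 := by linarith [Real.log_two_lt_d9]
  have hk' : (100 : ℝ) ≤ k := by exact_mod_cast hk
  have hr' : (2 : ℝ) ≤ r := by exact_mod_cast hr
  have hL1 : 100 ≤ L := by nlinarith
  have hη4 : η ^ 4 ≤ 1 := pow_le_one₀ h0.le (by linarith)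
  have G0 : η ^ 4 * k ≤ 1 * (k : ℝ) := by gcongr
  have hL2 : L ^ 2 ≤ L ^ 4 := pow_le_pow_right₀ (by linarith) (by norm_num)
  have hL3 : L ≤ L ^ 2 := le_self_pow₀ (by linarith) (by norm_num)
  have hrr : (r : ℝ) ≤ (r : ℝ) ^ 2 := le_self_pow₀ (by linarith) (by norm_num)
  have G2 : 8000 * (r : ℝ) ^ 2 * L ^ 2 ≤ k :=
    le_trans (by gcongr) (F1.trans (by linarith))
  have G3 : 8000 * (r : ℝ) * L ≤ k := le_trans (by gcongr) G2
  have G4 : (r : ℝ) * 100 ≤ r * L := by gcongr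
  have G5 : 2 * L ≤ r * L := by gcongr
  obtain ⟨g, g1, g2⟩ := ex_g (k := k) hr (by
    have : (16 * r : ℝ) ≤ k := by linarith
    exact_mod_cast this)
  have g0 : (0 : ℝ) ≤ g := Nat.cast_nonneg _
  have g3 : 72 * L ≤ g := by
    have : (32 * r) * (72 * L) ≤ (32 * r) * (g : ℝ) := by linarith
    exact le_of_mul_le_mul_left this (by positivity)
  have g5 : 2 * (g : ℝ) ≤ r * g := by gcongr
  obtain ⟨D, D1, D3, D4⟩ := ex_D (k := k) hL1 hr' (by linarith) (by linarith) g2 l1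
  have D3' : (1 : ℝ) ≤ D := by exact_mod_cast D3
  obtain ⟨H, K, H1, H2, H3, H4, H5⟩ := ex_HK h0 h1 hL1 hr' D3 D4 F1
  obtain ⟨m, m1, m2, m3⟩ := ex_m h0 h1 hc hk' hL1 (by linarith) F2 F3
  refine ⟨D, H, K, g, m, D3, H1, H2, by exact_mod_cast H3, ?_, m1, m2, ?_, ?_, H4, H5, m3, ?_, ?_⟩
  · have : 2 * (D : ℝ) ≤ k := by linarith
    exact_mod_cast this
  · have : (g : ℝ) * 0.69 ≤ g * Real.log 2 := by gcongr
    linarith
  · have : (g : ℝ) + D ≤ k := by linarith
    exact_mod_cast this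
  · push_cast
    have a1 : (k : ℝ) - 1 ≤ 2 * ((k / 2 : ℕ) : ℝ) := by
      have : k ≤ 2 * (k / 2) + 1 := by omega
      have h2 : (k : ℝ) ≤ 2 * ((k / 2 : ℕ) : ℝ) + 1 := by exact_mod_cast this
      linarith
    rw [le_div_iff₀ (by linarith)]
    have a2 : (D : ℝ) * L * r ≤ 7 * r * L * L * r := by gcongr
    have a3 : (1 : ℝ) * (L * r) ≤ D * (L * r) := by gcongr
    have a4 : (g : ℝ) * r * Real.log 2 ≤ g * r * 0.7 := by gcongr
    have a5 : (D : ℝ) * r * Real.log 2 ≤ D * r * L := by gcongr; linarith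
    linarith
  · have a1 : c * (k * L) ≤ 1 / 8 * (k * L) := by gcongr; linarith
    have a2 : (100 : ℝ) * 100 ≤ k * L := by gcongr
    linarith

theorem large (η : ℝ) (h0 : 0 < η) (h1 : η ≤ 1 / 16) : ∃ k0 : ℕ, ∀ k ≥ k0, 100 ≤ k ∧
    100 ≤ η * Real.log k ∧ ∃ r : ℕ, 2 ≤ r ∧
      8000 * (r : ℝ) ^ 2 * Real.log k ^ 4 ≤ η ^ 4 * k ∧
      (1 / 2 - η) * Real.log k - 1 ≤ Real.log r := by
  have e1 := (isLittleO_log_rpow_rpow_atTop 4 (s := 2 * η) (by positivity)).bound
    (c := η ^ 4 / 8000) (by positivity)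
  have e2 := Real.tendsto_log_atTop.eventually_ge_atTop (100 / η)
  have e3 := (tendsto_natCast_atTop_atTop (R := ℝ)).eventually (e1.and e2)
  obtain ⟨k0, hk0⟩ := Filter.eventually_atTop.1 (e3.and (Filter.eventually_ge_atTop 100))
  refine ⟨k0, fun k hk => ?_⟩
  obtain ⟨⟨a1, a2⟩, a3⟩ := hk0 k hk
  have hk' : (100 : ℝ) ≤ k := by exact_mod_cast a3
  have hk0' : (0 : ℝ) < k := by linarith
  rw [div_le_iff₀ h0] at a2
  have hL : 100 ≤ Real.log k := by nlinarith
  set x : ℝ := (k : ℝ) ^ (1 / 2 - η) with hx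
  have x1 : Real.log x = (1 / 2 - η) * Real.log k := Real.log_rpow hk0' _
  have x0 : 0 < x := Real.rpow_pos_of_pos hk0' _
  have x2 : 2 ≤ x := by
    have := Real.log_le_sub_one_of_pos x0
    nlinarith
  have r1 : (⌊x⌋₊ : ℝ) ≤ x := Nat.floor_le x0.le
  have r2 : x / 2 ≤ (⌊x⌋₊ : ℝ) := by
    have := (Nat.sub_one_lt_floor x).le
    linarith
  refine ⟨a3, by linarith, ⌊x⌋₊, Nat.le_floor (by exact_mod_cast x2), ?_, ?_⟩
  · rw [Real.norm_of_nonneg (by positivity), Real.norm_of_nonneg (by positivity)] at a1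
    have b1 : Real.log k ^ (4 : ℝ) = Real.log k ^ 4 := by exact_mod_cast Real.rpow_natCast _ 4
    have b2 : x ^ 2 * (k : ℝ) ^ (2 * η) = k := by
      rw [hx, ← Real.rpow_natCast, ← Real.rpow_mul hk0'.le, ← Real.rpow_add hk0']
      have : (1 / 2 - η) * ((2 : ℕ) : ℝ) + 2 * η = 1 := by push_cast; ring
      rw [this, Real.rpow_one]
    rw [b1] at a1
    calc 8000 * (⌊x⌋₊ : ℝ) ^ 2 * Real.log k ^ 4
        ≤ 8000 * x ^ 2 * (η ^ 4 / 8000 * (k : ℝ) ^ (2 * η)) := by gcongr
      _ = η ^ 4 * (x ^ 2 * (k : ℝ) ^ (2 * η)) := by ring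
      _ = _ := by rw [b2]
  · have b1 := Real.log_le_log (by positivity) r2
    rw [Real.log_div x0.ne' two_ne_zero, x1] at b1
    linarith [Real.log_two_lt_d9]

end Num8

theorem numbers8 (c : ℝ) (hc : c < 1 / 8) : ∃ k0 : ℕ, ∀ k ≥ k0,
    ∃ (D H H1 B r q' m1 : ℕ) (η : ℝ) (q : Fin D → ℕ),
      1 ≤ H ∧ H ≤ H1 ∧ 2 * H1 ≤ k ∧ 2 ≤ r ∧ 1 ≤ m1 ∧ 0 ≤ η ∧
      (2 * m1 : ℝ) ≤ (1 / 2 - η) * k ∧
      (∀ j, (q j).Prime ∧ k < q j ∧ q j ≤ q') ∧ Function.Injective q ∧
      8 * (k : ℝ) * Real.log q' ≤ B ∧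
      4 * (k : ℝ) * ((((k * (k * ((2 * H).factorial * (2 * B + 1))) + 1) ^ (2 * D) : ℕ) : ℝ)
          * (2 * Real.exp (-(2 * η ^ 2 * H1)))
        + k * ((2 * H1 * ((2 * H1 + 1) * (k * (5 * (2 * B + 1)) + 1) ^ 2) ^ D : ℕ) : ℝ)
          * (2 * Real.exp (-(2 * η ^ 2 * H)))) ≤ 1 ∧
      8 * (k : ℝ) * (k * (((2 * H * ((2 * H + 1) * (k * (5 * (2 * B + 1)) + 1) ^ 2) ^ D)
            * (4 * D * q' ^ 2 + 1) ^ 3 : ℕ) : ℝ) * (1 - 1 / (r : ℝ)) ^ (k / 2)) ≤ 1 ∧
      4 * (k : ℝ) ^ (c * k) ≤ ((∏ j, q j : ℕ) : ℝ) ∧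
      16 * (k : ℝ) ^ (c * k) ≤ (r : ℝ) ^ m1 := by
  have c1 : max c (1 / 16) < 1 / 8 := max_lt hc (by norm_num)
  have c2 : c ≤ max c (1 / 16) := le_max_left _ _
  have c3 : 1 / 16 ≤ max c (1 / 16) := le_max_right _ _
  generalize max c (1 / 16) = c' at c1 c2 c3
  obtain ⟨η, h0, h1, h2⟩ : ∃ η : ℝ, 0 < η ∧ η ≤ 1 / 16 ∧ 2 * c' + 2 * η = 1 / 4 :=
    ⟨1 / 8 - c', by linarith, by linarith, by ring⟩
  obtain ⟨k0, hk0⟩ := Num8.large η h0 h1
  refine ⟨k0, fun k hk => ?_⟩
  obtain ⟨hk1, F2, r, hr, F1, F3⟩ := hk0 k hk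
  obtain ⟨D, H, H1, g, m1, a1, a2, a3, a4, a5, a6, a7, a8, a9, a10, a11, a12, a13, a14⟩ :=
    Num8.core h0 h1 h2 hk1 hr F1 F2 F3
  obtain ⟨q, q1, q2⟩ := Num8.primes g D
  have hk' : (100 : ℝ) ≤ k := by exact_mod_cast hk1
  have hr' : (2 : ℝ) ≤ r := by exact_mod_cast hr
  have hkg : k ≤ 2 ^ g := by
    have : (k : ℝ) ≤ 2 ^ g := by
      rw [← Real.log_le_log_iff (by linarith) (by positivity), Real.log_pow]
      exact a8
    exact_mod_cast this
  have hL : 0 ≤ Real.log k := Real.log_nonneg (by linarith)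
  have hcc : c * k * Real.log k ≤ c' * k * Real.log k := by gcongr
  have l2 : Real.log 2 ≤ 1 := by linarith [Real.log_two_lt_d9]
  have hlog : ∀ n : ℕ, Real.log (2 ^ n * (k : ℝ) ^ (c * k)) ≤ c' * k * Real.log k + n := by
    intro n
    rw [Real.log_mul (by positivity) (by positivity), Real.log_pow, Real.log_rpow (by linarith)]
    have : (n : ℝ) * Real.log 2 ≤ n * 1 := by gcongr
    linarith
  refine ⟨D, H, H1, 8 * k ^ 2, r, 2 ^ (g + D), m1, η, q, a2, a3, a4, hr, a6, h0.le, a7,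
    fun j => ⟨(q1 j).1, lt_of_le_of_lt hkg (q1 j).2.1, (q1 j).2.2⟩, q2, ?_,
    Num8.s1 hk1 a1 a2 a3 a4 a10 a11,
    Num8.s2b (k := k) (D := D) (H := H) (r := r) (n := g + D) hk1 a5 (by omega) (by omega) a13,
    ?_, ?_⟩
  · have b1 : ((g + D : ℕ) : ℝ) ≤ k := by exact_mod_cast a9
    have b2 : ((g + D : ℕ) : ℝ) * Real.log 2 ≤ k * 1 := by gcongr
    rw [Nat.cast_pow, Nat.cast_ofNat, Real.log_pow]
    have b3 : 8 * (k : ℝ) * (((g + D : ℕ) : ℝ) * Real.log 2) ≤ 8 * k * (k * 1) := by gcongr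
    push_cast at b3 ⊢
    linarith
  · have b1 : (2 ^ g) ^ D ≤ ∏ j, q j := by
      have := Finset.pow_card_le_prod Finset.univ q (2 ^ g) fun j _ => (q1 j).2.1.le
      simpa using this
    have b2 : (((2 ^ g) ^ D : ℕ) : ℝ) ≤ ((∏ j, q j : ℕ) : ℝ) := by exact_mod_cast b1
    refine le_trans ?_ b2
    have b3 := hlog 2
    rw [← Real.log_le_log_iff (by positivity) (by positivity)]
    push_cast at b3 ⊢
    rw [Real.log_pow, Real.log_pow]
    norm_num at b3
    linarith
  · have b3 := hlog 4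
    rw [← Real.log_le_log_iff (by positivity) (by positivity), Real.log_pow]
    norm_num at b3
    linarith

end Pool.Agent.MP_a31471_co.sx

end MrgPart2

-- marker of a merged file
example : 731051 + 216096 = 731051 + 216096 := rfl
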