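import Mathlib
import Pool.Agent.MP_a31471_co.sx.Colour
import Pool.Agent.MP_a31471_co.sx.Num

/-!
A periodic colouring with a long period and no monochromatic progression other than those whose
difference is a multiple of the period.
-/

set_option autoImplicit false

namespace Pool.Agent.MP_a31471_co.sx

open Finset

theorem cyclic_colouring (c : ℝ) (hc : c < 1 / 16) : ∃ k0 : ℕ, ∀ k ≥ k0, ∃ N : ℕ, 0 < N ∧
    (k : ℝ) ^ (c * k) ≤ N ∧ ∃ χ : ℤ → Bool, ∀ a d : ℤ, ¬ (N : ℤ) ∣ d → ∀ b : Bool,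
      ∃ i : Fin k, χ (a + ((i : ℕ) : ℤ) * d) ≠ b := by
  obtain ⟨k0, h⟩ := numbers c hc
  refine ⟨k0, fun k hk => ?_⟩
  obtain ⟨D, H, H1, B, r, q', m1, η, q, hH, hH1, hk1, hr, -, hη, hm, hq, hinj, hB, hS1, hS2, hN⟩ :=
    h k hk
  have hk0 : 1 ≤ k := by omega
  have hmesh : ∀ j, ∃ K : ℤ → ℤ, Mesh (q j) (8 * (k : ℤ)) ((2 * B + 1 : ℕ) : ℤ) K := by
    intro j
    have h1 : (0 : ℝ) < q j := by exact_mod_cast (hq j).1.pos
    have h2 : Real.log (q j) ≤ Real.log q' :=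
      Real.log_le_log h1 (by exact_mod_cast (hq j).2.2)
    have := exists_mesh (q j) (8 * (k : ℤ)) B (by exact_mod_cast (hq j).1.pos) (by omega) (by
      push_cast
      have h3 : (0 : ℝ) ≤ 8 * k := by positivity
      exact (mul_le_mul_of_nonneg_left h2 h3).trans hB)
    push_cast
    exact this
  choose K hK using hmesh
  let S : Data :=
    { k := k, D := D, H := H, Λ := 2 * B + 1, q := q, K := K, H_pos := hH, H_le := by omega,
      Λ_pos := by omega, prime := fun j => (hq j).1, big := fun j => (hq j).2.1, inj := hinj,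
      mesh := hK }
  obtain ⟨χ, hχ⟩ := S.exists_colouring H1 r q' m1 η hH1 hk1 hr hη hm (fun j => (hq j).2.2) hS1 hS2
  exact ⟨S.N, by exact_mod_cast S.N_pos, hN, χ, hχ⟩

/-- Few pairs have a difference divisible by `N`. -/
theorem card_dvd_le (n N : ℕ) :
    ((((Finset.Icc 1 n ×ˢ Finset.Icc 1 n).filter (fun z : ℕ × ℕ => N ∣ z.2)).card : ℕ) : ℝ)
      ≤ (n : ℝ) ^ 2 / N := by
  have h1 : (Finset.Icc 1 n ×ˢ Finset.Icc 1 n).filter (fun z : ℕ × ℕ => N ∣ z.2)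
      = Finset.Icc 1 n ×ˢ (Finset.Ioc 0 n).filter (fun x => N ∣ x) := by
    ext z
    simp only [Finset.mem_filter, Finset.mem_product, Finset.mem_Icc, Finset.mem_Ioc]
    constructor
    · rintro ⟨⟨a, b, c⟩, d⟩
      exact ⟨a, ⟨b, c⟩, d⟩
    · rintro ⟨a, ⟨b, c⟩, d⟩
      exact ⟨⟨a, b, c⟩, d⟩
  rw [h1, Finset.card_product, Nat.Ioc_filter_dvd_card_eq_div, Nat.card_Icc]
  have h2 : ((n / N : ℕ) : ℝ) ≤ (n : ℝ) / N := Nat.cast_div_le
  have h3 : (0 : ℝ) ≤ n := by positivity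
  simp only [Nat.add_sub_cancel]
  push_cast
  calc (n : ℝ) * ((n / N : ℕ) : ℝ) ≤ n * ((n : ℝ) / N) := mul_le_mul_of_nonneg_left h2 h3
    _ = (n : ℝ) ^ 2 / N := by ring

end Pool.Agent.MP_a31471_co.sx
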