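import Pool.Agent.MP_a31471_co.sx.Colour
import Pool.Agent.MP_a31471_co.sx.Num8

/-!
A periodic colouring for which few pairs of residues give a monochromatic progression.
-/

set_option autoImplicit false

namespace Pool.Agent.MP_a31471_co.sx

open Finset

namespace Data

variable (S : Data)

theorem exists_colouring8 (H1 r q' m1 : ℕ) (η : ℝ) (hH1 : S.H ≤ H1) (hk1 : 2 * H1 ≤ S.k)
    (hr : 2 ≤ r) (hη : 0 ≤ η) (hm : (2 * m1 : ℝ) ≤ (1 / 2 - η) * S.k) (hq : ∀ j, S.q j ≤ q')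
    (hS1 : 4 * (S.k : ℝ) * ((((S.k * (S.k * S.M) + 1) ^ (2 * S.D) : ℕ) : ℝ)
          * (2 * Real.exp (-(2 * η ^ 2 * H1)))
        + S.k * ((2 * H1 * ((2 * H1 + 1) * (S.k * (5 * S.Λ) + 1) ^ 2) ^ S.D : ℕ) : ℝ)
          * (2 * Real.exp (-(2 * η ^ 2 * S.H)))) ≤ 1)
    (hS2 : 8 * (S.k : ℝ) * (S.k * (((2 * S.H * ((2 * S.H + 1) * (S.k * (5 * S.Λ) + 1) ^ 2) ^ S.D)
            * (4 * S.D * q' ^ 2 + 1) ^ 3 : ℕ) : ℝ) * (1 - 1 / (r : ℝ)) ^ (S.k / 2)) ≤ 1) :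
    ∃ (χ : ℤ → Bool) (Bad : Finset (ℤ × ℤ)),
      (Bad.card : ℝ) ≤ S.N + 4 * (1 / (r : ℝ)) ^ m1 * (S.N : ℝ) ^ 2 ∧
      ∀ a d : ℤ, (∃ c : Bool, ∀ i : Fin S.k, χ (a + ((i : ℕ) : ℤ) * d) = c) →
        (a % S.N, d % S.N) ∈ Bad := by
  classical
  have hk := S.k_pos1
  have hkr : (0 : ℝ) < S.k := by exact_mod_cast hk
  have hH := S.H_pos
  have hH1' : 1 ≤ H1 := hH.trans hH1
  have hHr : (0 : ℝ) < S.H := by exact_mod_cast hH
  have hH1r : (0 : ℝ) < H1 := by exact_mod_cast hH1'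
  obtain ⟨φ, hφ⟩ := Big.stage1_two hk (S.Pat.filter (fun π => ¬ Heavy S.k S.H π))
    (S.Pat.filter (fun π => Heavy S.k H1 π)) (η := η) (M0 := (S.k : ℝ) / S.H)
    (M1 := (S.k : ℝ) / H1) hη
    (P1 := (((S.k * (S.k * S.M) + 1) ^ (2 * S.D) : ℕ) : ℝ))
    (P2 := ((2 * H1 * ((2 * H1 + 1) * (S.k * (5 * S.Λ) + 1) ^ 2) ^ S.D : ℕ) : ℝ))
    (fun π hπ l => class_le_of_not_heavy hH S.H_le (Finset.mem_filter.1 hπ).2 l)
    (fun π hπ hQ l => class_le_of_not_heavy hH1' hk1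
      (fun hh => hQ (Finset.mem_filter.2 ⟨(Finset.mem_filter.1 hπ).1, hh⟩)) l)
    (by exact_mod_cast (Finset.card_filter_le _ _).trans S.card_Pat)
    (fun i l => by
      rw [Finset.filter_filter]
      exact_mod_cast S.card_Pat_heavy H1 hH1' hk1 i l)
    (by
      have e1 : 2 * η ^ 2 * S.k / ((S.k : ℝ) / H1) = 2 * η ^ 2 * H1 := by field_simp
      have e2 : 2 * η ^ 2 * S.k / ((S.k : ℝ) / S.H) = 2 * η ^ 2 * S.H := by field_simp
      rw [e1, e2]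
      linarith)
  let W : Finset (ℤ × ℤ) :=
    (Finset.Ico 0 (S.N : ℤ) ×ˢ Finset.Ico 0 (S.N : ℤ)).filter (fun w => ¬ (S.N : ℤ) ∣ w.2)
  let F := W.filter (fun w => ¬ Heavy S.k S.H (S.pat w.1 w.2))
  let B := (W.filter (fun w => Heavy S.k S.H (S.pat w.1 w.2))).image (fun w => S.kp w.1 w.2)
  have mult : ∀ w ∈ W, ∀ y, ((univ : Finset (Fin S.k)).filter
      (fun i => S.kp w.1 w.2 i = y)).card ≤ 2 := by
    intro w hw y
    refine le_trans (le_of_eq ?_) (S.key_mult w.1 w.2 (Finset.mem_filter.1 hw).2 y.1 y.2)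
    congr 1
    ext i
    simp [kp, Prod.ext_iff]
  have hF : F.card ≤ S.N ^ 2 := by
    refine (Finset.card_filter_le _ _).trans ((Finset.card_filter_le _ _).trans ?_)
    rw [Finset.card_product, Int.card_Ico]
    simp only [sub_zero, Int.toNat_natCast]
    rw [sq]
  obtain ⟨χ, hχ, hcount⟩ := stage2c (K := (Fin S.D → ZMod S.M) × ℤ) (m := m1) (m' := S.k / 2) hk hr
    (fun y => φ y.1) F (fun w => S.kp w.1 w.2) B
    (P3 := (((2 * S.H * ((2 * S.H + 1) * (S.k * (5 * S.Λ) + 1) ^ 2) ^ S.D)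
            * (4 * S.D * q' ^ 2 + 1) ^ 3 : ℕ) : ℝ))
    (fun w hw y => mult w (Finset.mem_filter.1 hw).1 y)
    (fun κ hκ y => by
      obtain ⟨w, hw, rfl⟩ := Finset.mem_image.1 hκ
      exact mult w (Finset.mem_filter.1 hw).1 y)
    (fun w hw c => by
      have := hφ (S.pat w.1 w.2)
        (Finset.mem_filter.2 ⟨S.mem_Pat.2 ⟨_, _, rfl⟩, (Finset.mem_filter.1 hw).2⟩) c
      exact_mod_cast hm.trans this)
    (Nat.mul_div_le _ _)
    (fun i y => by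
      let I : Finset ℤ := Finset.Icc (-(2 * S.D * q' ^ 2 : ℤ)) (2 * S.D * q' ^ 2)
      have hI : I.card = 4 * S.D * q' ^ 2 + 1 := by
        simp only [I, Int.card_Icc]
        have : (2 * S.D * q' ^ 2 + 1 - -(2 * S.D * q' ^ 2) : ℤ)
            = ((4 * S.D * q' ^ 2 + 1 : ℕ) : ℤ) := by push_cast; ring
        rw [this, Int.toNat_natCast]
      have hsub : B.filter (fun κ => κ i = y) ⊆
          ((S.Pat.filter (fun π => Heavy S.k S.H π ∧ π i = y.1)) ×ˢ (I ×ˢ I ×ˢ I)).image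
            (fun z => fun i' : Fin S.k => (z.1 i',
              z.2.1 + z.2.2.1 * ((i' : ℕ) : ℤ) + z.2.2.2 * ((i' : ℕ) : ℤ) ^ 2)) := by
        intro κ hκ
        obtain ⟨hB, hy⟩ := Finset.mem_filter.1 hκ
        obtain ⟨w, hw, rfl⟩ := Finset.mem_image.1 hB
        have hh := (Finset.mem_filter.1 hw).2
        obtain ⟨a, b, c, ha, hb, hc, hQ⟩ := S.heavy_quadratic q' hq w.1 w.2 hh
        refine Finset.mem_image.2 ⟨(S.pat w.1 w.2, a, b, c), ?_, ?_⟩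
        · simp only [Finset.mem_product, Finset.mem_filter, I, Finset.mem_Icc]
          exact ⟨⟨S.mem_Pat.2 ⟨_, _, rfl⟩, hh, by rw [← hy]; rfl⟩, abs_le.1 ha, abs_le.1 hb,
            abs_le.1 hc⟩
        · funext i'
          simp only [kp, hQ]
      have h1 := (Finset.card_le_card hsub).trans Finset.card_image_le
      rw [Finset.card_product, Finset.card_product, Finset.card_product, hI] at h1
      have h2 := S.card_Pat_heavy S.H hH S.H_le i y.1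
      have h3 : (B.filter (fun κ => κ i = y)).card
          ≤ (2 * S.H * ((2 * S.H + 1) * (S.k * (5 * S.Λ) + 1) ^ 2) ^ S.D)
            * (4 * S.D * q' ^ 2 + 1) ^ 3 :=
        h1.trans (Nat.mul_le_mul h2 (le_of_eq (by ring)))
      exact_mod_cast h3)
    hS2
  have hN := S.N_pos
  refine ⟨fun x => χ (S.lab x, S.Q x), (Finset.Ico 0 (S.N : ℤ) ×ˢ {0}) ∪
    F.filter (fun w => ∃ c, ∀ i, χ (S.kp w.1 w.2 i) = c), ?_, fun a d hmono => ?_⟩
  · have h1 := (Nat.cast_le (α := ℝ)).2 (Finset.card_union_le (Finset.Ico 0 (S.N : ℤ) ×ˢ {0})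
      (F.filter (fun w => ∃ c, ∀ i, χ (S.kp w.1 w.2 i) = c)))
    rw [Finset.card_product, Int.card_Ico] at h1
    simp only [sub_zero, Int.toNat_natCast, Finset.card_singleton, mul_one, Nat.cast_add] at h1
    have h2 : (F.card : ℝ) ≤ (S.N : ℝ) ^ 2 := by exact_mod_cast hF
    have h3 : 4 * (1 / (r : ℝ)) ^ m1 * F.card ≤ 4 * (1 / (r : ℝ)) ^ m1 * (S.N : ℝ) ^ 2 := by
      gcongr
    linarith
  · have ha : a % S.N ∈ Finset.Ico 0 (S.N : ℤ) :=
      Finset.mem_Ico.2 ⟨Int.emod_nonneg _ hN.ne', Int.emod_lt_of_pos _ hN⟩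
    have hd : d % S.N ∈ Finset.Ico 0 (S.N : ℤ) :=
      Finset.mem_Ico.2 ⟨Int.emod_nonneg _ hN.ne', Int.emod_lt_of_pos _ hN⟩
    by_cases h0 : (S.N : ℤ) ∣ d % S.N
    · refine Finset.mem_union_left _ (Finset.mem_product.2 ⟨ha, ?_⟩)
      have := Int.emod_eq_zero_of_dvd h0
      rw [Int.emod_emod_of_dvd _ dvd_rfl] at this
      simp [this]
    · have hW : (a % S.N, d % S.N) ∈ W :=
        Finset.mem_filter.2 ⟨Finset.mem_product.2 ⟨ha, hd⟩, h0⟩
      obtain ⟨c, hc⟩ := hmono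
      have hc' : ∀ i, χ (S.kp (a % S.N) (d % S.N) i) = c := by
        rw [S.kp_red]
        exact hc
      by_cases hh : Heavy S.k S.H (S.pat (a % S.N) (d % S.N))
      · obtain ⟨i, hi⟩ := hχ _ (Finset.mem_image.2 ⟨_, Finset.mem_filter.2 ⟨hW, hh⟩, rfl⟩) c
        exact absurd (hc' i) hi
      · exact Finset.mem_union_right _
          (Finset.mem_filter.2 ⟨Finset.mem_filter.2 ⟨hW, hh⟩, c, hc'⟩)

end Data

theorem sparse_colouring (c : ℝ) (hc : c < 1 / 8) : ∃ k0 : ℕ, ∀ k ≥ k0, ∃ N : ℕ, 0 < N ∧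
    ∃ (χ : ℤ → Bool) (Bad : Finset (ℤ × ℤ)),
      2 * (k : ℝ) ^ (c * k) * Bad.card ≤ (N : ℝ) ^ 2 ∧
      ∀ a d : ℤ, (∃ b : Bool, ∀ i : Fin k, χ (a + ((i : ℕ) : ℤ) * d) = b) →
        (a % N, d % N) ∈ Bad := by
  obtain ⟨k0, h⟩ := numbers8 c hc
  refine ⟨k0, fun k hk => ?_⟩
  obtain ⟨D, H, H1, B, r, q', m1, η, q, hH, hH1, hk1, hr, -, hη, hm, hq, hinj, hB, hS1, hS2, hN,
    hrm⟩ := h k hk
  have hk0 : 1 ≤ k := by omega
  have hmesh : ∀ j, ∃ K : ℤ → ℤ, Mesh (q j) (8 * (k : ℤ)) ((2 * B + 1 : ℕ) : ℤ) K := by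
    intro j
    have h1 : (0 : ℝ) < q j := by exact_mod_cast (hq j).1.pos
    have h2 : Real.log (q j) ≤ Real.log q' :=
      Real.log_le_log h1 (by exact_mod_cast (hq j).2.2)
    have := exists_mesh (q j) (8 * (k : ℤ)) B (by exact_mod_cast (hq j).1.pos) (by omega) (by
      push_cast
      have h3 : (0 : ℝ) ≤ 8 * k := by positivity
      exact (mul_le_mul_of_nonneg_left h2 h3).trans hB)
    push_cast
    exact this
  choose K hK using hmesh
  let S : Data :=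
    { k := k, D := D, H := H, Λ := 2 * B + 1, q := q, K := K, H_pos := hH, H_le := by omega,
      Λ_pos := by omega, prime := fun j => (hq j).1, big := fun j => (hq j).2.1, inj := hinj,
      mesh := hK }
  obtain ⟨χ, Bad, hBad, hχ⟩ :=
    S.exists_colouring8 H1 r q' m1 η hH1 hk1 hr hη hm (fun j => (hq j).2.2) hS1 hS2
  refine ⟨S.N, by exact_mod_cast S.N_pos, χ, Bad, ?_, hχ⟩
  have hN' : 4 * (k : ℝ) ^ (c * k) ≤ S.N := hN
  have hP : (0 : ℝ) ≤ (k : ℝ) ^ (c * k) := by positivity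
  have hr0 : (0 : ℝ) < (r : ℝ) ^ m1 := by
    have : (0 : ℝ) < r := by exact_mod_cast (by omega : 0 < r)
    positivity
  have h1 : 16 * (k : ℝ) ^ (c * k) * (1 / (r : ℝ)) ^ m1 ≤ 1 := by
    rw [one_div, inv_pow, ← div_eq_mul_inv, div_le_one hr0]
    exact hrm
  have hN0 : (0 : ℝ) ≤ S.N := by positivity
  have h2 := mul_le_mul_of_nonneg_left hBad hP
  have h3 := mul_le_mul_of_nonneg_right hN' hN0
  have h4 := mul_le_mul_of_nonneg_right h1 (sq_nonneg (S.N : ℝ))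
  nlinarith

/-- The number of pairs whose residues lie in a given set. -/
theorem card_residues_le (n N : ℕ) (Bad : Finset (ℤ × ℤ)) :
    ((Finset.Icc 1 n ×ˢ Finset.Icc 1 n).filter
      (fun z : ℕ × ℕ => ((z.1 : ℤ) % N, (z.2 : ℤ) % N) ∈ Bad)).card
      ≤ Bad.card * (n / N + 1) ^ 2 := by
  have h1 : (Bad ×ˢ (Finset.range (n / N + 1) ×ˢ Finset.range (n / N + 1))).card
      = Bad.card * (n / N + 1) ^ 2 := by
    simp [Finset.card_product, sq]
  rw [← h1]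
  refine Finset.card_le_card_of_injOn
    (fun z => (((z.1 : ℤ) % N, (z.2 : ℤ) % N), (z.1 / N, z.2 / N))) (fun z hz => ?_) ?_
  · obtain ⟨hz1, hz2⟩ := Finset.mem_filter.1 (Finset.mem_coe.1 hz)
    obtain ⟨a1, a2⟩ := Finset.mem_product.1 hz1
    refine Finset.mem_coe.2 (Finset.mem_product.2 ⟨hz2, Finset.mem_product.2 ⟨?_, ?_⟩⟩)
    · exact Finset.mem_range.2 (Nat.lt_succ_of_le (Nat.div_le_div_right (Finset.mem_Icc.1 a1).2))
    · exact Finset.mem_range.2 (Nat.lt_succ_of_le (Nat.div_le_div_right (Finset.mem_Icc.1 a2).2))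
  · intro z _ z' _ h
    simp only [Prod.mk.injEq] at h
    obtain ⟨⟨e1, e2⟩, e3, e4⟩ := h
    have f1 : z.1 % N = z'.1 % N := by exact_mod_cast e1
    have f2 : z.2 % N = z'.2 % N := by exact_mod_cast e2
    refine Prod.ext ?_ ?_
    · rw [← Nat.div_add_mod z.1 N, ← Nat.div_add_mod z'.1 N, e3, f1]
    · rw [← Nat.div_add_mod z.2 N, ← Nat.div_add_mod z'.2 N, e4, f2]

end Pool.Agent.MP_a31471_co.sx
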