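import Mathlib
import Pool.Agent.MP_a31471_co.sx.Defs
import Pool.Agent.MP_a31471_co.big.Stage1

/-!
The base colouring: balanced on all patterns that are not heavy.
-/

set_option autoImplicit false

namespace Pool.Agent.MP_a31471_co.sx

open Finset

theorem class_le {V : Type*} [DecidableEq V] {k h : ℕ} (h1 : 1 ≤ h) (h2 : 2 * h ≤ k)
    {π : Fin k → V} (hn : ¬ Heavy k h π) (v : V) :
    (((univ : Finset (Fin k)).filter (fun i => π i = v)).card : ℝ) ≤ (k : ℝ) / h := by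
  have a1 : ((univ : Finset (Fin k)).filter (fun i => π i = v)).card ≤ k / (2 * h) + 1 :=
    not_lt.1 fun hlt => hn ⟨v, hlt⟩
  have a2 : 1 ≤ k / (2 * h) := (Nat.le_div_iff_mul_le (by omega)).2 (by omega)
  have a3 : k / (2 * h) * (2 * h) ≤ k := Nat.div_mul_le_self _ _
  have a4 : ((univ : Finset (Fin k)).filter (fun i => π i = v)).card * h ≤ k := by nlinarith
  rw [le_div_iff₀ (by exact_mod_cast h1)]
  exact_mod_cast a4

open Classical in
theorem stage1 {V : Type*} [Fintype V] [DecidableEq V] (k H H1 : ℕ) (hH : 1 ≤ H) (hH1 : H ≤ H1)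
    (hk : 2 * H1 ≤ k) (Pat : Finset (Fin k → V)) (η P1 P2 : ℝ) (hη : 0 ≤ η)
    (h1 : (Pat.card : ℝ) ≤ P1)
    (h2 : ∀ i v, ((Pat.filter (fun π => Heavy k H1 π ∧ π i = v)).card : ℝ) ≤ P2)
    (hs : 4 * k * (P1 * (2 * Real.exp (-(2 * η ^ 2 * H1)))
      + k * P2 * (2 * Real.exp (-(2 * η ^ 2 * H)))) ≤ 1) :
    ∃ φ : V → Bool, ∀ π ∈ Pat, ¬ Heavy k H π → ∀ c : Bool,
      (1 / 2 - η) * k ≤ (((univ : Finset (Fin k)).filter (fun i => φ (π i) = c)).card : ℝ) := by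
  have hk0 : 0 < k := by omega
  have hk' : (k : ℝ) ≠ 0 := by exact_mod_cast hk0.ne'
  have e : ∀ h : ℕ, 1 ≤ h → 2 * η ^ 2 * k / ((k : ℝ) / h) = 2 * η ^ 2 * h := by
    intro h hh
    have : (h : ℝ) ≠ 0 := by exact_mod_cast (by omega : h ≠ 0)
    field_simp
  obtain ⟨φ, hφ⟩ := Big.stage1_two hk0 (Pat.filter fun π => ¬ Heavy k H π)
    (Pat.filter fun π => Heavy k H1 π) (M0 := (k : ℝ) / H) (M1 := (k : ℝ) / H1) hη
    (P1 := P1) (P2 := P2)
    (fun π hπ v => class_le hH (by omega) (mem_filter.1 hπ).2 v)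
    (fun π hπ hn v => class_le (hH.trans hH1) hk
      (fun h => hn (mem_filter.2 ⟨(mem_filter.1 hπ).1, h⟩)) v)
    (le_trans (by exact_mod_cast card_filter_le _ _) h1)
    (fun i v => by
      rw [filter_filter]
      convert h2 i v)
    (by
      rw [e H hH, e H1 (hH.trans hH1)]
      linarith)
  exact ⟨φ, fun π hπ hn c => hφ π (mem_filter.2 ⟨hπ, hn⟩) c⟩

end Pool.Agent.MP_a31471_co.sx
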