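import Mathlib
import Pool.Agent.MP_a31471_co.sx.Prob
import Pool.Agent.MP_a31471_co.big.Stage2

/-!
The sparse flips, chosen by the local lemma.
-/

set_option autoImplicit false

namespace Pool.Agent.MP_a31471_co.sx

open Finset

section
variable {Key : Type*} [Fintype Key] [DecidableEq Key] {r m : ℕ} [NeZero r]

/-- The letters for which `T` becomes monochromatic of colour `c`. -/
def monoC (r : ℕ) [NeZero r] (base : Key → Bool) (T : Finset Key) (c : Bool) :
    Finset (Key → Fin r) :=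
  univ.filter fun ψ => ∀ κ ∈ T, xor (base κ) (decide (ψ κ = 0)) = c

theorem monoC_bal (base : Key → Bool) (T : Finset Key)
    (hA : ∀ c, m ≤ (T.filter fun κ => base κ = c).card) (c : Bool) :
    ((monoC r base T c).card : ℝ) ≤ (1 / r : ℝ) ^ m * Fintype.card (Key → Fin r) := by
  have hr1 : (1 : ℝ) ≤ r := by exact_mod_cast Nat.pos_of_ne_zero (NeZero.ne r)
  have hr0 : (0 : ℝ) < r := by linarith
  refine Big.count_box (T.filter fun κ => base κ = !c) (fun _ => {0}) (by positivity)
    ((div_le_one hr0).2 hr1) (hA _) (fun x _ => ?_) _ fun ψ hψ x hx => ?_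
  · simp [hr0.ne']
  · obtain ⟨e0, e1⟩ := mem_filter.1 hx
    have e2 := (mem_filter.1 hψ).2 x e0
    simp only [e1] at e2
    rw [mem_singleton]
    by_contra h
    simp [h] at e2

theorem monoC_any (hr : 2 ≤ r) (base : Key → Bool) (T : Finset Key) (hm : m ≤ T.card) (c : Bool) :
    ((monoC r base T c).card : ℝ) ≤ (1 - 1 / r : ℝ) ^ m * Fintype.card (Key → Fin r) := by
  have hr' : (2 : ℝ) ≤ r := by exact_mod_cast hr
  have hr0 : (0 : ℝ) < r := by linarith
  have hh : (1 / r : ℝ) ≤ 1 / 2 := one_div_le_one_div_of_le (by norm_num) hr'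
  have h0 : (0 : ℝ) ≤ 1 / r := by positivity
  refine Big.count_box T (fun y => if base y = c then {0}ᶜ else {0}) (by linarith)
    (by linarith) hm (fun x _ => ?_) _ fun ψ hψ x hx => ?_
  · have e : (1 - 1 / r : ℝ) * r = r - 1 := by field_simp
    rw [Fintype.card_fin, e]
    split_ifs
    · rw [card_compl, card_singleton, Fintype.card_fin, Nat.cast_sub (by omega)]
      simp
    · rw [card_singleton]
      push_cast
      linarith
  · have e2 := (mem_filter.1 hψ).2 x hx
    split_ifs with h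
    · rw [mem_compl, mem_singleton]
      intro h'
      simp [h, h'] at e2
    · rw [mem_singleton]
      by_contra h'
      simp [h, h'] at e2

end

theorem stage2 {Key : Type*} [Fintype Key] [DecidableEq Key] (k r m1 m2 : ℕ) (hr : 2 ≤ r)
    (hm2 : 1 ≤ m2) (hm1 : 1 ≤ m1) (base : Key → Bool) (L Hv : Finset (Finset Key))
    (hL : ∀ T ∈ L, T.card ≤ k ∧ ∀ c, m1 ≤ (T.filter (fun κ => base κ = c)).card)
    (hH : ∀ T ∈ Hv, T.card ≤ k ∧ m2 ≤ T.card)
    (P : ℝ) (hP : ∀ κ, ((Hv.filter (fun T => κ ∈ T)).card : ℝ) ≤ P)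
    (hs : 2 * L.card * (1 / (r : ℝ)) ^ m1 + 2 * k * P * (1 - 1 / (r : ℝ)) ^ m2 ≤ 1 / 4) :
    ∃ ψ : Key → Bool, ∀ T, T ∈ L ∨ T ∈ Hv → ∀ c : Bool, ∃ κ ∈ T, xor (base κ) (ψ κ) ≠ c := by
  classical
  have : NeZero r := ⟨by omega⟩
  have hr' : (2 : ℝ) ≤ r := by exact_mod_cast hr
  have hh : (1 / r : ℝ) ≤ 1 / 2 := one_div_le_one_div_of_le (by norm_num) hr'
  have p1 : (0 : ℝ) ≤ (1 / r : ℝ) ^ m1 := by positivity
  have p2 : (0 : ℝ) ≤ (1 - 1 / r : ℝ) ^ m2 := pow_nonneg (by linarith) _
  have hcard : ∀ T ∈ L ∪ Hv, T.card ≤ k ∧ T.Nonempty := by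
    intro T hT
    rcases mem_union.1 hT with h | h
    · exact ⟨(hL T h).1, card_pos.1 (lt_of_lt_of_le hm1
        (((hL T h).2 true).trans (card_filter_le _ _)))⟩
    · exact ⟨(hH T h).1, card_pos.1 (lt_of_lt_of_le hm2 (hH T h).2)⟩
  obtain ⟨ψ, hψ⟩ := local_lemma (α := Fin r) (L ∪ Hv) (fun T => T)
    (fun T => monoC r base T true ∪ monoC r base T false)
    (fun T f g h hf => by
      have : ∀ c, f ∈ monoC r base T c → g ∈ monoC r base T c := fun c hc =>
        mem_filter.2 ⟨mem_univ _, fun κ hκ => by rw [← h κ hκ]; exact (mem_filter.1 hc).2 κ hκ⟩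
      exact mem_union.2 ((mem_union.1 hf).imp (this _) (this _)))
    (fun T => if T ∈ Hv then 2 * (1 - 1 / r : ℝ) ^ m2 else 2 * (1 / r : ℝ) ^ m1)
    (fun T hT => by
      have c1 := (Nat.cast_le (α := ℝ)).2
        (card_union_le (monoC r base T true) (monoC r base T false))
      rw [Nat.cast_add] at c1
      have e : ((Fintype.card (Fin r) : ℕ) : ℝ) ^ Fintype.card Key =
          Fintype.card (Key → Fin r) := by simp
      rw [e]
      split_ifs with h
      · linarith [monoC_any hr base T (hH T h).2 true, monoC_any hr base T (hH T h).2 false]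
      · have h' := (hL T ((mem_union.1 hT).resolve_right h)).2
        linarith [monoC_bal (r := r) base T h' true, monoC_bal (r := r) base T h' false])
    (fun T hT => (hcard T hT).2)
    (fun T hT => by
      set S := (L ∪ Hv).filter (fun j => ¬ Disjoint j T) with hS
      rw [← sum_filter_add_sum_filter_not S (fun j => j ∈ Hv)]
      have a1 : ∑ j ∈ S.filter (fun j => j ∈ Hv),
          (if j ∈ Hv then 2 * (1 - 1 / r : ℝ) ^ m2 else 2 * (1 / r : ℝ) ^ m1) ≤
          k * P * (2 * (1 - 1 / r : ℝ) ^ m2) := by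
        rw [sum_congr rfl (g := fun _ => 2 * (1 - 1 / r : ℝ) ^ m2)
          fun j hj => by rw [if_pos (mem_filter.1 hj).2], sum_const, nsmul_eq_mul]
        gcongr
        have b1 : (S.filter fun j => j ∈ Hv).card ≤
            ∑ κ ∈ T, (Hv.filter fun j => κ ∈ j).card := by
          refine le_trans (card_le_card fun j hj => ?_) card_biUnion_le
          obtain ⟨b2, b3⟩ := mem_filter.1 hj
          obtain ⟨κ, b4, b5⟩ := not_disjoint_iff.1 (mem_filter.1 b2).2
          exact mem_biUnion.2 ⟨κ, b5, mem_filter.2 ⟨b3, b4⟩⟩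
        have b2 := (Nat.cast_le (α := ℝ)).2 b1
        rw [Nat.cast_sum] at b2
        refine b2.trans ((sum_le_sum fun κ _ => hP κ).trans ?_)
        rw [sum_const, nsmul_eq_mul]
        obtain ⟨κ, -⟩ := (hcard T hT).2
        have b3 : 0 ≤ P := le_trans (Nat.cast_nonneg _) (hP κ)
        gcongr
        exact (hcard T hT).1
      have a2 : ∑ j ∈ S.filter (fun j => ¬ j ∈ Hv),
          (if j ∈ Hv then 2 * (1 - 1 / r : ℝ) ^ m2 else 2 * (1 / r : ℝ) ^ m1) ≤
          L.card * (2 * (1 / r : ℝ) ^ m1) := by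
        rw [sum_congr rfl (g := fun _ => 2 * (1 / r : ℝ) ^ m1)
          fun j hj => by rw [if_neg (mem_filter.1 hj).2], sum_const, nsmul_eq_mul]
        gcongr
        intro j hj
        obtain ⟨b2, b3⟩ := mem_filter.1 hj
        exact (mem_union.1 (mem_filter.1 b2).1).resolve_right b3
      linarith)
  refine ⟨fun κ => decide (ψ κ = 0), fun T hT c => ?_⟩
  by_contra h
  push Not at h
  have h1 : ψ ∈ monoC r base T c := mem_filter.2 ⟨mem_univ _, h⟩
  refine hψ T (mem_union.2 hT) ?_
  cases c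
  · exact mem_union_right _ h1
  · exact mem_union_left _ h1

end Pool.Agent.MP_a31471_co.sx
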